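import Pool.Agent.R977.SC.Stm

open MeasureTheory ProbabilityTheory Filter Topology Set
open scoped ENNReal NNReal

namespace Pool.Agent.R977.SC

open Pool.Agent.R974.Span

universe u

lemma Unc.mono {c δ δ' : ℝ} {L R : ℝ≥0 → ℝ} (h : Unc c δ L R) (hδ : δ ≤ δ') : Unc c δ' L R := by
  obtain ⟨r, h1, h2, h3⟩ := h
  exact ⟨r, h1, h2, fun x y hxy => h3 x y (by linarith)⟩

/-- scaled path -/
noncomputable def scl (κ : ℝ≥0) (w : ℝ≥0 → ℝ) : ℝ≥0 → ℝ := fun t => (√κ)⁻¹ * w (κ * t)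

lemma Unc.unscale {N : ℝ} {κ : ℝ≥0} (hκ : κ ≠ 0) {L R : ℝ≥0 → ℝ}
    (h : Unc N 1 (scl κ L) (scl κ R)) : Unc (√κ * N) κ L R := by
  obtain ⟨r, h1, ⟨x0, y0, h2, h2'⟩, h3⟩ := h
  have hκ0 : 0 < κ := pos_iff_ne_zero.2 hκ
  have hs : 0 < √(κ : ℝ) := Real.sqrt_pos.2 (by exact_mod_cast hκ0)
  have key : ∀ x y : ℝ≥0, scl κ L (x / κ) + scl κ R (y / κ) = (√κ)⁻¹ * (L x + R y) := by
    intro x y
    simp only [scl]
    rw [mul_div_cancel₀ _ hκ, mul_div_cancel₀ _ hκ, mul_add]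
  have conv : ∀ z : ℝ, (√κ)⁻¹ * z < N → z < √κ * N := by
    intro z hz
    rwa [inv_mul_lt_iff₀ hs] at hz
  refine ⟨κ * r, ?_, ⟨κ * x0, κ * y0, ?_, ?_⟩, ?_⟩
  · intro x y hxy
    apply conv
    rw [← key]
    apply h1
    rw [← add_div, hxy, mul_div_cancel_left₀ _ hκ]
  · rw [← mul_add]
    exact mul_lt_mul_of_pos_left h2 hκ0
  · have h4 : scl κ L x0 + scl κ R y0 = (√κ)⁻¹ * (L (κ * x0) + R (κ * y0)) := by
      simp only [scl]; ring
    rw [h4] at h2'
    rwa [le_inv_mul_iff₀ hs] at h2'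
  · intro x y hxy
    apply conv
    rw [← key]
    apply h3
    have hκr : (0:ℝ) < κ := by exact_mod_cast hκ0
    push_cast at hxy ⊢
    rw [← add_div, div_add_one hκr.ne', div_le_iff₀ hκr]
    linarith

section
variable {Ω : Type u} [MeasurableSpace Ω] {P : Measure Ω}

/-- scaled process -/
noncomputable def sclP (κ : ℝ≥0) (B : ℝ≥0 → Ω → ℝ) : ℝ≥0 → Ω → ℝ := fun t ω => (√κ)⁻¹ * B (κ * t) ω

lemma path_sclP (κ : ℝ≥0) (B : ℝ≥0 → Ω → ℝ) (ω : Ω) : path (sclP κ B) ω = scl κ (path B ω) := rfl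

lemma HBM.scl {B : ℝ≥0 → Ω → ℝ} (hB : HBM B P) {κ : ℝ≥0} (hκ : κ ≠ 0) : HBM (sclP κ B) P := by
  have hκ0 : 0 < κ := pos_iff_ne_zero.2 hκ
  have hs : 0 < √(κ : ℝ) := Real.sqrt_pos.2 (by exact_mod_cast hκ0)
  have hc : ∀ ω, Continuous (fun t => sclP κ B t ω) := by
    intro ω
    have h1 : Continuous (fun t => B t ω) := hB.gbm.cont ω
    unfold sclP
    exact continuous_const.mul (h1.comp (continuous_const.mul continuous_id))
  have hz : ∀ ω, sclP κ B 0 ω = 0 := by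
    intro ω
    unfold sclP
    rw [mul_zero, hB.gbm.zero, mul_zero]
  refine ⟨⟨hB.gbm.pre.smul hκ, ?_, hc, hz⟩, ?_⟩
  · intro t
    exact measurable_const.mul (hB.gbm.meas _)
  · intro ω
    refine ⟨hc ω, hz ω, ?_⟩
    intro c
    obtain ⟨t, ht⟩ := (hB.nice ω).hit (√κ * c)
    refine ⟨t / κ, ?_⟩
    have ht' : √κ * c ≤ B t ω := ht
    show c ≤ (√κ)⁻¹ * B (κ * (t / κ)) ω
    rw [mul_div_cancel₀ _ hκ, le_inv_mul_iff₀ hs]
    exact ht'

lemma indep_scl {L R : ℝ≥0 → Ω → ℝ} (h : IndepFun (path L) (path R) P) (κ : ℝ≥0) :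
    IndepFun (path (sclP κ L)) (path (sclP κ R)) P := by
  have hm : Measurable (scl κ) := by
    unfold scl
    fun_prop
  exact h.comp hm hm

lemma itA_succ (k : ℕ) (w : ℝ≥0 → ℝ) : it (k + 1) w = it k (sh w) := by
  simp only [it, Function.iterate_succ, Function.comp]

lemma measYA (h1 : StmPATH) (h2 : StmMEAS.{u}) (k : ℕ) : ∀ (m : MeasurableSpace Ω) (X : ℝ≥0 → Ω → ℝ),
    (∀ t, Measurable[m] (X t)) → (∀ ω, Nice (path X ω)) → Measurable[m] (Y X k) := by
  induction k with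
  | zero =>
    intro m X hX hN
    obtain ⟨h3, h4, -⟩ := h2 Ω X hX hN
    exact h3.prodMk (measurable_to_prop (by
      have : (fun ω => Spc (it 0 (path X ω))) ⁻¹' {True} = {ω | Spc (path X ω)} := by
        ext ω; simp [it]
      rw [this]
      exact h4))
  | succ k ih =>
    intro m X hX hN
    obtain ⟨-, -, h5⟩ := h2 Ω X hX hN
    have h6 := ih m (fun t ω => sh (path X ω) t) h5 (fun ω => (h1 _ (hN ω)).1)
    have h7 : Y X (k + 1) = Y (fun t ω => sh (path X ω) t) k := by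
      funext ω
      simp only [Y, th, itA_succ]
      rfl
    rw [h7]
    exact h6

lemma iIndep_sum {E : Type*} [MeasurableSpace E] {Y1 Y2 : ℕ → Ω → E} (h1 : iIndepFun Y1 P)
    (h2 : iIndepFun Y2 P) {m1 m2 : MeasurableSpace Ω} (hind : Indep m1 m2 P)
    (hm1 : ∀ k, Measurable[m1] (Y1 k)) (hm2 : ∀ k, Measurable[m2] (Y2 k)) :
    iIndepFun (Sum.elim Y1 Y2) P := by
  rw [iIndepFun_iff_measure_inter_preimage_eq_mul]
  intro S sets hsets
  have hS : S = S.toLeft.disjSum S.toRight := Finset.toLeft_disjSum_toRight.symm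
  have hset : (⋂ i ∈ S, (Sum.elim Y1 Y2 i) ⁻¹' sets i) =
      (⋂ i ∈ S.toLeft, Y1 i ⁻¹' sets (Sum.inl i)) ∩ (⋂ i ∈ S.toRight, Y2 i ⁻¹' sets (Sum.inr i)) := by
    ext ω
    simp only [mem_iInter, mem_inter_iff, mem_preimage, Finset.mem_toLeft, Finset.mem_toRight]
    constructor
    · intro h
      exact ⟨fun i hi => h _ hi, fun i hi => h _ hi⟩
    · rintro ⟨ha, hb⟩ (i | i) hi
      · exact ha i hi
      · exact hb i hi
  rw [hset, (Indep_iff m1 m2 P).1 hind]
  · rw [h1.measure_inter_preimage_eq_mul, h2.measure_inter_preimage_eq_mul]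
    · conv_rhs => rw [hS, Finset.prod_disjSum]
      rfl
    · intro i hi
      exact hsets _ (Finset.mem_toRight.1 hi)
    · intro i hi
      exact hsets _ (Finset.mem_toLeft.1 hi)
  · exact Finset.measurableSet_biInter _ fun i hi => hm1 i (hsets _ (Finset.mem_toLeft.1 hi))
  · exact Finset.measurableSet_biInter _ fun i hi => hm2 i (hsets _ (Finset.mem_toRight.1 hi))

lemma measurableSet_good {Z1 Z2 : ℕ → Ω → ℝ≥0 × Prop} (h1 : ∀ k, Measurable (Z1 k))
    (h2 : ∀ k, Measurable (Z2 k)) (a b : ℕ) : MeasurableSet {ω | Good a b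
      (fun k => (Z1 k ω).1) (fun k => (Z2 k ω).1) (fun k => (Z1 k ω).2) (fun k => (Z2 k ω).2)} := by
  have e1 : ∀ k, Measurable fun ω => (Z1 k ω).1 := fun k => (h1 k).fst
  have e2 : ∀ k, Measurable fun ω => (Z2 k ω).1 := fun k => (h2 k).fst
  have e3 : ∀ k, MeasurableSet {ω | (Z1 k ω).2} := fun k => measurableSet_setOfPred.2 (h1 k).snd
  have e4 : ∀ k, MeasurableSet {ω | (Z2 k ω).2} := fun k => measurableSet_setOfPred.2 (h2 k).snd
  unfold Good
  refine MeasurableSet.inter ?_ (MeasurableSet.inter ?_ (MeasurableSet.inter ?_ ?_))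
  · exact (measurableSet_le (e1 _) measurable_const).inter
      ((measurableSet_le (e1 _) measurable_const).inter (e3 _))
  · exact (measurableSet_le (e2 _) measurable_const).inter
      ((measurableSet_le (e2 _) measurable_const).inter (e4 _))
  · have : {ω | ∀ m ≤ b, 0 ≤ ∑ k ∈ Finset.range m,
        (((Z1 (a + 3 + k) ω).1 : ℝ) - (Z2 (b - 1 - k) ω).1)} = ⋂ m, ⋂ (_ : m ≤ b),
        {ω | 0 ≤ ∑ k ∈ Finset.range m, (((Z1 (a + 3 + k) ω).1 : ℝ) - (Z2 (b - 1 - k) ω).1)} := by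
      ext ω; simp
    have h3 : MeasurableSet {ω | ∀ m ≤ b, 0 ≤ ∑ k ∈ Finset.range m,
        (((Z1 (a + 3 + k) ω).1 : ℝ) - (Z2 (b - 1 - k) ω).1)} := by
      rw [this]
      exact MeasurableSet.iInter fun m => MeasurableSet.iInter fun _ =>
        measurableSet_le measurable_const (Finset.measurable_sum _ fun k _ =>
          (e1 _).coe_nnreal_real.sub (e2 _).coe_nnreal_real)
    exact h3
  · have : {ω | ∀ m ≤ a, 0 ≤ ∑ k ∈ Finset.range m,
        (((Z2 (b + 3 + k) ω).1 : ℝ) - (Z1 (a - 1 - k) ω).1)} = ⋂ m, ⋂ (_ : m ≤ a),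
        {ω | 0 ≤ ∑ k ∈ Finset.range m, (((Z2 (b + 3 + k) ω).1 : ℝ) - (Z1 (a - 1 - k) ω).1)} := by
      ext ω; simp
    have h3 : MeasurableSet {ω | ∀ m ≤ a, 0 ≤ ∑ k ∈ Finset.range m,
        (((Z2 (b + 3 + k) ω).1 : ℝ) - (Z1 (a - 1 - k) ω).1)} := by
      rw [this]
      exact MeasurableSet.iInter fun m => MeasurableSet.iInter fun _ =>
        measurableSet_le measurable_const (Finset.measurable_sum _ fun k _ =>
          (e2 _).coe_nnreal_real.sub (e1 _).coe_nnreal_real)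
    exact h3

lemma HBM.prob {B : ℝ≥0 → Ω → ℝ} (hB : HBM B P) : IsProbabilityMeasure P := hB.gbm.prob

theorem pieceA (hPATH : StmPATH) (hMEAS : StmMEAS.{u}) (hIID : StmIID.{u}) (hLAW : StmLAW.{u})
    (hWALK : StmWALK.{u}) (hGEO : StmGEO) (hDISJ : StmDISJ) (hPOS : StmPOS.{u}) : StmA.{u} := by
  intro Ω _ P L R hL hR hLR
  have := hL.prob
  set c0 : ℝ≥0∞ := (P {ω | (Y L 0 ω).1 ≤ 1 / 8} * P {ω | (Y L 0 ω).2}) ^ 4 with hc0
  have hYm : ∀ (B : ℝ≥0 → Ω → ℝ), HBM B P → ∀ k, Measurable (Y B k) := fun B hB => (hIID Ω P B hB).1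
  refine ⟨c0, ?_, ?_⟩
  · obtain ⟨h1, h2⟩ := hPOS Ω P L hL
    exact pow_ne_zero _ (mul_ne_zero h1 h2)
  intro c hc
  -- one scale
  have hscale : ∀ n : ℕ, ∃ G : Set Ω, MeasurableSet G ∧ c0 ≤ P G ∧ ∀ ω ∈ G,
      Unc c ((c / ((n : ℝ) + 4)) ^ 2) (path L ω) (path R ω) := by
    intro n
    have hlam : 0 < c / ((n : ℝ) + 4) := by positivity
    set κ : ℝ≥0 := ⟨(c / ((n : ℝ) + 4)) ^ 2, by positivity⟩ with hκdef
    have hκr : (κ : ℝ) = (c / ((n : ℝ) + 4)) ^ 2 := rfl
    have hκ : κ ≠ 0 := by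
      rw [← NNReal.coe_ne_zero, hκr]; positivity
    have hsq : √(κ : ℝ) = c / ((n : ℝ) + 4) := by
      rw [hκr, Real.sqrt_sq hlam.le]
    have hL' := hL.scl hκ
    have hR' := hR.scl hκ
    obtain ⟨mL, iL, lL⟩ := hIID Ω P _ hL'
    obtain ⟨mR, iR, lR⟩ := hIID Ω P _ hR'
    have hind := indep_scl hLR κ
    have hZ : iIndepFun (Sum.elim (Y (sclP κ L)) (Y (sclP κ R))) P := by
      refine iIndep_sum iL iR hind ?_ ?_
      · intro k
        refine measYA hPATH hMEAS k _ _ ?_ hL'.nice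
        intro t
        exact (measurable_pi_apply t).comp (comap_measurable (path (sclP κ L)))
      · intro k
        refine measYA hPATH hMEAS k _ _ ?_ hR'.nice
        intro t
        exact (measurable_pi_apply t).comp (comap_measurable (path (sclP κ R)))
    have hlaw0 : P.map (Y (sclP κ L) 0) = P.map (Y L 0) := hLAW Ω P _ _ hL' hL
    have hlaws : ∀ s, P.map (Sum.elim (Y (sclP κ L)) (Y (sclP κ R)) s) =
        P.map (Sum.elim (Y (sclP κ L)) (Y (sclP κ R)) (Sum.inl 0)) := by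
      rintro (k | k)
      · exact lL k
      · exact (lR k).trans (hLAW Ω P _ _ hR' hL')
    have hw := hWALK Ω P (Sum.elim (Y (sclP κ L)) (Y (sclP κ R))) (by
      rintro (k | k)
      · exact mL k
      · exact mR k) hZ hlaws n
    have e1 : P {ω | (Y (sclP κ L) 0 ω).1 ≤ 1 / 8} = P {ω | (Y L 0 ω).1 ≤ 1 / 8} := by
      have hs : MeasurableSet {q : ℝ≥0 × Prop | q.1 ≤ 1 / 8} :=
        measurableSet_le measurable_fst measurable_const
      have := congrArg (fun μ => μ {q : ℝ≥0 × Prop | q.1 ≤ 1 / 8}) hlaw0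
      simp only [Measure.map_apply (mL 0) hs, Measure.map_apply (hYm L hL 0) hs] at this
      exact this
    have e2 : P {ω | (Y (sclP κ L) 0 ω).2} = P {ω | (Y L 0 ω).2} := by
      have hs : MeasurableSet {q : ℝ≥0 × Prop | q.2} := measurableSet_setOfPred.2 measurable_snd
      have := congrArg (fun μ => μ {q : ℝ≥0 × Prop | q.2}) hlaw0
      simp only [Measure.map_apply (mL 0) hs, Measure.map_apply (hYm L hL 0) hs] at this
      exact this
    simp only [Sum.elim_inl, Sum.elim_inr] at hw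
    rw [e1, e2, ← hc0] at hw
    set A : ℕ → Set Ω := fun a => {ω | GoodP a (n - a) (path (sclP κ L) ω) (path (sclP κ R) ω)} with hA
    have hAm : ∀ a, MeasurableSet (A a) := fun a => measurableSet_good mL mR a (n - a)
    refine ⟨⋃ a ∈ Finset.range (n + 1), A a, Finset.measurableSet_biUnion _ fun a _ => hAm a, ?_, ?_⟩
    · rw [measure_biUnion_finset]
      · exact hw
      · intro a ha a' ha' hne
        rw [Function.onFun, Set.disjoint_left]
        intro ω h1 h2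
        apply hne
        have ha1 : a < n + 1 := by simpa using ha
        have ha2 : a' < n + 1 := by simpa using ha'
        exact hDISJ _ _ (hL'.nice ω) (hR'.nice ω) a (n - a) a' (n - a') (by omega) h1 h2
      · intro a _
        exact hAm a
    · intro ω hω
      simp only [mem_iUnion, Finset.mem_range] at hω
      obtain ⟨a, ha, hω⟩ := hω
      have h3 := hGEO _ _ (hL'.nice ω) (hR'.nice ω) a (n - a) hω
      have h4 := Unc.unscale (L := path L ω) (R := path R ω) hκ h3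
      have h5 : ((n - a : ℕ) : ℝ) = (n : ℝ) - a := by
        rw [Nat.cast_sub (by omega)]
      rw [hsq, hκr, h5] at h4
      have h6 : c / ((n : ℝ) + 4) * ((a : ℝ) + ((n : ℝ) - a) + 4) = c := by
        rw [show (a : ℝ) + ((n : ℝ) - a) + 4 = (n : ℝ) + 4 by ring]
        field_simp
      rwa [h6] at h4
  choose G hGm hGP hGU using hscale
  refine ⟨⋂ n, ⋃ k, ⋃ (_ : n ≤ k), G k, ?_, ?_, ?_⟩
  · exact MeasurableSet.iInter fun n => MeasurableSet.iUnion fun k => MeasurableSet.iUnion fun _ => hGm k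
  · have hanti : Antitone (fun n => ⋃ k, ⋃ (_ : n ≤ k), G k) := by
      intro n n' hn ω hω
      simp only [mem_iUnion] at hω ⊢
      obtain ⟨k, hk, h⟩ := hω
      exact ⟨k, hn.trans hk, h⟩
    have hlim := tendsto_measure_iInter_atTop (μ := P) (s := fun n => ⋃ k, ⋃ (_ : n ≤ k), G k)
      (fun n => (MeasurableSet.iUnion fun k => MeasurableSet.iUnion fun _ => hGm k).nullMeasurableSet)
      hanti ⟨0, measure_ne_top _ _⟩
    refine ge_of_tendsto' hlim fun n => ?_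
    refine (hGP n).trans (measure_mono ?_)
    intro ω hω
    simp only [mem_iUnion]
    exact ⟨n, le_rfl, hω⟩
  · intro ω hω δ hδ
    have hten : Tendsto (fun n : ℕ => (c / ((n : ℝ) + 4)) ^ 2) atTop (𝓝 0) := by
      have h1 : Tendsto (fun n : ℕ => c / ((n : ℝ) + 4)) atTop (𝓝 0) := by
        apply Tendsto.div_atTop tendsto_const_nhds
        exact tendsto_atTop_add_const_right _ _ tendsto_natCast_atTop_atTop
      have h2 := h1.pow 2
      simpa using h2
    obtain ⟨n0, hn0⟩ := eventually_atTop.1 (hten.eventually (gt_mem_nhds hδ))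
    rw [mem_iInter] at hω
    have h1 := hω n0
    simp only [mem_iUnion] at h1
    obtain ⟨k, hk, h2⟩ := h1
    exact (hGU k ω h2).mono (hn0 k hk).le

end

end Pool.Agent.R977.SC
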