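import Pool.Agent.R977.SC.Stm

open MeasureTheory ProbabilityTheory Filter Topology Set
open scoped ENNReal NNReal

/-! Piece CONS: two independent Brownian motions on the product space. -/

namespace Pool.Agent.R977.SC

open Pool.Agent.R974.Span

universe u

namespace ConsAux

section
variable {Ω : Type u} [MeasurableSpace Ω] {P : Measure Ω} {B : ℝ≥0 → Ω → ℝ}

/-- lift to another space -/
lemma lift {Ω' : Type u} [MeasurableSpace Ω'] {P' : Measure Ω'} {f : Ω' → Ω}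
    (hf : MeasurePreserving f P' P) (hB : IsPreBrownianReal B P) :
    IsPreBrownianReal (fun t ω => B t (f ω)) P' where
  hasLaw I := (hB.hasLaw I).comp hf.hasLaw

/-- the joint process -/
def Z (B : ℝ≥0 → Ω → ℝ) : ℝ≥0 ⊕ ℝ≥0 → Ω × Ω → ℝ
  | Sum.inl t => fun ω => B t ω.1
  | Sum.inr t => fun ω => B t ω.2

lemma gaussZ (hB : GBM B P) : IsGaussianProcess (Z B) (P.prod P) where
  hasGaussianLaw I := by
    have := hB.prob
    classical
    let J : Finset ℝ≥0 := I.toLeft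
    let K : Finset ℝ≥0 := I.toRight
    have hX : Measurable (fun ω : Ω => J.restrict (B · ω)) :=
      measurable_pi_lambda _ fun t => hB.meas _
    have hY : Measurable (fun ω : Ω => K.restrict (B · ω)) :=
      measurable_pi_lambda _ fun t => hB.meas _
    have h1 : HasGaussianLaw (fun ω : Ω × Ω => J.restrict (B · ω.1)) (P.prod P) :=
      ((lift (measurePreserving_fst (μ := P) (ν := P)) hB.pre).hasLaw J).hasGaussianLaw
    have h2 : HasGaussianLaw (fun ω : Ω × Ω => K.restrict (B · ω.2)) (P.prod P) :=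
      ((lift (measurePreserving_snd (μ := P) (ν := P)) hB.pre).hasLaw K).hasGaussianLaw
    have h3 : IndepFun (fun ω : Ω × Ω => J.restrict (B · ω.1))
        (fun ω : Ω × Ω => K.restrict (B · ω.2)) (P.prod P) := indepFun_prod hX hY
    have h4 := h3.hasGaussianLaw h1 h2
    let L : (J → ℝ) × (K → ℝ) →L[ℝ] I → ℝ :=
      ContinuousLinearMap.pi fun i : I =>
        match i with
        | ⟨Sum.inl t, ht⟩ => (ContinuousLinearMap.proj (R := ℝ) (φ := fun _ : J => ℝ)
            ⟨t, Finset.mem_toLeft.2 ht⟩).comp (ContinuousLinearMap.fst ℝ (J → ℝ) (K → ℝ))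
        | ⟨Sum.inr t, ht⟩ => (ContinuousLinearMap.proj (R := ℝ) (φ := fun _ : K => ℝ)
            ⟨t, Finset.mem_toRight.2 ht⟩).comp (ContinuousLinearMap.snd ℝ (J → ℝ) (K → ℝ))
    have h5 := h4.map L
    have h6 : (fun ω => I.restrict (Z B · ω)) = L ∘ (fun ω : Ω × Ω =>
        (J.restrict (B · ω.1), K.restrict (B · ω.2))) := by
      funext ω
      funext i
      rcases i with ⟨t | t, ht⟩
      · rfl
      · rfl
    rw [h6]
    exact h5

section cv

variable {E : Type u} [MeasurableSpace E] {μ : Measure E} [IsProbabilityMeasure μ]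
  {X1 X2 Y1 Y2 : E → ℝ}

lemma caa (h1 : MemLp X1 2 μ) (h2 : MemLp X2 2 μ) (h3 : MemLp Y1 2 μ) (h4 : MemLp Y2 2 μ) :
    cov[fun ω => X1 ω + X2 ω, fun ω => Y1 ω + Y2 ω; μ] =
      cov[X1, Y1; μ] + cov[X1, Y2; μ] + (cov[X2, Y1; μ] + cov[X2, Y2; μ]) := by
  have e1 : (fun ω => X1 ω + X2 ω) = X1 + X2 := rfl
  have e2 : (fun ω => Y1 ω + Y2 ω) = Y1 + Y2 := rfl
  rw [e1, e2, covariance_add_left h1 h2 (h3.add h4), covariance_add_right h1 h3 h4,
    covariance_add_right h2 h3 h4]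

lemma cas (h1 : MemLp X1 2 μ) (h2 : MemLp X2 2 μ) (h3 : MemLp Y1 2 μ) (h4 : MemLp Y2 2 μ) :
    cov[fun ω => X1 ω + X2 ω, fun ω => Y1 ω - Y2 ω; μ] =
      cov[X1, Y1; μ] - cov[X1, Y2; μ] + (cov[X2, Y1; μ] - cov[X2, Y2; μ]) := by
  have e1 : (fun ω => X1 ω + X2 ω) = X1 + X2 := rfl
  have e2 : (fun ω => Y1 ω - Y2 ω) = Y1 - Y2 := rfl
  rw [e1, e2, covariance_add_left h1 h2 (h3.sub h4), covariance_sub_right h1 h3 h4,
    covariance_sub_right h2 h3 h4]

lemma css (h1 : MemLp X1 2 μ) (h2 : MemLp X2 2 μ) (h3 : MemLp Y1 2 μ) (h4 : MemLp Y2 2 μ) :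
    cov[fun ω => X1 ω - X2 ω, fun ω => Y1 ω - Y2 ω; μ] =
      cov[X1, Y1; μ] - cov[X1, Y2; μ] - (cov[X2, Y1; μ] - cov[X2, Y2; μ]) := by
  have e1 : (fun ω => X1 ω - X2 ω) = X1 - X2 := rfl
  have e2 : (fun ω => Y1 ω - Y2 ω) = Y1 - Y2 := rfl
  rw [e1, e2, covariance_sub_left h1 h2 (h3.sub h4), covariance_sub_right h1 h3 h4,
    covariance_sub_right h2 h3 h4]

end cv

/-- the first process -/
noncomputable def LL (B : ℝ≥0 → Ω → ℝ) (t : ℝ≥0) (ω : Ω × Ω) : ℝ := B (min t (1 / 2)) ω.1 + B (t - 1 / 2) ω.2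

/-- the second process -/
noncomputable def RR (B : ℝ≥0 → Ω → ℝ) (t : ℝ≥0) (ω : Ω × Ω) : ℝ :=
  B (1 / 2 + max t (1 / 2)) ω.1 - B (1 / 2 + (1 / 2 - t)) ω.1

lemma gaussLR (hB : GBM B P) : IsGaussianProcess (Sum.elim (LL B) (RR B)) (P.prod P) := by
  classical
  refine (gaussZ hB).of_isGaussianProcess ?_
  rintro (t | t)
  · exact ⟨{Sum.inl (min t (1 / 2)), Sum.inr (t - 1 / 2)},
      { toFun x := x ⟨Sum.inl (min t (1 / 2)), by simp⟩ + x ⟨Sum.inr (t - 1 / 2), by simp⟩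
        map_add' x y := by simp; abel
        map_smul' c x := by simp; ring }, fun ω => rfl⟩
  · exact ⟨{Sum.inl (1 / 2 + max t (1 / 2)), Sum.inl (1 / 2 + (1 / 2 - t))},
      { toFun x := x ⟨Sum.inl (1 / 2 + max t (1 / 2)), by simp⟩ -
          x ⟨Sum.inl (1 / 2 + (1 / 2 - t)), by simp⟩
        map_add' x y := by simp; abel
        map_smul' c x := by simp; ring }, fun ω => rfl⟩

variable (hB : GBM B P)

include hB

lemma pre1 : IsPreBrownianReal (fun t (ω : Ω × Ω) => B t ω.1) (P.prod P) := by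
  have := hB.prob
  exact lift measurePreserving_fst hB.pre

lemma pre2 : IsPreBrownianReal (fun t (ω : Ω × Ω) => B t ω.2) (P.prod P) := by
  have := hB.prob
  exact lift measurePreserving_snd hB.pre

lemma cov1 (s t : ℝ≥0) :
    cov[fun ω : Ω × Ω => B s ω.1, fun ω => B t ω.1; P.prod P] = ((min s t : ℝ≥0) : ℝ) := by
  have := (pre1 hB).covariance_eval s t
  simpa using this

lemma cov2 (s t : ℝ≥0) :
    cov[fun ω : Ω × Ω => B s ω.2, fun ω => B t ω.2; P.prod P] = ((min s t : ℝ≥0) : ℝ) := by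
  have := (pre2 hB).covariance_eval s t
  simpa using this

lemma mem1 (t : ℝ≥0) : MemLp (fun ω : Ω × Ω => B t ω.1) 2 (P.prod P) :=
  ((pre1 hB).isGaussianProcess.hasGaussianLaw_eval t).memLp_two

lemma mem2 (t : ℝ≥0) : MemLp (fun ω : Ω × Ω => B t ω.2) 2 (P.prod P) :=
  ((pre2 hB).isGaussianProcess.hasGaussianLaw_eval t).memLp_two

lemma cov12 (s t : ℝ≥0) :
    cov[fun ω : Ω × Ω => B s ω.1, fun ω => B t ω.2; P.prod P] = 0 := by
  have := hB.prob
  exact (indepFun_prod (hB.meas s) (hB.meas t)).covariance_eq_zero (mem1 hB s) (mem2 hB t)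

lemma cov21 (s t : ℝ≥0) :
    cov[fun ω : Ω × Ω => B s ω.2, fun ω => B t ω.1; P.prod P] = 0 := by
  rw [covariance_comm]
  exact cov12 hB t s

lemma covLL (s t : ℝ≥0) (hst : s ≤ t) : cov[LL B s, LL B t; P.prod P] = s := by
  have := hB.prob
  have h1 : LL B s = fun ω => B (min s (1 / 2)) ω.1 + B (s - 1 / 2) ω.2 := rfl
  have h2 : LL B t = fun ω => B (min t (1 / 2)) ω.1 + B (t - 1 / 2) ω.2 := rfl
  rw [h1, h2, caa (mem1 hB _) (mem2 hB _) (mem1 hB _) (mem2 hB _), cov1 hB, cov2 hB, cov12 hB,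
    cov21 hB]
  have h3 : min s (1 / 2) ≤ min t (1 / 2) := min_le_min_right _ hst
  have h4 : s - 1 / 2 ≤ t - 1 / 2 := tsub_le_tsub_right hst _
  rw [min_eq_left h3, min_eq_left h4]
  rcases le_total s (1 / 2) with h | h
  · rw [min_eq_left h, tsub_eq_zero_of_le h]; simp
  · rw [min_eq_right h, NNReal.coe_sub h]; push_cast; ring

lemma covRR (s t : ℝ≥0) (hst : s ≤ t) : cov[RR B s, RR B t; P.prod P] = s := by
  have := hB.prob
  have h1 : RR B s = fun ω => B (1 / 2 + max s (1 / 2)) ω.1 - B (1 / 2 + (1 / 2 - s)) ω.1 := rfl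
  have h2 : RR B t = fun ω => B (1 / 2 + max t (1 / 2)) ω.1 - B (1 / 2 + (1 / 2 - t)) ω.1 := rfl
  rw [h1, h2, css (mem1 hB _) (mem1 hB _) (mem1 hB _) (mem1 hB _), cov1 hB, cov1 hB, cov1 hB,
    cov1 hB]
  have e1 : (1 / 2 + max s (1 / 2) : ℝ≥0) ≤ 1 / 2 + max t (1 / 2) := by gcongr
  have e2 : (1 / 2 + (1 / 2 - t) : ℝ≥0) ≤ 1 / 2 + (1 / 2 - s) := by gcongr
  have e3 : ∀ u v : ℝ≥0, (1 / 2 + (1 / 2 - u) : ℝ≥0) ≤ 1 / 2 + max v (1 / 2) := by
    intro u v
    gcongr
    exact tsub_le_self.trans (le_max_right _ _)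
  rw [min_eq_left e1, min_eq_right (e3 t s), min_eq_left (e3 s t), min_eq_right e2]
  rcases le_total s (1 / 2) with h | h
  · rw [max_eq_right h, NNReal.coe_add, NNReal.coe_add, NNReal.coe_add, NNReal.coe_sub h]
    push_cast; ring
  · rw [max_eq_left h, tsub_eq_zero_of_le h]
    push_cast; ring

lemma covLR (s t : ℝ≥0) : cov[LL B s, RR B t; P.prod P] = 0 := by
  have := hB.prob
  have h1 : LL B s = fun ω => B (min s (1 / 2)) ω.1 + B (s - 1 / 2) ω.2 := rfl
  have h2 : RR B t = fun ω => B (1 / 2 + max t (1 / 2)) ω.1 - B (1 / 2 + (1 / 2 - t)) ω.1 := rfl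
  rw [h1, h2, cas (mem1 hB _) (mem2 hB _) (mem1 hB _) (mem1 hB _), cov1 hB, cov1 hB, cov21 hB,
    cov21 hB]
  have e1 : min s (1 / 2) ≤ 1 / 2 + max t (1 / 2) :=
    (min_le_right _ _).trans le_self_add
  have e2 : min s (1 / 2) ≤ 1 / 2 + (1 / 2 - t) := (min_le_right _ _).trans le_self_add
  rw [min_eq_left e1, min_eq_left e2]
  simp

lemma preL : IsPreBrownianReal (LL B) (P.prod P) := by
  have := hB.prob
  refine IsGaussianProcess.isPreBrownianReal_of_covariance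
    ((gaussLR hB).comp_right Sum.inl) (fun t => ?_) (covLL hB)
  have h2 : LL B t = fun ω => B (min t (1 / 2)) ω.1 + B (t - 1 / 2) ω.2 := rfl
  rw [h2, integral_add ((pre1 hB).integrable_eval _) ((pre2 hB).integrable_eval _),
    (pre1 hB).integral_eval, (pre2 hB).integral_eval, add_zero]

lemma preR : IsPreBrownianReal (RR B) (P.prod P) := by
  have := hB.prob
  refine IsGaussianProcess.isPreBrownianReal_of_covariance
    ((gaussLR hB).comp_right Sum.inr) (fun t => ?_) (covRR hB)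
  have h2 : RR B t = fun ω => B (1 / 2 + max t (1 / 2)) ω.1 - B (1 / 2 + (1 / 2 - t)) ω.1 := rfl
  rw [h2, integral_sub ((pre1 hB).integrable_eval _) ((pre1 hB).integrable_eval _),
    (pre1 hB).integral_eval, (pre1 hB).integral_eval, sub_zero]

end

end ConsAux

open ConsAux

theorem pieceCONS : StmCONS.{u} := by
  intro Ω _ P B hB
  have hprob := hB.gbm.prob
  have hc : ∀ ω, Continuous fun t => B t ω := fun ω => (hB.nice ω).cont
  have hz : ∀ ω, B 0 ω = 0 := fun ω => (hB.nice ω).zero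
  have hh : ∀ ω c, ∃ t, c ≤ B t ω := fun ω => (hB.nice ω).hit
  have hcL : ∀ ω, Continuous fun t => LL B t ω := by
    intro ω
    unfold LL
    exact ((hc ω.1).comp (continuous_id.min continuous_const)).add
      ((hc ω.2).comp (continuous_id.sub continuous_const))
  have hcR : ∀ ω, Continuous fun t => RR B t ω := by
    intro ω
    unfold RR
    exact ((hc ω.1).comp (continuous_const.add (continuous_id.max continuous_const))).sub
      ((hc ω.1).comp (continuous_const.add (continuous_const.sub continuous_id)))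
  have hzL : ∀ ω, LL B 0 ω = 0 := by
    intro ω
    simp [LL, hz]
  have hzR : ∀ ω, RR B 0 ω = 0 := by
    intro ω
    simp [RR]
  refine ⟨LL B, RR B, ⟨⟨preL hB.gbm, ?_, hcL, hzL⟩, ?_⟩, ⟨⟨preR hB.gbm, ?_, hcR, hzR⟩, ?_⟩, ?_,
    ?_, ?_⟩
  · intro t
    exact ((hB.gbm.meas _).comp measurable_fst).add ((hB.gbm.meas _).comp measurable_snd)
  · intro ω
    refine ⟨hcL ω, hzL ω, fun c => ?_⟩
    obtain ⟨t, ht⟩ := hh ω.2 (c - B (1 / 2) ω.1)
    refine ⟨t + 1 / 2, ?_⟩
    change c ≤ B (min (t + 1 / 2) (1 / 2)) ω.1 + B (t + 1 / 2 - 1 / 2) ω.2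
    rw [min_eq_right (by exact le_add_self), add_tsub_cancel_right]
    linarith
  · intro t
    exact ((hB.gbm.meas _).comp measurable_fst).sub ((hB.gbm.meas _).comp measurable_fst)
  · intro ω
    refine ⟨hcR ω, hzR ω, fun c => ?_⟩
    obtain ⟨M, hM⟩ := (isCompact_Icc (a := (0 : ℝ≥0)) (b := 1)).bddAbove_image (hc ω.1).continuousOn
    obtain ⟨t, ht⟩ := hh ω.1 (max (c + B (1 / 2) ω.1) (M + 1))
    have h1 : 1 < t := by
      by_contra hle
      push Not at hle
      have := hM (mem_image_of_mem _ (⟨zero_le, hle⟩ : t ∈ Icc (0 : ℝ≥0) 1))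
      have h2 : M + 1 ≤ B t ω.1 := (le_max_right _ _).trans ht
      linarith
    have h12 : (1 / 2 : ℝ≥0) ≤ t := by
      refine le_trans ?_ h1.le
      rw [← NNReal.coe_le_coe]; push_cast; norm_num
    refine ⟨t - 1 / 2, ?_⟩
    change c ≤ B (1 / 2 + max (t - 1 / 2) (1 / 2)) ω.1 - B (1 / 2 + (1 / 2 - (t - 1 / 2))) ω.1
    have h3 : (1 / 2 : ℝ≥0) ≤ t - 1 / 2 := by
      rw [← NNReal.coe_le_coe, NNReal.coe_sub h12]
      have : (1 : ℝ) < t := by exact_mod_cast h1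
      push_cast
      linarith
    rw [max_eq_left h3, add_tsub_cancel_of_le h12, tsub_eq_zero_of_le h3, add_zero]
    have := (le_max_left _ _).trans ht
    linarith
  · exact IsGaussianProcess.indepFun_of_covariance_eq_zero (gaussLR hB.gbm)
      (fun t => (preL hB.gbm).aemeasurable t) (fun t => (preR hB.gbm).aemeasurable t)
      (covLR hB.gbm)
  · intro ω t ht
    have h1 : t ≤ 1 / 2 := by
      refine ht.trans ?_
      rw [← NNReal.coe_le_coe]; push_cast; norm_num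
    change B (min t (1 / 2)) ω.1 + B (t - 1 / 2) ω.2 = _
    rw [min_eq_left h1, tsub_eq_zero_of_le h1, hz, add_zero]
  · intro ω t ht
    have h1 : t ≤ 1 / 2 := by
      refine ht.trans ?_
      rw [← NNReal.coe_le_coe]; push_cast; norm_num
    change B (1 / 2 + max t (1 / 2)) ω.1 - B (1 / 2 + (1 / 2 - t)) ω.1 =
      B 1 ω.1 - B (1 - t) ω.1
    rw [max_eq_right h1]
    have h2 : (1 / 2 + 1 / 2 : ℝ≥0) = 1 := by
      rw [← NNReal.coe_inj]; push_cast; norm_num
    have h3 : (1 / 2 + (1 / 2 - t) : ℝ≥0) = 1 - t := by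
      have h4 : t ≤ 1 := h1.trans (by rw [← NNReal.coe_le_coe]; push_cast; norm_num)
      rw [← NNReal.coe_inj, NNReal.coe_add, NNReal.coe_sub h1, NNReal.coe_sub h4]
      push_cast
      ring
    rw [h2, h3]

end Pool.Agent.R977.SC
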