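import Pool.Agent.R974.Span.BM

open MeasureTheory ProbabilityTheory Filter Topology Set
open scoped ENNReal NNReal

/-! Definitions for the disproof of MP_8cdf0c_pr (infinitely many components of the Brownian
span set). See NOTES.md in this folder. `GBM`, `Sp`, `mx`, `dq` are from `Pool.Agent.R974.Span`. -/

namespace Pool.Agent.R977.SC

open Pool.Agent.R974.Span

/-! ### paths -/

/-- continuous path, started at `0`, unbounded above -/
structure Nice (w : ℝ≥0 → ℝ) : Prop where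
  cont : Continuous w
  zero : w 0 = 0
  hit : ∀ c : ℝ, ∃ t, c ≤ w t

/-- first time at which the path is `≥ 1` -/
noncomputable def T1 (w : ℝ≥0 → ℝ) : ℝ≥0 := sInf {t | 1 ≤ w t}

/-- the path after `T1`, shifted to start at `0` -/
noncomputable def sh (w : ℝ≥0 → ℝ) : ℝ≥0 → ℝ := fun t => w (T1 w + t) - w (T1 w)

/-- the path after the first passage at level `k` -/
noncomputable def it (k : ℕ) (w : ℝ≥0 → ℝ) : ℝ≥0 → ℝ := sh^[k] w

/-- duration of the block between the levels `k` and `k + 1` -/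
noncomputable def th (w : ℝ≥0 → ℝ) (k : ℕ) : ℝ≥0 := T1 (it k w)

/-- special start: `w < 1/2` on `[0,1/4]` and `w < -1/2` on `[1/4,3]` -/
def Spc (w : ℝ≥0 → ℝ) : Prop :=
  (∀ t : ℝ≥0, t ≤ 1 / 4 → w t < 1 / 2) ∧ ∀ t : ℝ≥0, 1 / 4 ≤ t → t ≤ 3 → w t < -(1 / 2)

/-- good configuration of block durations `θ`, `η` and special flags `S`, `S'` -/
def Good (a b : ℕ) (θ η : ℕ → ℝ≥0) (S S' : ℕ → Prop) : Prop :=
  (θ a ≤ 1 ∧ θ (a + 1) ≤ 1 / 8 ∧ S (a + 2)) ∧ (η b ≤ 1 ∧ η (b + 1) ≤ 1 / 8 ∧ S' (b + 2)) ∧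
  (∀ m ≤ b, 0 ≤ ∑ k ∈ Finset.range m, ((θ (a + 3 + k) : ℝ) - η (b - 1 - k))) ∧
  (∀ m ≤ a, 0 ≤ ∑ k ∈ Finset.range m, ((η (b + 3 + k) : ℝ) - θ (a - 1 - k)))

/-- `Good` for two paths -/
def GoodP (a b : ℕ) (L R : ℝ≥0 → ℝ) : Prop :=
  Good a b (th L) (th R) (fun k => Spc (it k L)) (fun k => Spc (it k R))

/-- the antidiagonal sets `{x + y = r}` cross the set `{c ≤ L x + R y}` in an unclean way,
at scale `δ` -/
def Unc (c δ : ℝ) (L R : ℝ≥0 → ℝ) : Prop :=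
  ∃ r : ℝ≥0, (∀ x y : ℝ≥0, x + y = r → L x + R y < c) ∧
    (∃ x y : ℝ≥0, x + y < r ∧ c ≤ L x + R y) ∧
    ∀ x y : ℝ≥0, (x : ℝ) + y + δ ≤ r → L x + R y < c

/-- `sup {L x + R y : x + y = q}` (countable supremum) -/
noncomputable def Gs (L R : ℝ≥0 → ℝ) (q : ℝ≥0) : ℝ :=
  ⨆ n : ℕ, (L (min (dq n) q) + R (q - min (dq n) q))

/-- `sup {L x + R y : x + y ≤ q}` (countable supremum) -/
noncomputable def Ms (L R : ℝ≥0 → ℝ) (q : ℝ≥0) : ℝ :=
  ⨆ p : ℕ × ℕ, (L (min (dq p.1) q) + R (min (dq p.2) (q - min (dq p.1) q)))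

/-- measurable version of: unclean at all scales, before time `1/4` -/
def VV (c : ℝ) (L R : ℝ≥0 → ℝ) : Prop :=
  ∀ m : ℕ, ∃ i j : ℕ, dq i ≤ dq j ∧ dq j ≤ dq i + 1 / ((m : ℝ≥0) + 1) ∧ dq j ≤ 1 / 4 ∧
    Ms L R (dq i) < c ∧ c ≤ Ms L R (dq j) ∧ Gs L R (dq j) < c

/-- the time reversed path on `[0,1]` -/
def rev (w : ℝ≥0 → ℝ) : ℝ≥0 → ℝ := fun y => w 1 - w (1 - y)

/-! ### processes -/

section
variable {Ω : Type*} [MeasurableSpace Ω]

/-- the path of a process -/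
def path (B : ℝ≥0 → Ω → ℝ) (ω : Ω) : ℝ≥0 → ℝ := fun t => B t ω

/-- a Brownian motion all of whose paths are nice -/
structure HBM (B : ℝ≥0 → Ω → ℝ) (P : Measure Ω) : Prop where
  gbm : GBM B P
  nice : ∀ ω, Nice (path B ω)

/-- block variables: duration of the block number `k` and special flag -/
noncomputable def Y (B : ℝ≥0 → Ω → ℝ) (k : ℕ) (ω : Ω) : ℝ≥0 × Prop :=
  (th (path B ω) k, Spc (it k (path B ω)))

end

end Pool.Agent.R977.SC
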