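import Pool.Agent.R977.SC.Stm

open MeasureTheory ProbabilityTheory Filter Topology Set
open scoped ENNReal NNReal

/-! Piece SC-FIN: the span set has infinitely many components (deterministic). -/

namespace Pool.Agent.R977.SC

open Pool.Agent.R974.Span

namespace FIN

lemma le_sup_dense {X ι : Type*} [TopologicalSpace X] {D : ι → X} (hD : DenseRange D) {h : X → ℝ}
    (hc : Continuous h) (hb : BddAbove (range h)) (x : X) : h x ≤ ⨆ n, h (D n) := by
  have hb' : BddAbove (range (fun n => h (D n))) := by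
    refine hb.mono ?_
    rintro _ ⟨n, rfl⟩
    exact ⟨D n, rfl⟩
  have h3 : IsClosed {z | h z ≤ ⨆ n, h (D n)} := isClosed_le hc continuous_const
  have h4 : range D ⊆ {z | h z ≤ ⨆ n, h (D n)} := by
    rintro _ ⟨n, rfl⟩
    exact le_ciSup hb' n
  have h5 := closure_minimal h4 h3
  rw [hD.closure_range] at h5
  exact h5 (mem_univ x)

section
variable {L R : ℝ≥0 → ℝ}

lemma bdd_Icc (hL : Continuous L) (q : ℝ≥0) : ∃ A : ℝ, ∀ s, s ≤ q → L s ≤ A := by
  obtain ⟨A, hA⟩ := (isCompact_Icc (a := (0:ℝ≥0)) (b := q)).bddAbove_image hL.continuousOn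
  exact ⟨A, fun s hs => hA ⟨s, ⟨zero_le, hs⟩, rfl⟩⟩

lemma le_Gs (hL : Continuous L) (hR : Continuous R) {x y q : ℝ≥0} (h : x + y = q) :
    L x + R y ≤ Gs L R q := by
  obtain ⟨A, hA⟩ := bdd_Icc hL q
  obtain ⟨B, hB⟩ := bdd_Icc hR q
  have hc : Continuous (fun s : ℝ≥0 => L (min s q) + R (q - min s q)) := by fun_prop
  have hb : BddAbove (range (fun s : ℝ≥0 => L (min s q) + R (q - min s q))) := by
    refine ⟨A + B, ?_⟩
    rintro _ ⟨s, rfl⟩
    exact add_le_add (hA _ (min_le_right _ _)) (hB _ tsub_le_self)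
  have h1 := le_sup_dense dense_dq hc hb x
  have h2 : min x q = x := min_eq_left (h ▸ le_self_add)
  have h3 : q - x = y := by rw [← h]; exact add_tsub_cancel_left x y
  simp only [h2, h3] at h1
  exact h1

lemma le_Ms (hL : Continuous L) (hR : Continuous R) {x y q : ℝ≥0} (h : x + y ≤ q) :
    L x + R y ≤ Ms L R q := by
  obtain ⟨A, hA⟩ := bdd_Icc hL q
  obtain ⟨B, hB⟩ := bdd_Icc hR q
  have hc : Continuous (fun p : ℝ≥0 × ℝ≥0 => L (min p.1 q) + R (min p.2 (q - min p.1 q))) := by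
    fun_prop
  have hb : BddAbove (range
      (fun p : ℝ≥0 × ℝ≥0 => L (min p.1 q) + R (min p.2 (q - min p.1 q)))) := by
    refine ⟨A + B, ?_⟩
    rintro _ ⟨s, rfl⟩
    exact add_le_add (hA _ (min_le_right _ _)) (hB _ ((min_le_right _ _).trans tsub_le_self))
  have h1 := le_sup_dense (dense_dq.prodMap dense_dq) hc hb (x, y)
  have h2 : min x q = x := min_eq_left (le_self_add.trans h)
  have h3 : min y (q - x) = y := min_eq_left (le_tsub_of_add_le_left h)
  simp only [h2, h3] at h1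
  exact h1

lemma exists_of_le_Ms (hL : Continuous L) (hR : Continuous R) {q : ℝ≥0} {c : ℝ}
    (h : c ≤ Ms L R q) : ∃ x y : ℝ≥0, x + y ≤ q ∧ c ≤ L x + R y := by
  have hcomp : IsCompact {p : ℝ≥0 × ℝ≥0 | p.1 + p.2 ≤ q} := by
    have h1 : IsCompact (Icc (0:ℝ≥0) q ×ˢ Icc (0:ℝ≥0) q) := isCompact_Icc.prod isCompact_Icc
    refine h1.of_isClosed_subset ?_ ?_
    · exact isClosed_le (by fun_prop) continuous_const
    · rintro p hp
      have hp' : p.1 + p.2 ≤ q := hp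
      exact ⟨⟨zero_le, le_self_add.trans hp'⟩, ⟨zero_le, le_add_self.trans hp'⟩⟩
  have hne : ({p : ℝ≥0 × ℝ≥0 | p.1 + p.2 ≤ q}).Nonempty := ⟨(0, 0), by simp⟩
  obtain ⟨p, hp, hmax⟩ := hcomp.exists_isMaxOn hne
    (f := fun p : ℝ≥0 × ℝ≥0 => L p.1 + R p.2) (by fun_prop)
  refine ⟨p.1, p.2, hp, h.trans ?_⟩
  refine ciSup_le fun z => ?_
  have hz : (min (dq z.1) q, min (dq z.2) (q - min (dq z.1) q)) ∈
      {p : ℝ≥0 × ℝ≥0 | p.1 + p.2 ≤ q} := by
    change min (dq z.1) q + min (dq z.2) (q - min (dq z.1) q) ≤ q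
    calc min (dq z.1) q + min (dq z.2) (q - min (dq z.1) q)
        ≤ min (dq z.1) q + (q - min (dq z.1) q) := by gcongr; exact min_le_right _ _
      _ = q := add_tsub_cancel_of_le (min_le_right _ _)
  exact hmax hz

lemma exists_eq_of_le_Ms (hL : Continuous L) (hR : Continuous R) {q : ℝ≥0} {c : ℝ}
    (h0 : L 0 + R 0 ≤ c) (h : c ≤ Ms L R q) : ∃ x y : ℝ≥0, x + y ≤ q ∧ L x + R y = c := by
  obtain ⟨x, y, hxy, hc⟩ := exists_of_le_Ms hL hR h
  have hg : Continuous (fun l : ℝ≥0 => L (l * x) + R (l * y)) := by fun_prop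
  have hmem : c ∈ Icc ((fun l : ℝ≥0 => L (l * x) + R (l * y)) 0)
      ((fun l : ℝ≥0 => L (l * x) + R (l * y)) 1) := ⟨by simpa using h0, by simpa using hc⟩
  obtain ⟨l, ⟨hl0, hl1⟩, hl⟩ := intermediate_value_Icc (zero_le : (0:ℝ≥0) ≤ 1)
    hg.continuousOn hmem
  refine ⟨l * x, l * y, ?_, hl⟩
  calc l * x + l * y = l * (x + y) := by ring
    _ ≤ 1 * q := by gcongr
    _ = q := one_mul q

end

lemma mem_Sp_of {f : ℝ≥0 → ℝ} {x y : ℝ≥0} (hxy : x + y ≤ 1) (h : f x + rev f y = f 1) :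
    (1:ℝ) - ((x:ℝ) + y) ∈ Sp f := by
  have hy : y ≤ 1 := le_add_self.trans hxy
  refine ⟨x, 1 - y, le_tsub_of_add_le_right hxy, tsub_le_self, ?_, ?_⟩
  · unfold rev at h; linarith
  · rw [NNReal.coe_sub hy]; push_cast; ring

lemma of_mem_Sp {f : ℝ≥0 → ℝ} {u : ℝ} (hu : u ∈ Sp f) :
    ∃ x y : ℝ≥0, x + y ≤ 1 ∧ u = 1 - ((x:ℝ) + y) ∧ f x + rev f y = f 1 := by
  obtain ⟨s, t, hst, ht, hft, rfl⟩ := hu
  refine ⟨s, 1 - t, ?_, ?_, ?_⟩
  · calc s + (1 - t) ≤ t + (1 - t) := by gcongr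
      _ = 1 := add_tsub_cancel_of_le ht
  · rw [NNReal.coe_sub ht]; push_cast; ring
  · unfold rev
    have : 1 - (1 - t) = t := tsub_tsub_cancel_of_le ht
    rw [this, hft]; ring

/-- a set accumulating at `u` from the left, with gaps accumulating at `u` from the left, is not
a finite union of order connected sets -/
lemma key {K : Set ℝ} {u : ℝ} (hv : ∀ ε : ℝ, 0 < ε → ∃ v, v ∉ K ∧ u - ε < v ∧ v < u)
    (hw : ∀ ε : ℝ, 0 < ε → ∃ w, w ∈ K ∧ u - ε < w ∧ w < u) {ι : Type*} [Finite ι]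
    (A : ι → Set ℝ) (hA : ∀ i, A i ⊆ K) (hconn : ∀ i, (A i).OrdConnected) (hK : K ⊆ ⋃ i, A i) :
    False := by
  have h1 : ∀ i, ∀ᶠ w in 𝓝[<] u, w ∉ A i := by
    intro i
    by_cases h : ∃ w0, w0 < u ∧ w0 ∈ A i
    · obtain ⟨w0, hw0, hw0A⟩ := h
      obtain ⟨v, hvK, hv1, hv2⟩ := hv (u - w0) (by linarith)
      filter_upwards [Ioo_mem_nhdsLT hv2] with w hwv hwA
      exact hvK (hA i ((hconn i).out hw0A hwA ⟨by linarith, hwv.1.le⟩))
    · filter_upwards [self_mem_nhdsWithin] with w hwu hwA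
      exact h ⟨w, hwu, hwA⟩
  have h2 : ∀ᶠ w in 𝓝[<] u, ∀ i, w ∉ A i := eventually_all.2 h1
  obtain ⟨l, hl, hsub⟩ := mem_nhdsLT_iff_exists_Ioo_subset.1 h2
  obtain ⟨w, hwK, hw1, hw2⟩ := hw (u - l) (by have : l < u := hl; linarith)
  obtain ⟨i, hi⟩ := mem_iUnion.1 (hK hwK)
  exact hsub ⟨by linarith, hw2⟩ i hi

end FIN

open FIN

theorem pieceFIN : StmFIN := by
  intro f hf h0 hV hreg
  have hR : Continuous (rev f) := by unfold rev; fun_prop
  have hR0 : f 0 + rev f 0 = 0 := by simp [rev, h0]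
  have hcomp := isCompact_Sp hf
  have hne : (Sp f).Nonempty := ⟨0, 0, 0, le_rfl, zero_le, rfl, by simp⟩
  set u : ℝ := sSup (Sp f) with hu
  have huK : u ∈ Sp f := hcomp.sSup_mem hne
  have hub : ∀ w ∈ Sp f, w ≤ u := fun w hw => le_csSup hcomp.bddAbove hw
  have hcpos : f 0 + rev f 0 ≤ f 1 := by
    obtain ⟨i, j, h1, h2, h3, h4, h5, h6⟩ := hV 0
    have h7 := le_Ms hf hR (x := 0) (y := 0) (q := dq i) (by simp)
    linarith
  have hv : ∀ ε : ℝ, 0 < ε → ∃ v, v ∉ Sp f ∧ u - ε < v ∧ v < u := by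
    intro ε hε
    obtain ⟨m, hm⟩ := exists_nat_one_div_lt hε
    obtain ⟨i, j, h1, h2, h3, h4, h5, h6⟩ := hV m
    have h2' : (dq j : ℝ) ≤ dq i + 1 / ((m : ℝ) + 1) := by exact_mod_cast h2
    have h3' : (dq j : ℝ≥0) ≤ 1 := h3.trans (by
      rw [div_le_iff₀ (by norm_num)]; norm_num)
    refine ⟨1 - (dq j : ℝ), ?_, ?_, ?_⟩
    · intro hmem
      obtain ⟨x, y, hxy, he, hfx⟩ := of_mem_Sp hmem
      have hx : x + y = dq j := by
        apply NNReal.eq
        push_cast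
        linarith
      have := le_Gs hf hR hx
      linarith
    · obtain ⟨x, y, hxy, he, hfx⟩ := of_mem_Sp huK
      have h7 : ¬ x + y ≤ dq i := by
        intro hcon
        have := le_Ms hf hR hcon
        linarith
      have h8 : dq i < x + y := not_le.1 h7
      have h9 : (dq i : ℝ) < (x : ℝ) + y := by exact_mod_cast h8
      linarith
    · obtain ⟨x, y, hxy, hE⟩ := exists_eq_of_le_Ms hf hR hcpos h5
      have h7 : x + y ≠ dq j := by
        intro hcon
        have := le_Gs hf hR hcon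
        linarith
      have h8 : x + y < dq j := lt_of_le_of_ne hxy h7
      have h9 : (x : ℝ) + y < dq j := by exact_mod_cast h8
      have h10 := hub _ (mem_Sp_of (hxy.trans h3') hE)
      linarith
  have hw : ∀ ε : ℝ, 0 < ε → ∃ w, w ∈ Sp f ∧ u - ε < w ∧ w < u := by
    intro ε hε
    have hucl : u ∈ closure (interior (Sp f)) := hreg ▸ huK
    obtain ⟨w, hwi, hwd⟩ := Metric.mem_closure_iff.1 hucl ε hε
    have hwK : w ∈ Sp f := interior_subset hwi
    have hwu := hub w hwK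
    rw [Real.dist_eq, abs_lt] at hwd
    refine ⟨w, hwK, by linarith, lt_of_le_of_ne hwu ?_⟩
    intro hEq
    rw [hEq] at hwi
    obtain ⟨δ, hδ, hball⟩ := Metric.mem_nhds_iff.1 (mem_interior_iff_mem_nhds.1 hwi)
    have h7 : u + δ / 2 ∈ Sp f := hball (by
      rw [Metric.mem_ball, Real.dist_eq, abs_lt]
      constructor <;> linarith)
    have := hub _ h7
    linarith
  refine ⟨?_, ?_⟩
  · rw [← not_finite_iff_infinite]
    intro hfin
    refine key (ι := ConnectedComponents (Sp f)) hv hw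
      (fun c => Subtype.val '' ((ConnectedComponents.mk : Sp f → ConnectedComponents (Sp f)) ⁻¹' {c}))
      ?_ ?_ ?_
    · rintro c _ ⟨x, _, rfl⟩
      exact x.2
    · intro c
      obtain ⟨x, rfl⟩ := ConnectedComponents.surjective_coe c
      have h1 : ((ConnectedComponents.mk : Sp f → ConnectedComponents (Sp f)) ⁻¹' {ConnectedComponents.mk x}) =
          connectedComponent x := connectedComponents_preimage_singleton
      rw [h1]
      exact (isPreconnected_connectedComponent.image _ continuous_subtype_val.continuousOn).ordConnected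
    · intro w hw
      rw [mem_iUnion]
      exact ⟨ConnectedComponents.mk ⟨w, hw⟩, ⟨w, hw⟩, rfl, rfl⟩
  · rintro ⟨F, hF⟩
    refine key (ι := F) hv hw (fun p => Icc p.1.1 p.1.2) ?_ ?_ ?_
    · intro p
      rw [hF]
      exact subset_biUnion_of_mem (u := fun p : ℝ × ℝ => Icc p.1 p.2) p.2
    · intro p
      exact ordConnected_Icc
    · intro w hw
      rw [hF] at hw
      obtain ⟨p, hp, hw⟩ := mem_iUnion₂.1 hw
      exact mem_iUnion.2 ⟨⟨p, hp⟩, hw⟩

end Pool.Agent.R977.SC
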