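import Pool.Agent.R977.SC.A
import Pool.Agent.R977.SpanReg

open MeasureTheory ProbabilityTheory Filter Topology Set
open scoped ENNReal NNReal

namespace Pool.Agent.R977.SC

open Pool.Agent.R974.Span

universe u

lemma Ms_congrF {L L' R R' : ℝ≥0 → ℝ} (hL : ∀ t, t ≤ 1 / 4 → L t = L' t)
    (hR : ∀ t, t ≤ 1 / 4 → R t = R' t) {q : ℝ≥0} (hq : q ≤ 1 / 4) : Ms L R q = Ms L' R' q := by
  unfold Ms
  congr 1
  funext p
  rw [hL _ ((min_le_right _ _).trans hq), hR _ ((min_le_right _ _).trans (tsub_le_self.trans hq))]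

lemma Gs_congrF {L L' R R' : ℝ≥0 → ℝ} (hL : ∀ t, t ≤ 1 / 4 → L t = L' t)
    (hR : ∀ t, t ≤ 1 / 4 → R t = R' t) {q : ℝ≥0} (hq : q ≤ 1 / 4) : Gs L R q = Gs L' R' q := by
  unfold Gs
  congr 1
  funext p
  rw [hL _ ((min_le_right _ _).trans hq), hR _ (tsub_le_self.trans hq)]

lemma VV_congrF {c : ℝ} {L L' R R' : ℝ≥0 → ℝ} (hL : ∀ t, t ≤ 1 / 4 → L t = L' t)
    (hR : ∀ t, t ≤ 1 / 4 → R t = R' t) (h : VV c L R) : VV c L' R' := by
  intro m
  obtain ⟨i, j, h1, h2, h3, h4, h5, h6⟩ := h m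
  refine ⟨i, j, h1, h2, h3, ?_, ?_, ?_⟩
  · rwa [← Ms_congrF hL hR (h1.trans h3)]
  · rwa [← Ms_congrF hL hR h3]
  · rwa [← Gs_congrF hL hR h3]

theorem level_positive (hA : StmA.{u}) (hSMALL : StmSMALL.{u}) (hCONS : StmCONS.{u})
    (hLEVEL : StmLEVEL.{u}) (hVDET : StmVDET) (Ω : Type u) [MeasurableSpace Ω] (P : Measure Ω)
    (B : ℝ≥0 → Ω → ℝ) (hB : HBM B P) :
    MeasurableSet {ω | VV (B 1 ω) (path B ω) (rev (path B ω))} ∧
      P {ω | VV (B 1 ω) (path B ω) (rev (path B ω))} ≠ 0 := by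
  have := hB.prob
  obtain ⟨L, R, hL, hR, hind, hLB, hRB⟩ := hCONS Ω P B hB
  obtain ⟨c0, hc0, hc⟩ := hA (Ω × Ω) (P.prod P) L R hL hR hind
  obtain ⟨c1, hc1, hsmall⟩ := hSMALL (Ω × Ω) (P.prod P) L hL (c0 / 2)
    (ENNReal.div_pos hc0 (by norm_num)).ne'
  refine hLEVEL Ω P B hB.gbm c1 hc1 ?_
  intro c hc0' hcc1 hzero
  obtain ⟨G, hGm, hGP, hGU⟩ := hc c hc0'
  have hbad := hsmall c hc0' hcc1
  set bad : Set (Ω × Ω) := {ω | ¬ ∃ x : ℝ≥0, x ≤ 1 / 8 ∧ c ≤ L x ω} with hbaddef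
  have hsub : G ⊆ ({ω | VV c (path B ω) (rev (path B ω))} ×ˢ univ) ∪ bad := by
    intro ω hω
    by_cases hb : ω ∈ bad
    · exact Or.inr hb
    · left
      rw [hbaddef] at hb
      simp only [Set.mem_ofPred_eq, not_not] at hb
      refine ⟨?_, mem_univ _⟩
      have h1 : VV c (path L ω) (path R ω) := hVDET _ _ (hL.nice ω).cont (hR.nice ω).cont
        (hL.nice ω).zero (hR.nice ω).zero c hc0' (hGU ω hω) hb
      exact VV_congrF (L' := path B ω.1) (R' := rev (path B ω.1)) (fun t ht => hLB ω t ht)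
        (fun t ht => hRB ω t ht) h1
  have h1 : (P.prod P) G ≤ 0 + c0 / 2 := by
    refine (measure_mono hsub).trans ((measure_union_le _ _).trans ?_)
    gcongr
    · rw [Measure.prod_prod, hzero, zero_mul]
  rw [zero_add] at h1
  have h2 : c0 ≤ c0 / 2 := hGP.trans h1
  have hlt : c0 ≠ ∞ := ne_top_of_le_ne_top (measure_ne_top (P.prod P) G) hGP
  exact absurd h2 (not_le.2 (ENNReal.half_lt_self hc0 hlt))

theorem main (hHIT : StmHIT.{u}) (hA : StmA.{u}) (hSMALL : StmSMALL.{u}) (hCONS : StmCONS.{u})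
    (hLEVEL : StmLEVEL.{u}) (hVDET : StmVDET) (hFIN : StmFIN) {Ω : Type u} [MeasurableSpace Ω]
    {P : Measure Ω} {B : ℝ≥0 → Ω → ℝ} (hB : IsBrownianReal B P) :
    ∃ A : Set Ω, MeasurableSet A ∧ 0 < P A ∧ ∀ ω ∈ A,
      Infinite (ConnectedComponents (Sp fun t => B t ω)) ∧
      ¬ ∃ F : Finset (ℝ × ℝ), Sp (fun t => B t ω) = ⋃ p ∈ F, Icc p.1 p.2 := by
  obtain ⟨B1, hB1, hBB1⟩ := good_version hB
  obtain ⟨B2, hB2, hBB2⟩ := hHIT Ω P B1 hB1
  obtain ⟨hm, hpos⟩ := level_positive hA hSMALL hCONS hLEVEL hVDET Ω P B2 hB2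
  have hae : ∀ᵐ ω ∂P, (∀ t, B2 t ω = B t ω) ∧
      Sp (fun t => B2 t ω) = closure (interior (Sp fun t => B2 t ω)) := by
    filter_upwards [hBB1, hBB2, SpanReg.ae_regular hB2.gbm] with ω h1 h2 h3
    exact ⟨fun t => (h2 t).trans (h1 t), h3⟩
  set N : Set Ω := {ω | ¬ ((∀ t, B2 t ω = B t ω) ∧
      Sp (fun t => B2 t ω) = closure (interior (Sp fun t => B2 t ω)))} with hN
  have hN0 : P N = 0 := hae
  refine ⟨{ω | VV (B2 1 ω) (path B2 ω) (rev (path B2 ω))} \ toMeasurable P N,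
    hm.diff (measurableSet_toMeasurable _ _), ?_, ?_⟩
  · rw [measure_sdiff_null (by rw [measure_toMeasurable, hN0])]
    exact pos_iff_ne_zero.2 hpos
  · rintro ω ⟨h1, h2⟩
    have h3 : ω ∉ N := fun h => h2 (subset_toMeasurable P N h)
    rw [hN] at h3
    simp only [Set.mem_ofPred_eq, not_not] at h3
    have h4 := hFIN (path B2 ω) (hB2.nice ω).cont (hB2.nice ω).zero h1 h3.2
    have h5 : (fun t => B t ω) = path B2 ω := by
      funext t
      exact (h3.1 t).symm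
    rw [h5]
    exact h4

end Pool.Agent.R977.SC
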