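import Pool.Agent.R977.SC.Stm

open MeasureTheory ProbabilityTheory Filter Topology Set
open scoped ENNReal NNReal

/-! SC-GEO and SC-DISJ (deterministic geometry of first passage corners). -/

namespace Pool.Agent.R977.SC

open Pool.Agent.R974.Span

/-- first passage time at level `j` -/
noncomputable def TT (w : ℝ≥0 → ℝ) (j : ℕ) : ℝ≥0 := ∑ i ∈ Finset.range j, th w i

theorem TT_zero (w : ℝ≥0 → ℝ) : TT w 0 = 0 := by simp [TT]

theorem TT_succ (w : ℝ≥0 → ℝ) (j : ℕ) : TT w (j + 1) = TT w j + th w j := by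
  simp [TT, Finset.sum_range_succ]

theorem TT_succR (w : ℝ≥0 → ℝ) (j : ℕ) : (TT w (j + 1) : ℝ) = TT w j + th w j := by
  rw [TT_succ]; push_cast; rfl

theorem TT_mono (w : ℝ≥0 → ℝ) : Monotone (TT w) := by
  apply monotone_nat_of_le_succ
  intro n
  rw [TT_succ]
  exact le_self_add

theorem it_succ (w : ℝ≥0 → ℝ) (k : ℕ) : it (k + 1) w = sh (it k w) := by
  unfold it
  rw [Function.iterate_succ_apply']

theorem nice_it (h1 : StmPATH) {w : ℝ≥0 → ℝ} (hw : Nice w) (k : ℕ) : Nice (it k w) := by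
  induction k with
  | zero => exact hw
  | succ k ih => rw [it_succ]; exact (h1 _ ih).1

theorem it_apply (h1 : StmPATH) {w : ℝ≥0 → ℝ} (hw : Nice w) (k : ℕ) (t : ℝ≥0) :
    it k w t = w (TT w k + t) - k := by
  induction k generalizing t with
  | zero => simp [TT_zero, it]
  | succ k ih =>
    rw [it_succ]
    unfold sh
    have h2 := (h1 _ (nice_it h1 hw k)).2.1
    rw [h2, ih, TT_succ]
    unfold th
    push_cast
    rw [add_assoc]
    ring

theorem at_level (h1 : StmPATH) {w : ℝ≥0 → ℝ} (hw : Nice w) (k : ℕ) : w (TT w k) = k := by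
  have h := it_apply h1 hw k 0
  rw [(nice_it h1 hw k).zero, add_zero] at h
  linarith

theorem lt_level (h1 : StmPATH) {w : ℝ≥0 → ℝ} (hw : Nice w) (j : ℕ) (t : ℝ≥0)
    (ht : t < TT w j) : w t < j := by
  induction j with
  | zero => rw [TT_zero] at ht; exact absurd ht (not_lt.2 zero_le)
  | succ j ih =>
    push_cast
    rcases lt_or_ge t (TT w j) with h | h
    · linarith [ih h]
    · obtain ⟨u, rfl⟩ := exists_add_of_le h
      rw [TT_succ] at ht
      have hu : u < T1 (it j w) := by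
        have := lt_of_add_lt_add_left ht
        exact this
      have h2 := (h1 _ (nice_it h1 hw j)).2.2.2.1 u hu
      rw [it_apply h1 hw] at h2
      linarith

theorem le_of_level (h1 : StmPATH) {w : ℝ≥0 → ℝ} (hw : Nice w) (j : ℕ) (t : ℝ≥0)
    (ht : (j : ℝ) ≤ w t) : TT w j ≤ t := by
  by_contra h
  exact absurd (lt_level h1 hw j t (not_le.1 h)) (not_lt.2 ht)

theorem spc_long (h1 : StmPATH) {w : ℝ≥0 → ℝ} (hw : Nice w) (hs : Spc w) : 3 < T1 w := by
  by_contra h
  rw [not_lt] at h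
  have h2 := (h1 w hw).2.1
  rcases le_total (T1 w) (1 / 4) with h3 | h3
  · have := hs.1 _ h3
    linarith
  · have := hs.2 _ h3 h
    linarith

theorem good_symm {a b : ℕ} {L R : ℝ≥0 → ℝ} (h : GoodP a b L R) : GoodP b a R L :=
  ⟨h.2.1, h.1, h.2.2.2, h.2.2.1⟩

theorem sum_up (w : ℝ≥0 → ℝ) (c m : ℕ) : (TT w (c + m) : ℝ) = TT w c +
    ∑ k ∈ Finset.range m, (th w (c + k) : ℝ) := by
  induction m with
  | zero => simp
  | succ m ih => rw [← add_assoc, TT_succR, ih, Finset.sum_range_succ]; ring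

theorem sum_down (w : ℝ≥0 → ℝ) (b m : ℕ) (hm : m ≤ b) : (TT w b : ℝ) = TT w (b - m) +
    ∑ k ∈ Finset.range m, (th w (b - 1 - k) : ℝ) := by
  induction m with
  | zero => simp
  | succ m ih =>
    rw [ih (by omega), Finset.sum_range_succ]
    have e : b - m = (b - (m + 1)) + 1 := by omega
    have e' : b - 1 - m = b - (m + 1) := by omega
    rw [e, TT_succR, e']
    ring

theorem g0 (h1 : StmPATH) {L R : ℝ≥0 → ℝ} (hL : Nice L) {a b : ℕ}
    (hG : GoodP a b L R) (m : ℕ) (hm : m ≤ b) :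
    (TT L (a + 2) : ℝ) + TT R (b + 2) + 1 / 2 < TT L (a + 3 + m) + TT R (b - m) := by
  obtain ⟨⟨-, -, hS⟩, ⟨hb, hb1, -⟩, hsum, -⟩ := hG
  have hlong : (3 : ℝ) < th L (a + 2) := by
    have := spc_long h1 (nice_it h1 hL (a + 2)) hS
    exact_mod_cast this
  have hb' : (th R b : ℝ) ≤ 1 := by exact_mod_cast hb
  have hb1' : (th R (b + 1) : ℝ) ≤ 1 / 8 := by
    have : ((th R (b + 1) : ℝ≥0) : ℝ) ≤ ((1 / 8 : ℝ≥0) : ℝ) := by exact_mod_cast hb1
    simpa using this
  have h2 := hsum m hm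
  rw [Finset.sum_sub_distrib] at h2
  rw [sum_up L (a + 3) m]
  have h3 := sum_down R b m hm
  have h4 : (TT L (a + 3) : ℝ) = TT L (a + 2) + th L (a + 2) := TT_succR L (a + 2)
  have h5 : (TT R (b + 2) : ℝ) = TT R (b + 1) + th R (b + 1) := TT_succR R (b + 1)
  have h6 : (TT R (b + 1) : ℝ) = TT R b + th R b := TT_succR R b
  linarith

theorem g1 (h1 : StmPATH) {L R : ℝ≥0 → ℝ} (hL : Nice L) (hR : Nice R) {a b : ℕ}
    (hG : GoodP a b L R) {x y : ℝ≥0} (hxy : (a : ℝ) + b + 4 ≤ L x + R y)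
    (hs : (x : ℝ) + y ≤ TT L (a + 2) + TT R (b + 2) + 1 / 2) : x < TT L (a + 3) := by
  have key : ∀ d ≤ b, x < TT L (a + 3 + (b - d)) := by
    intro d
    induction d with
    | zero =>
      intro _
      by_contra h
      rw [not_lt] at h
      have h2 := g0 h1 hL hG b le_rfl
      rw [Nat.sub_self, TT_zero] at h2
      have h3 : (TT L (a + 3 + b) : ℝ) ≤ x := by exact_mod_cast h
      have h4 : (0 : ℝ) ≤ y := y.2
      push_cast at h2
      linarith
    | succ d ih =>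
      intro hd
      have hx := ih (by omega)
      by_contra h
      rw [not_lt] at h
      have e : a + 3 + (b - d) = a + 3 + (b - (d + 1)) + 1 := by omega
      have h2 := lt_level h1 hL _ _ hx
      obtain ⟨m, hm⟩ : ∃ m, b - (d + 1) = m := ⟨_, rfl⟩
      have hmb : m ≤ b := by omega
      have hbd : b - d = m + 1 := by omega
      rw [hm] at h
      rw [hbd] at h2
      push_cast at h2
      have h5 : (((b - m : ℕ) : ℝ)) ≤ R y := by
        rw [Nat.cast_sub hmb]
        linarith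
      have h6 := le_of_level h1 hR _ _ h5
      have h7 := g0 h1 hL hG m hmb
      have h8 : (TT L (a + 3 + m) : ℝ) ≤ x := by exact_mod_cast h
      have h9 : (TT R (b - m) : ℝ) ≤ y := by exact_mod_cast h6
      linarith
  have := key b le_rfl
  simpa using this

theorem g1' (h1 : StmPATH) {L R : ℝ≥0 → ℝ} (hL : Nice L) (hR : Nice R) {a b : ℕ}
    (hG : GoodP a b L R) {x y : ℝ≥0} (hxy : (a : ℝ) + b + 4 ≤ L x + R y)
    (hs : (x : ℝ) + y ≤ TT L (a + 2) + TT R (b + 2) + 1 / 2) : y < TT R (b + 3) :=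
  g1 h1 hR hL (good_symm hG) (by linarith) (by linarith)

theorem g2 (h1 : StmPATH) {L R : ℝ≥0 → ℝ} (hL : Nice L) (hR : Nice R) {a b : ℕ}
    (hG : GoodP a b L R) {x y : ℝ≥0} (hxy : (a : ℝ) + b + 4 ≤ L x + R y)
    (hs : (x : ℝ) + y ≤ TT L (a + 2) + TT R (b + 2) + 1 / 2) :
    (TT L (a + 2) : ℝ) ≤ x + 1 / 8 := by
  have hy := g1' h1 hL hR hG hxy hs
  have h2 := lt_level h1 hR _ _ hy
  push_cast at h2
  have h3 : (((a + 1 : ℕ)) : ℝ) ≤ L x := by push_cast; linarith
  have h4 := le_of_level h1 hL _ _ h3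
  have h5 : (TT L (a + 1) : ℝ) ≤ x := by exact_mod_cast h4
  have h6 : (TT L (a + 2) : ℝ) = TT L (a + 1) + th L (a + 1) := TT_succR L (a + 1)
  have h7 : ((th L (a + 1) : ℝ≥0) : ℝ) ≤ ((1 / 8 : ℝ≥0) : ℝ) := by exact_mod_cast hG.1.2.1
  have h8 : ((1 / 8 : ℝ≥0) : ℝ) = 1 / 8 := by simp
  rw [h8] at h7
  linarith

theorem g2' (h1 : StmPATH) {L R : ℝ≥0 → ℝ} (hL : Nice L) (hR : Nice R) {a b : ℕ}
    (hG : GoodP a b L R) {x y : ℝ≥0} (hxy : (a : ℝ) + b + 4 ≤ L x + R y)
    (hs : (x : ℝ) + y ≤ TT L (a + 2) + TT R (b + 2) + 1 / 2) :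
    (TT R (b + 2) : ℝ) ≤ y + 1 / 8 :=
  g2 h1 hR hL (good_symm hG) (by linarith) (by linarith)

/-- no zero on the antidiagonal, if the first coordinate is large -/
theorem g3 (h1 : StmPATH) {L R : ℝ≥0 → ℝ} (hL : Nice L) (hR : Nice R) {a b : ℕ}
    (hG : GoodP a b L R) {x y : ℝ≥0}
    (hs : (x : ℝ) + y = TT L (a + 2) + TT R (b + 2) + 1 / 2)
    (hx : (TT L (a + 2) : ℝ) + 1 / 4 ≤ x) (hy : (TT R (b + 2) : ℝ) ≤ y + 1 / 8) :
    L x + R y < (a : ℝ) + b + 4 := by
  have hxle : TT L (a + 2) ≤ x := by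
    have : (TT L (a + 2) : ℝ) ≤ x := by linarith
    exact_mod_cast this
  obtain ⟨u, rfl⟩ := exists_add_of_le hxle
  have h2 := it_apply h1 hL (a + 2) u
  push_cast at hs hx h2
  have h4 : ((1 / 4 : ℝ≥0) : ℝ) = 1 / 4 := by simp
  have hu1 : (1 / 4 : ℝ≥0) ≤ u := by
    have : ((1 / 4 : ℝ≥0) : ℝ) ≤ (u : ℝ) := by rw [h4]; linarith
    exact_mod_cast this
  have hu2 : u ≤ 3 := by
    have : (u : ℝ) ≤ 3 := by linarith
    exact_mod_cast this
  have h5 : it (a + 2) L u < -(1 / 2) := hG.1.2.2.2 u hu1 hu2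
  have h6 : L (TT L (a + 2) + u) < (a : ℝ) + 2 - 1 / 2 := by linarith
  have h7 : R y < (b : ℝ) + 2 + 1 / 2 := by
    rcases lt_or_ge y (TT R (b + 2)) with h | h
    · have := lt_level h1 hR _ _ h
      push_cast at this
      linarith
    · obtain ⟨v, rfl⟩ := exists_add_of_le h
      have h8 := it_apply h1 hR (b + 2) v
      push_cast at hs hy h8
      have hv : v ≤ 1 / 4 := by
        have : (v : ℝ) ≤ ((1 / 4 : ℝ≥0) : ℝ) := by rw [h4]; linarith
        exact_mod_cast this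
      have h9 : it (b + 2) R v < 1 / 2 := hG.2.1.2.2.1 v hv
      linarith
  linarith

theorem pieceGEO (h1 : StmPATH) : StmGEO := by
  intro L R hL hR a b hG
  refine ⟨TT L (a + 2) + TT R (b + 2) + 1 / 2, ?_, ?_, ?_⟩
  · intro x y hxy
    have hs : (x : ℝ) + y = TT L (a + 2) + TT R (b + 2) + 1 / 2 := by
      have := congrArg (fun z : ℝ≥0 => (z : ℝ)) hxy
      simpa using this
    by_contra h
    rw [not_lt] at h
    have hx := g2 h1 hL hR hG h hs.le
    have hy := g2' h1 hL hR hG h hs.le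
    rcases le_total ((TT L (a + 2) : ℝ) + 1 / 4) x with h2 | h2
    · exact absurd (g3 h1 hL hR hG hs h2 hy) (not_lt.2 h)
    · have h3 := g3 h1 hR hL (good_symm hG) (x := y) (y := x) (by linarith) (by linarith) hx
      linarith
  · refine ⟨TT L (a + 2), TT R (b + 2), ?_, ?_⟩
    · have : (0 : ℝ≥0) < 1 / 2 := by simp
      exact lt_add_of_pos_right _ this
    · rw [at_level h1 hL, at_level h1 hR]
      push_cast
      linarith
  · intro x y hxy
    push_cast at hxy
    by_contra h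
    rw [not_lt] at h
    have hs : (x : ℝ) + y ≤ TT L (a + 2) + TT R (b + 2) + 1 / 2 := by linarith
    have hx := g2 h1 hL hR hG h hs
    have hy := g2' h1 hL hR hG h hs
    linarith

theorem disj_aux (h1 : StmPATH) {L R : ℝ≥0 → ℝ} (hL : Nice L) (hR : Nice R)
    {a b a' b' : ℕ} (hab : a + b = a' + b') (hG : GoodP a b L R) (hG' : GoodP a' b' L R) :
    ¬ a < a' := by
  intro hlt
  have hN : (a : ℝ) + b = a' + b' := by exact_mod_cast hab
  have e1 : (TT L (a + 2) : ℝ) + TT R (b + 2) + 1 / 2 < TT L (a' + 2) + TT R (b' + 2) := by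
    by_contra h
    rw [not_lt] at h
    have h2 := g1 h1 hL hR hG (x := TT L (a' + 2)) (y := TT R (b' + 2))
      (by rw [at_level h1 hL, at_level h1 hR]; push_cast; linarith) h
    exact absurd (TT_mono L (by omega : a + 3 ≤ a' + 2)) (not_le.2 h2)
  have e2 : (TT L (a' + 2) : ℝ) + TT R (b' + 2) + 1 / 2 < TT L (a + 2) + TT R (b + 2) := by
    by_contra h
    rw [not_lt] at h
    have h2 := g1' h1 hL hR hG' (x := TT L (a + 2)) (y := TT R (b + 2))
      (by rw [at_level h1 hL, at_level h1 hR]; push_cast; linarith) h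
    exact absurd (TT_mono R (by omega : b' + 3 ≤ b + 2)) (not_le.2 h2)
  linarith

theorem pieceDISJ (h1 : StmPATH) : StmDISJ := by
  intro L R hL hR a b a' b' hab hG hG'
  have h2 := disj_aux h1 hL hR hab hG hG'
  have h3 := disj_aux h1 hL hR hab.symm hG' hG
  omega

end Pool.Agent.R977.SC
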