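import Pool.Agent.R977.SC.Stm

open MeasureTheory ProbabilityTheory Filter Topology Set
open scoped ENNReal NNReal

/-! Pieces SC-HIT and SC-SMALL. -/

namespace Pool.Agent.R977.SC.HitAux

open Pool.Agent.R974.Span

/-- paths bounded above by `c` on the dense set truncated at `T` -/
def Ab (c : ℝ) (T : ℝ≥0) : Set (ℝ≥0 → ℝ) := {w | ∀ k : ℕ, w (min (dq k) T) ≤ c}

/-- paths bounded above by `c` -/
def Ai (c : ℝ) : Set (ℝ≥0 → ℝ) := {w | ∀ k : ℕ, w (dq k) ≤ c}

lemma measurableSet_Ab (c : ℝ) (T : ℝ≥0) : MeasurableSet (Ab c T) := by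
  have : Ab c T = ⋂ k : ℕ, {w : ℝ≥0 → ℝ | w (min (dq k) T) ≤ c} := by
    ext w; simp [Ab]
  rw [this]
  exact MeasurableSet.iInter fun k => measurableSet_le (measurable_pi_apply _) measurable_const

lemma measurableSet_Ai (c : ℝ) : MeasurableSet (Ai c) := by
  have : Ai c = ⋂ k : ℕ, {w : ℝ≥0 → ℝ | w (dq k) ≤ c} := by
    ext w; simp [Ai]
  rw [this]
  exact MeasurableSet.iInter fun k => measurableSet_le (measurable_pi_apply _) measurable_const

lemma mem_Ai {w : ℝ≥0 → ℝ} (hw : Continuous w) {c : ℝ} : w ∈ Ai c ↔ ∀ t, w t ≤ c := by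
  constructor
  · intro h t
    have h3 : IsClosed {z | w z ≤ c} := isClosed_le hw continuous_const
    have h4 : range dq ⊆ {z | w z ≤ c} := by
      rintro _ ⟨n, rfl⟩
      exact h n
    have h5 := closure_minimal h4 h3
    rw [dense_dq.closure_range] at h5
    exact h5 (mem_univ t)
  · intro h k
    exact h _

lemma mem_Ab {w : ℝ≥0 → ℝ} (hw : Continuous w) {c : ℝ} {T : ℝ≥0} :
    w ∈ Ab c T ↔ ∀ t, t ≤ T → w t ≤ c := by
  have h0 : w ∈ Ab c T ↔ (fun t => w (min t T)) ∈ Ai c := Iff.rfl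
  have hc' : Continuous (fun t => w (min t T)) :=
    hw.comp (continuous_id.min continuous_const)
  rw [h0, mem_Ai hc']
  constructor
  · intro h t ht
    have := h t
    rwa [min_eq_left ht] at this
  · intro h t
    exact h _ (min_le_right _ _)

variable {Ω : Type*} [MeasurableSpace Ω] {P : Measure Ω} {B B' : ℝ≥0 → Ω → ℝ}

lemma meas_path' (hB : GBM B P) : Measurable (path B) :=
  measurable_pi_lambda _ fun t => hB.meas t

lemma law_eq (hB : GBM B P) (hB' : GBM B' P) : P.map (path B) = P.map (path B') := by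
  have h1 : ∀ {C : ℝ≥0 → Ω → ℝ}, GBM C P →
      IsProjectiveLimit (P.map (path C)) BrownianReal.projectiveFamily := by
    intro C hC I
    rw [Measure.map_map (Finset.measurable_restrict I) (meas_path' hC)]
    exact (hC.pre.hasLaw I).map_eq
  exact (h1 hB).unique (h1 hB')

lemma prob_eq (hB : GBM B P) (hB' : GBM B' P) {S : Set (ℝ≥0 → ℝ)} (hS : MeasurableSet S) :
    P {ω | path B ω ∈ S} = P {ω | path B' ω ∈ S} := by
  have h := law_eq hB hB'
  have h1 : P.map (path B) S = P.map (path B') S := by rw [h]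
  rwa [Measure.map_apply (meas_path' hB) hS, Measure.map_apply (meas_path' hB') hS] at h1

lemma gbm_smul (hB : GBM B P) {c : ℝ≥0} (hc : c ≠ 0) :
    GBM (fun t ω ↦ (√c)⁻¹ * B (c * t) ω) P where
  pre := hB.pre.smul hc
  meas t := (hB.meas _).const_mul _
  cont ω := by
    have := hB.cont ω
    fun_prop
  zero ω := by simp [hB.zero ω]

/-- scaling -/
lemma scale_i (hB : GBM B P) {a : ℝ≥0} (ha : a ≠ 0) (c : ℝ) :
    P {ω | ∀ t, B t ω ≤ c} = P {ω | ∀ t, B t ω ≤ √a * c} := by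
  have h1 := gbm_smul hB ha
  have h2 := prob_eq hB h1 (measurableSet_Ai c)
  have hapos : (0 : ℝ) < √a := Real.sqrt_pos.mpr (by exact_mod_cast pos_of_ne_zero ha)
  have h3 : {ω | path B ω ∈ Ai c} = {ω | ∀ t, B t ω ≤ c} := by
    ext ω
    exact mem_Ai (hB.cont ω)
  have h4 : {ω | path (fun t ω ↦ (√(a : ℝ))⁻¹ * B (a * t) ω) ω ∈ Ai c}
      = {ω | ∀ t, B t ω ≤ √a * c} := by
    ext ω
    refine (mem_Ai (h1.cont ω)).trans ?_
    constructor
    · intro h t
      have := h (a⁻¹ * t)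
      rw [← mul_assoc, mul_inv_cancel₀ ha, one_mul, inv_mul_le_iff₀ hapos] at this
      exact this
    · intro h t
      rw [inv_mul_le_iff₀ hapos]
      exact h _
  rw [h3, h4] at h2
  exact h2

lemma scale_b (hB : GBM B P) {a : ℝ≥0} (ha : a ≠ 0) (T : ℝ≥0) :
    P {ω | ∀ t, t ≤ T → B t ω ≤ 0} = P {ω | ∀ t, t ≤ a * T → B t ω ≤ 0} := by
  have h1 := gbm_smul hB ha
  have h2 := prob_eq hB h1 (measurableSet_Ab 0 T)
  have hapos : (0 : ℝ) < √a := Real.sqrt_pos.mpr (by exact_mod_cast pos_of_ne_zero ha)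
  have h3 : {ω | path B ω ∈ Ab 0 T} = {ω | ∀ t, t ≤ T → B t ω ≤ 0} := by
    ext ω
    exact mem_Ab (hB.cont ω)
  have h4 : {ω | path (fun t ω ↦ (√(a : ℝ))⁻¹ * B (a * t) ω) ω ∈ Ab 0 T}
      = {ω | ∀ t, t ≤ a * T → B t ω ≤ 0} := by
    ext ω
    refine (mem_Ab (h1.cont ω)).trans ?_
    constructor
    · intro h t ht
      have := h (a⁻¹ * t) (by
        rw [inv_mul_le_iff₀ (pos_of_ne_zero ha)]; exact ht)
      rw [← mul_assoc, mul_inv_cancel₀ ha, one_mul, inv_mul_le_iff₀ hapos, mul_zero] at this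
      exact this
    · intro h t ht
      rw [inv_mul_le_iff₀ hapos, mul_zero]
      exact h _ (by gcongr)
  rw [h3, h4] at h2
  exact h2

lemma ms_i (hB : GBM B P) (c : ℝ) : MeasurableSet {ω | ∀ t, B t ω ≤ c} := by
  have h3 : {ω | ∀ t, B t ω ≤ c} = path B ⁻¹' Ai c := by
    ext ω
    exact (mem_Ai (hB.cont ω)).symm
  rw [h3]
  exact meas_path' hB (measurableSet_Ai c)

lemma ms_b (hB : GBM B P) (c : ℝ) (T : ℝ≥0) : MeasurableSet {ω | ∀ t, t ≤ T → B t ω ≤ c} := by
  have h3 : {ω | ∀ t, t ≤ T → B t ω ≤ c} = path B ⁻¹' Ab c T := by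
    ext ω
    exact (mem_Ab (hB.cont ω)).symm
  rw [h3]
  exact meas_path' hB (measurableSet_Ab c T)

lemma const_i (hB : GBM B P) {c : ℝ} (hc : 0 < c) :
    P {ω | ∀ t, B t ω ≤ c} = P {ω | ∀ t, B t ω ≤ 1} := by
  have h2 : ((Real.toNNReal (c ^ 2) : ℝ≥0) : ℝ) = c ^ 2 := Real.coe_toNNReal _ (by positivity)
  have h := scale_i hB (a := Real.toNNReal (c ^ 2)) (by
    intro h
    rw [h] at h2
    have : (0 : ℝ) < c ^ 2 := by positivity
    simp only [NNReal.coe_zero] at h2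
    linarith) 1
  rw [h, h2, Real.sqrt_sq hc.le, mul_one]

/-- the probability of staying nonpositive is the probability of being bounded above -/
lemma zero_i (hB : GBM B P) :
    P {ω | ∀ t, B t ω ≤ 0} = P {ω | ∀ t, B t ω ≤ 1} := by
  have := hB.prob
  set s : ℕ → Set Ω := fun n => {ω | ∀ t, B t ω ≤ 1 / ((n : ℝ) + 1)} with hs
  have hm : Antitone s := by
    intro m n hmn ω hω t
    refine (hω t).trans ?_
    gcongr
  have h1 := tendsto_measure_iInter_atTop (μ := P) (s := s)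
    (fun n => (ms_i hB _).nullMeasurableSet) hm ⟨0, measure_ne_top _ _⟩
  have h2 : (⋂ n, s n) = {ω | ∀ t, B t ω ≤ 0} := by
    ext ω
    simp only [hs, mem_iInter, mem_ofPred_eq]
    constructor
    · intro h t
      refine le_of_forall_pos_le_add fun ε hε => ?_
      obtain ⟨n, hn⟩ := exists_nat_one_div_lt hε
      have := h n t
      linarith
    · intro h n t
      exact (h t).trans (by positivity)
  have h3 : (P ∘ s) = fun _ => P {ω | ∀ t, B t ω ≤ 1} := by
    funext n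
    exact const_i hB (by positivity)
  rw [h2, h3] at h1
  exact tendsto_nhds_unique tendsto_const_nhds h1 |>.symm

lemma bdd_i (hB : GBM B P) :
    P (⋃ n : ℕ, {ω | ∀ t, B t ω ≤ (n : ℝ) + 1}) = P {ω | ∀ t, B t ω ≤ 1} := by
  set s : ℕ → Set Ω := fun n => {ω | ∀ t, B t ω ≤ (n : ℝ) + 1} with hs
  have hm : Monotone s := by
    intro m n hmn ω hω t
    refine (hω t).trans ?_
    gcongr
  have h1 := tendsto_measure_iUnion_atTop (μ := P) hm
  have h3 : (P ∘ s) = fun _ => P {ω | ∀ t, B t ω ≤ 1} := by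
    funext n
    exact const_i hB (by positivity)
  rw [h3] at h1
  exact tendsto_nhds_unique h1 tendsto_const_nhds

lemma null_i (hB : GBM B P) : P {ω | ∀ t, B t ω ≤ 1} = 0 := by
  have hprob := hB.prob
  set A0 : Set Ω := {ω | ∀ t, B t ω ≤ 0} with hA0
  set U : Set Ω := ⋃ n : ℕ, {ω | ∀ t, B t ω ≤ (n : ℝ) + 1} with hU
  have hC := hB.shift 1
  set C : ℝ≥0 → Ω → ℝ := fun t ω => B (1 + t) ω - B 1 ω with hCdef
  set A1 : Set Ω := {ω | ∀ t, C t ω ≤ 0} with hA1
  set V : Set Ω := ⋃ n : ℕ, {ω | ∀ t, C t ω ≤ (n : ℝ) + 1} with hV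
  have e1 : P A0 = P {ω | ∀ t, B t ω ≤ 1} := zero_i hB
  have e3 : P A1 = P {ω | ∀ t, C t ω ≤ 1} := zero_i hC
  have e4 : P V = P {ω | ∀ t, C t ω ≤ 1} := bdd_i hC
  have e5 : P {ω | ∀ t, C t ω ≤ 1} = P {ω | ∀ t, B t ω ≤ 1} := by
    have := prob_eq hC hB (measurableSet_Ai 1)
    have h3 : {ω | path B ω ∈ Ai 1} = {ω | ∀ t, B t ω ≤ 1} := by
      ext ω
      exact mem_Ai (hB.cont ω)
    have h4 : {ω | path C ω ∈ Ai 1} = {ω | ∀ t, C t ω ≤ 1} := by
      ext ω
      exact mem_Ai (hC.cont ω)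
    rw [h3, h4] at this
    exact this
  have hsub : A1 ⊆ V := by
    intro ω hω
    refine mem_iUnion.mpr ⟨0, fun t => (hω t).trans ?_⟩
    norm_num
  have hVA : P (V \ A1) = 0 := by
    rw [measure_sdiff hsub (ms_i hC 0).nullMeasurableSet (measure_ne_top _ _), e4, e3, tsub_self]
  have hsub2 : A0 ⊆ V := by
    intro ω hω
    obtain ⟨n, hn⟩ := exists_nat_gt (-(B 1 ω))
    refine mem_iUnion.mpr ⟨n, fun t => ?_⟩
    have := hω (1 + t)
    simp only [hCdef]
    linarith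
  have hsub3 : A0 ⊆ ({ω | B 1 ω ≤ 0} ∩ A1) ∪ (V \ A1) := by
    intro ω hω
    by_cases h : ω ∈ A1
    · exact Or.inl ⟨hω 1, h⟩
    · exact Or.inr ⟨hsub2 hω, h⟩
  have hle : P A0 ≤ P ({ω | B 1 ω ≤ 0} ∩ A1) := by
    calc P A0 ≤ P (({ω | B 1 ω ≤ 0} ∩ A1) ∪ (V \ A1)) := measure_mono hsub3
      _ ≤ P ({ω | B 1 ω ≤ 0} ∩ A1) + P (V \ A1) := measure_union_le _ _
      _ = P ({ω | B 1 ω ≤ 0} ∩ A1) := by rw [hVA, add_zero]
  have hind : P ({ω | B 1 ω ≤ 0} ∩ A1) = P {ω | B 1 ω ≤ 0} * P A1 := by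
    have h1 := (hB.pre.indepFun_shift 1).symm
    have hφ : Measurable (fun g : (Set.Iic (1 : ℝ≥0) → ℝ) => g ⟨1, Set.mem_Iic.mpr le_rfl⟩) := by
      fun_prop
    have h2 := h1.comp hφ measurable_id
    have h3 := h2.measure_inter_preimage_eq_mul (Iic 0) (Ai 0) measurableSet_Iic
      (measurableSet_Ai 0)
    have h4 : (id ∘ fun ω t => B (1 + t) ω - B 1 ω) ⁻¹' Ai 0 = A1 := by
      ext ω
      exact mem_Ai (hC.cont ω)
    rw [h4] at h3
    exact h3
  have hhalf : P {ω | B 1 ω ≤ 0} ≠ 1 := by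
    intro h
    have hneg : GBM (-B) P := hB.neg
    have h1 : P {ω | B 1 ω ≤ 0} = P {ω | 0 ≤ B 1 ω} := by
      have := prob_eq hB hneg (S := {w | w 1 ≤ 0})
        (measurableSet_le (measurable_pi_apply _) measurable_const)
      have h4 : {ω | path (-B) ω ∈ {w : ℝ≥0 → ℝ | w 1 ≤ 0}} = {ω | 0 ≤ B 1 ω} := by
        ext ω
        simp [path]
      rw [h4] at this
      exact this
    have h2 : P {ω | 0 ≤ B 1 ω} = 1 := by rw [← h1]; exact h
    have hm1 : MeasurableSet {ω | B 1 ω ≤ 0} := measurableSet_le (hB.meas 1) measurable_const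
    have hm2 : MeasurableSet {ω | 0 ≤ B 1 ω} := measurableSet_le measurable_const (hB.meas 1)
    have a1 : ∀ᵐ ω ∂P, ω ∈ {ω | B 1 ω ≤ 0} := by
      exact (mem_ae_iff_prob_eq_one hm1).mpr h
    have a2 : ∀ᵐ ω ∂P, ω ∈ {ω | 0 ≤ B 1 ω} := by
      exact (mem_ae_iff_prob_eq_one hm2).mpr h2
    have a3 : ∀ᵐ ω ∂P, ¬ (B 1 ω = 0) := by
      rw [ae_iff]
      simp only [not_not]
      exact eval_noatom hB one_pos 0
    obtain ⟨ω, b1, b2, b3⟩ := (a1.and (a2.and a3)).exists
    exact b3 (le_antisymm b1 b2)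
  have hlt : P {ω | B 1 ω ≤ 0} < 1 := lt_of_le_of_ne prob_le_one hhalf
  rw [hind, e1, e3, e5] at hle
  by_contra hne
  have : P {ω | B 1 ω ≤ 0} * P {ω | ∀ t, B t ω ≤ 1} < 1 * P {ω | ∀ t, B t ω ≤ 1} :=
    ENNReal.mul_lt_mul_left hne (measure_ne_top _ _) hlt
  rw [one_mul] at this
  exact absurd hle (not_le.mpr this)

end Pool.Agent.R977.SC.HitAux

namespace Pool.Agent.R977.SC

open Pool.Agent.R974.Span HitAux

universe u

theorem pieceHIT : StmHIT.{u} := by
  classical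
  intro Ω _ P B hB
  have hprob := hB.prob
  set U : Set Ω := ⋃ n : ℕ, {ω | ∀ t, B t ω ≤ (n : ℝ) + 1} with hU
  have hU0 : P U = 0 := (bdd_i hB).trans (null_i hB)
  have hUm : MeasurableSet U := MeasurableSet.iUnion fun n => ms_i hB _
  have hae : ∀ᵐ ω ∂P, ω ∉ U := by
    rw [ae_iff]
    simp only [not_not]
    exact hU0
  have hB' : ∀ᵐ ω ∂P, ∀ t : ℝ≥0, (if ω ∈ U then (t : ℝ) else B t ω) = B t ω := by
    filter_upwards [hae] with ω hω t
    rw [if_neg hω]
  refine ⟨fun t ω => if ω ∈ U then (t : ℝ) else B t ω, ⟨⟨?_, ?_, ?_, ?_⟩, ?_⟩, hB'⟩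
  · refine hB.pre.congr fun t => ?_
    filter_upwards [hB'] with ω hω using (hω t).symm
  · intro t
    exact Measurable.ite hUm measurable_const (hB.meas t)
  · intro ω
    by_cases h : ω ∈ U
    · simp only [h, if_true]
      exact NNReal.continuous_coe
    · simp only [h, if_false]
      exact hB.cont ω
  · intro ω
    by_cases h : ω ∈ U
    · simp [h]
    · simp [h, hB.zero ω]
  · intro ω
    by_cases h : ω ∈ U
    · have hp : path (fun (t : ℝ≥0) ω => if ω ∈ U then (t : ℝ) else B t ω) ω =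
          fun t : ℝ≥0 => (t : ℝ) := by
        funext t
        simp only [path, if_pos h]
      rw [hp]
      refine ⟨NNReal.continuous_coe, by simp, ?_⟩
      intro c
      exact ⟨Real.toNNReal c, Real.le_coe_toNNReal c⟩
    · have hp : path (fun (t : ℝ≥0) ω => if ω ∈ U then (t : ℝ) else B t ω) ω =
          fun t : ℝ≥0 => B t ω := by
        funext t
        simp only [path, if_neg h]
      rw [hp]
      refine ⟨hB.cont ω, hB.zero ω, ?_⟩
      · intro c
        by_contra hc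
        push Not at hc
        obtain ⟨n, hn⟩ := exists_nat_gt c
        apply h
        refine mem_iUnion.mpr ⟨n, fun t => ?_⟩
        have := hc t
        linarith

theorem pieceSMALL : StmSMALL.{u} := by
  intro Ω _ P B hH ε hε
  have hB := hH.gbm
  have hprob := hB.prob
  -- the probability to stay nonpositive on `[0, 1/8]` is zero
  have h0 : P {ω | ∀ t, t ≤ (1 / 8 : ℝ≥0) → B t ω ≤ 0} = 0 := by
    set s : ℕ → Set Ω := fun n => {ω | ∀ t, t ≤ ((n : ℝ≥0) + 1) * (1 / 8) → B t ω ≤ 0} with hs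
    have hm : Antitone s := by
      intro m n hmn ω hω t ht
      refine hω t (ht.trans ?_)
      have : (m : ℝ≥0) ≤ n := by exact_mod_cast hmn
      gcongr
    have h1 := tendsto_measure_iInter_atTop (μ := P) (s := s)
      (fun n => (ms_b hB _ _).nullMeasurableSet) hm ⟨0, measure_ne_top _ _⟩
    have h2 : (⋂ n, s n) = ∅ := by
      ext ω
      simp only [hs, mem_iInter, mem_ofPred_eq, mem_empty_iff_false, iff_false]
      intro h
      obtain ⟨t, ht⟩ := (hH.nice ω).hit 1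
      obtain ⟨n, hn⟩ := exists_nat_gt (8 * t)
      have h3 := h n t (by
        have : t ≤ (n : ℝ≥0) * (1 / 8) := by
          rw [mul_one_div, le_div_iff₀ (by norm_num), mul_comm]
          exact hn.le
        refine this.trans ?_
        gcongr
        exact le_self_add)
      have h4 : (1 : ℝ) ≤ B t ω := ht
      linarith
    have h3 : (P ∘ s) = fun _ => P {ω | ∀ t, t ≤ (1 / 8 : ℝ≥0) → B t ω ≤ 0} := by
      funext n
      exact (scale_b hB (by positivity) (1 / 8)).symm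
    rw [h2, h3, measure_empty] at h1
    exact tendsto_nhds_unique tendsto_const_nhds h1
  set s : ℕ → Set Ω := fun n => {ω | ∀ t, t ≤ (1 / 8 : ℝ≥0) → B t ω ≤ 1 / ((n : ℝ) + 1)} with hs
  have hm : Antitone s := by
    intro m n hmn ω hω t ht
    refine (hω t ht).trans ?_
    gcongr
  have h1 := tendsto_measure_iInter_atTop (μ := P) (s := s)
    (fun n => (ms_b hB _ _).nullMeasurableSet) hm ⟨0, measure_ne_top _ _⟩
  have h2 : (⋂ n, s n) = {ω | ∀ t, t ≤ (1 / 8 : ℝ≥0) → B t ω ≤ 0} := by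
    ext ω
    simp only [hs, mem_iInter, mem_ofPred_eq]
    constructor
    · intro h t ht
      refine le_of_forall_pos_le_add fun δ hδ => ?_
      obtain ⟨n, hn⟩ := exists_nat_one_div_lt hδ
      have := h n t ht
      linarith
    · intro h n t ht
      exact (h t ht).trans (by positivity)
  rw [h2, h0] at h1
  obtain ⟨n, hn⟩ := (h1.eventually (gt_mem_nhds (pos_iff_ne_zero.mpr hε))).exists
  refine ⟨1 / ((n : ℝ) + 1), by positivity, fun c hc hc1 => ?_⟩
  refine le_trans (measure_mono ?_) (le_of_lt hn)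
  intro ω hω t ht
  by_contra hcon
  push Not at hcon
  exact hω ⟨t, ht, by linarith⟩

end Pool.Agent.R977.SC
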