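import Pool.Agent.R977.SC.Stm

/-! SC-LAW and SC-IID (helper164). -/

open MeasureTheory ProbabilityTheory Filter Topology Set
open scoped ENNReal NNReal

namespace Pool.Agent.R977.SC

open Pool.Agent.R974.Span

universe u

namespace Iid

/-- the block variable as a function of the path -/
noncomputable def YY (k : ℕ) (w : ℝ≥0 → ℝ) : ℝ≥0 × Prop := (T1 (sh^[k] w), Spc (sh^[k] w))

theorem Y_eq {Ω : Type u} [MeasurableSpace Ω] (B : ℝ≥0 → Ω → ℝ) (k : ℕ) (ω : Ω) :
    Y B k ω = YY k (fun t => B t ω) := rfl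

theorem YY_succ (k : ℕ) (w : ℝ≥0 → ℝ) : YY (k + 1) w = YY k (sh w) := rfl

theorem measY (h1 : StmPATH) (h2 : StmMEAS.{u}) {Ω : Type u} (m : MeasurableSpace Ω) (k : ℕ) :
    ∀ X : ℝ≥0 → Ω → ℝ, (∀ t, Measurable[m] (X t)) → (∀ ω, Nice (fun t => X t ω)) →
      Measurable[m] (fun ω => YY k (fun t => X t ω)) := by
  induction k with
  | zero =>
    intro X hX hn
    obtain ⟨a1, a2, -⟩ := @h2 Ω m X hX hn
    exact Measurable.prodMk a1 (measurableSet_setOfPred.mp a2)
  | succ k ih =>
    intro X hX hn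
    obtain ⟨-, -, a3⟩ := @h2 Ω m X hX hn
    exact ih (fun t ω => sh (fun t => X t ω) t) a3 (fun ω => (h1 _ (hn ω)).1)

/-- events of the block variables are events of the path -/
theorem factor (h1 : StmPATH) (h2 : StmMEAS.{u}) {Ω : Type u} (k : ℕ) (X : ℝ≥0 → Ω → ℝ)
    (hn : ∀ ω, Nice (fun t => X t ω)) (C : Set (ℝ≥0 × Prop)) (hC : MeasurableSet C) :
    ∃ D : Set (ℝ≥0 → ℝ), MeasurableSet D ∧
      (fun ω => fun t => X t ω) ⁻¹' D = {ω | YY k (fun t => X t ω) ∈ C} := by
  have hX : ∀ t, Measurable[MeasurableSpace.comap (fun ω => fun t => X t ω)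
      MeasurableSpace.pi] (X t) := by
    intro t
    exact (measurable_pi_apply t).comp (comap_measurable (fun ω => fun t => X t ω))
  exact measY h1 h2 (MeasurableSpace.comap (fun ω => fun t => X t ω) MeasurableSpace.pi)
    k X hX hn hC

theorem law_path {Ω : Type u} [MeasurableSpace Ω] {P : Measure Ω} {B B' : ℝ≥0 → Ω → ℝ}
    (hB : HBM B P) (hB' : HBM B' P) :
    P.map (fun ω => fun t => B t ω) = P.map (fun ω => fun t => B' t ω) := by
  have := hB.gbm.prob
  refine (map_eq_iff_forall_finset_map_restrict_eq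
    (measurable_pi_lambda _ hB.gbm.meas).aemeasurable
    (measurable_pi_lambda _ hB'.gbm.meas).aemeasurable).mpr ?_
  intro I
  exact (hB.gbm.pre.hasLaw I).map_eq.trans (hB'.gbm.pre.hasLaw I).map_eq.symm

end Iid

theorem pieceLAW (h1 : StmPATH) (h2 : StmMEAS.{u}) : StmLAW.{u} := by
  intro Ω _ P B B' hB hB'
  have hmB : Measurable (Y B 0) := Iid.measY h1 h2 _ 0 B hB.gbm.meas hB.nice
  have hmB' : Measurable (Y B' 0) := Iid.measY h1 h2 _ 0 B' hB'.gbm.meas hB'.nice
  refine Measure.ext fun C hC => ?_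
  rw [Measure.map_apply hmB hC, Measure.map_apply hmB' hC]
  obtain ⟨D, hD, hDeq⟩ := Iid.factor h1 h2 0
    (fun (t : ℝ≥0) (z : Ω × Bool) => if z.2 = true then B t z.1 else B' t z.1)
    (by
      rintro ⟨ω, b⟩
      cases b
      · exact hB'.nice ω
      · exact hB.nice ω) C hC
  have e1 : Y B 0 ⁻¹' C = (fun ω => fun t => B t ω) ⁻¹' D := by
    ext ω
    have h3 : ((ω, true) : Ω × Bool) ∈ (fun z : Ω × Bool => fun t =>
        if z.2 = true then B t z.1 else B' t z.1) ⁻¹' D ↔ ((ω, true) : Ω × Bool) ∈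
        {z : Ω × Bool | Iid.YY 0 (fun t => if z.2 = true then B t z.1 else B' t z.1) ∈ C} := by
      rw [hDeq]
    exact h3.symm
  have e2 : Y B' 0 ⁻¹' C = (fun ω => fun t => B' t ω) ⁻¹' D := by
    ext ω
    have h3 : ((ω, false) : Ω × Bool) ∈ (fun z : Ω × Bool => fun t =>
        if z.2 = true then B t z.1 else B' t z.1) ⁻¹' D ↔ ((ω, false) : Ω × Bool) ∈
        {z : Ω × Bool | Iid.YY 0 (fun t => if z.2 = true then B t z.1 else B' t z.1) ∈ C} := by
      rw [hDeq]
    exact h3.symm
  rw [e1, e2, ← Measure.map_apply (measurable_pi_lambda _ hB.gbm.meas) hD,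
    ← Measure.map_apply (measurable_pi_lambda _ hB'.gbm.meas) hD, Iid.law_path hB hB']

namespace Iid

theorem prod_eq (h1 : StmPATH) (h2 : StmMEAS.{u}) (h3 : StmSM.{u})
    {Ω : Type u} [MeasurableSpace Ω] {P : Measure Ω} (n : ℕ) :
    ∀ B : ℝ≥0 → Ω → ℝ, HBM B P → ∀ C : ℕ → Set (ℝ≥0 × Prop), (∀ k, MeasurableSet (C k)) →
      P (⋂ k ∈ Finset.range n, Y B k ⁻¹' C k) = ∏ k ∈ Finset.range n, P (Y B k ⁻¹' C k) := by
  induction n with
  | zero =>
    intro B hB C hC
    have := hB.gbm.prob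
    simp
  | succ n ih =>
    intro B hB C hC
    obtain ⟨hB1, hind⟩ := h3 Ω P B hB
    have hset : (⋂ k ∈ Finset.range (n + 1), Y B k ⁻¹' C k) =
        Y B 0 ⁻¹' C 0 ∩
          ⋂ k ∈ Finset.range n, Y (fun t ω => sh (path B ω) t) k ⁻¹' C (k + 1) := by
      ext ω
      simp only [Set.mem_iInter, Set.mem_inter_iff, Finset.mem_range]
      constructor
      · intro h
        exact ⟨h 0 (by omega), fun k hk => h (k + 1) (by omega)⟩
      · rintro ⟨h0, hs⟩ k hk
        rcases k with _ | k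
        · exact h0
        · exact hs k (by omega)
    obtain ⟨D, hD, hDeq⟩ : ∃ D : Set (ℝ≥0 → ℝ), MeasurableSet D ∧
        (fun ω => sh (path B ω)) ⁻¹' D =
          ⋂ k ∈ Finset.range n, Y (fun t ω => sh (path B ω) t) k ⁻¹' C (k + 1) := by
      choose D hD hDeq using fun k => factor h1 h2 k (fun t ω => sh (path B ω) t) hB1.nice
        (C (k + 1)) (hC (k + 1))
      refine ⟨⋂ k ∈ Finset.range n, D k, ?_, ?_⟩
      · exact Finset.measurableSet_biInter _ fun k _ => hD k
      · rw [Set.preimage_iInter₂]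
        refine Set.iInter₂_congr fun k _ => ?_
        exact hDeq k
    rw [hset, ← hDeq, hind.measure_inter_preimage_eq_mul _ _ (hC 0) hD, hDeq,
      ih _ hB1 (fun k => C (k + 1)) (fun k => hC (k + 1)), Finset.prod_range_succ', mul_comm]
    rfl

end Iid

theorem pieceIID (h1 : StmPATH) (h2 : StmMEAS.{u}) (h3 : StmSM.{u}) (h4 : StmLAW.{u}) :
    StmIID.{u} := by
  intro Ω _ P B hB
  refine ⟨fun k => Iid.measY h1 h2 _ k B hB.gbm.meas hB.nice, ?_, ?_⟩
  · rw [iIndepFun_iff_measure_inter_preimage_eq_mul]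
    intro S sets hS
    classical
    have hprob := hB.gbm.prob
    obtain ⟨n, hn⟩ := S.exists_nat_subset_range
    have hp := Iid.prod_eq h1 h2 h3 n B hB (fun k => if k ∈ S then sets k else univ)
      (by
        intro k
        by_cases hk : k ∈ S
        · simp only [if_pos hk]
          exact hS k hk
        · simp only [if_neg hk]
          exact MeasurableSet.univ)
    have e1 : (⋂ k ∈ Finset.range n, Y B k ⁻¹' (if k ∈ S then sets k else univ)) =
        ⋂ i ∈ S, Y B i ⁻¹' sets i := by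
      ext ω
      simp only [Set.mem_iInter, Set.mem_preimage]
      constructor
      · intro h i hi
        have := h i (hn hi)
        rwa [if_pos hi] at this
      · intro h k hk
        by_cases hkS : k ∈ S
        · rw [if_pos hkS]
          exact h k hkS
        · rw [if_neg hkS]
          exact mem_univ _
    rw [e1] at hp
    rw [hp]
    symm
    refine Finset.prod_subset_one_on_sdiff hn ?_ ?_
    · intro k hk
      rw [if_neg (Finset.mem_sdiff.mp hk).2]
      simp
    · intro k hk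
      rw [if_pos hk]
  · intro k
    have key : ∀ k, ∀ B : ℝ≥0 → Ω → ℝ, HBM B P → P.map (Y B k) = P.map (Y B 0) := by
      intro k
      induction k with
      | zero => intro B _; rfl
      | succ k ih =>
        intro B hB
        have hB1 := (h3 Ω P B hB).1
        have e1 : P.map (Y B (k + 1)) = P.map (Y (fun t ω => sh (path B ω) t) k) := rfl
        rw [e1, ih _ hB1]
        exact h4 Ω P _ _ hB1 hB
    exact key k B hB

end Pool.Agent.R977.SC
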