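import Pool.Agent.R977.SC.Stm

open MeasureTheory ProbabilityTheory Filter Topology Set
open scoped ENNReal NNReal

/-! SC-LEVEL: randomisation of the level. -/

namespace Pool.Agent.R977.SC

open Pool.Agent.R974.Span

universe u

namespace LV394

lemma Ms_congr {L R L' R' : ℝ≥0 → ℝ} {q : ℝ≥0} (hL : ∀ t ≤ q, L t = L' t)
    (hR : ∀ t ≤ q, R t = R' t) : Ms L R q = Ms L' R' q := by
  unfold Ms
  congr 1
  funext p
  rw [hL _ (min_le_right _ _), hR _ ((min_le_right _ _).trans tsub_le_self)]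

lemma Gs_congr {L R L' R' : ℝ≥0 → ℝ} {q : ℝ≥0} (hL : ∀ t ≤ q, L t = L' t)
    (hR : ∀ t ≤ q, R t = R' t) : Gs L R q = Gs L' R' q := by
  unfold Gs
  congr 1
  funext p
  rw [hL _ (min_le_right _ _), hR _ tsub_le_self]

lemma VV_of {L R L' R' : ℝ≥0 → ℝ} {c : ℝ} (hL : ∀ t ≤ (1 / 4 : ℝ≥0), L t = L' t)
    (hR : ∀ t ≤ (1 / 4 : ℝ≥0), R t = R' t) (h : VV c L R) : VV c L' R' := by
  intro m
  obtain ⟨i, j, h1, h2, h3, h4, h5, h6⟩ := h m
  refine ⟨i, j, h1, h2, h3, ?_, ?_, ?_⟩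
  · rw [← Ms_congr (fun t ht => hL t (ht.trans (h1.trans h3)))
      (fun t ht => hR t (ht.trans (h1.trans h3)))]
    exact h4
  · rw [← Ms_congr (fun t ht => hL t (ht.trans h3)) (fun t ht => hR t (ht.trans h3))]
    exact h5
  · rw [← Gs_congr (fun t ht => hL t (ht.trans h3)) (fun t ht => hR t (ht.trans h3))]
    exact h6

lemma VV_congr {L R L' R' : ℝ≥0 → ℝ} {c : ℝ} (hL : ∀ t ≤ (1 / 4 : ℝ≥0), L t = L' t)
    (hR : ∀ t ≤ (1 / 4 : ℝ≥0), R t = R' t) : VV c L R ↔ VV c L' R' :=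
  ⟨VV_of hL hR, VV_of (fun t ht => (hL t ht).symm) (fun t ht => (hR t ht).symm)⟩

lemma measurable_Ms (q : ℝ≥0) :
    Measurable (fun p : (ℝ≥0 → ℝ) × (ℝ≥0 → ℝ) => Ms p.1 p.2 q) := by
  unfold Ms
  exact Measurable.iSup fun n => ((measurable_pi_apply _).comp measurable_fst).add
    ((measurable_pi_apply _).comp measurable_snd)

lemma measurable_Gs (q : ℝ≥0) :
    Measurable (fun p : (ℝ≥0 → ℝ) × (ℝ≥0 → ℝ) => Gs p.1 p.2 q) := by
  unfold Gs
  exact Measurable.iSup fun n => ((measurable_pi_apply _).comp measurable_fst).add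
    ((measurable_pi_apply _).comp measurable_snd)

lemma measurableSet_VV : MeasurableSet
    {p : ℝ × ((ℝ≥0 → ℝ) × (ℝ≥0 → ℝ)) | VV p.1 p.2.1 p.2.2} := by
  have h : {p : ℝ × ((ℝ≥0 → ℝ) × (ℝ≥0 → ℝ)) | VV p.1 p.2.1 p.2.2} =
      ⋂ m : ℕ, ⋃ i : ℕ, ⋃ j : ℕ, {p : ℝ × ((ℝ≥0 → ℝ) × (ℝ≥0 → ℝ)) |
        (dq i ≤ dq j ∧ dq j ≤ dq i + 1 / ((m : ℝ≥0) + 1) ∧ dq j ≤ 1 / 4) ∧
        Ms p.2.1 p.2.2 (dq i) < p.1 ∧ p.1 ≤ Ms p.2.1 p.2.2 (dq j) ∧
        Gs p.2.1 p.2.2 (dq j) < p.1} := by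
    ext p
    simp only [VV, Set.mem_ofPred_eq, mem_iInter, mem_iUnion, and_assoc]
  rw [h]
  refine MeasurableSet.iInter fun m => MeasurableSet.iUnion fun i => MeasurableSet.iUnion fun j => ?_
  refine (MeasurableSet.const _).inter ((measurableSet_lt ?_ measurable_fst).inter
    ((measurableSet_le measurable_fst ?_).inter (measurableSet_lt ?_ measurable_fst)))
  · exact (measurable_Ms _).comp measurable_snd
  · exact (measurable_Ms _).comp measurable_snd
  · exact (measurable_Gs _).comp measurable_snd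

lemma indep3 {Ω α β γ : Type*} [MeasurableSpace Ω] [MeasurableSpace α] [MeasurableSpace β]
    [MeasurableSpace γ] {P : Measure Ω} [IsProbabilityMeasure P] {X : Ω → α} {Y : Ω → β}
    {Z : Ω → γ} (hX : Measurable X) (hY : Measurable Y) (hZ : Measurable Z)
    (h1 : IndepFun X (fun ω => (Y ω, Z ω)) P) (h2 : IndepFun Y Z P) :
    IndepFun Y (fun ω => (X ω, Z ω)) P := by
  have : IsProbabilityMeasure (P.map (fun ω => (Y ω, (X ω, Z ω)))) :=
    Measure.isProbabilityMeasure_map (hY.prodMk (hX.prodMk hZ)).aemeasurable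
  have : IsProbabilityMeasure (P.map Y) := Measure.isProbabilityMeasure_map hY.aemeasurable
  have : IsProbabilityMeasure (P.map (fun ω => (X ω, Z ω))) :=
    Measure.isProbabilityMeasure_map (hX.prodMk hZ).aemeasurable
  rw [indepFun_iff_map_prod_eq_prod_map_map hY.aemeasurable (hX.prodMk hZ).aemeasurable]
  refine Measure.ext_prod₃ fun {s t u} hs ht hu => ?_
  rw [Measure.map_apply (hY.prodMk (hX.prodMk hZ)) (hs.prod (ht.prod hu)), Measure.prod_prod,
    Measure.map_apply hY hs, Measure.map_apply (hX.prodMk hZ) (ht.prod hu)]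
  have h3 := h1.measure_inter_preimage_eq_mul t (s ×ˢ u) ht (hs.prod hu)
  have h4 := h2.measure_inter_preimage_eq_mul s u hs hu
  have h5 := h1.measure_inter_preimage_eq_mul t (univ ×ˢ u) ht (MeasurableSet.univ.prod hu)
  have e1 : (fun ω => (Y ω, (X ω, Z ω))) ⁻¹' (s ×ˢ t ×ˢ u) =
      X ⁻¹' t ∩ (fun ω => (Y ω, Z ω)) ⁻¹' (s ×ˢ u) := by
    ext ω; simp only [mem_preimage, mem_prod, mem_inter_iff]; tauto
  have e2 : (fun ω => (Y ω, Z ω)) ⁻¹' (s ×ˢ u) = Y ⁻¹' s ∩ Z ⁻¹' u := by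
    ext ω; simp only [mem_preimage, mem_prod, mem_inter_iff]
  have e3 : (fun ω => (X ω, Z ω)) ⁻¹' (t ×ˢ u) =
      X ⁻¹' t ∩ (fun ω => (Y ω, Z ω)) ⁻¹' (univ ×ˢ u) := by
    ext ω; simp only [mem_preimage, mem_prod, mem_inter_iff, mem_univ, true_and]
  have e4 : (fun ω => (Y ω, Z ω)) ⁻¹' (univ ×ˢ u) = Z ⁻¹' u := by
    ext ω; simp only [mem_preimage, mem_prod, mem_univ, true_and]
  rw [e1, h3, e2, h4, e3, h5, e4]
  ring

/-- the abstract Fubini argument -/
lemma fub {X : Type*} [MeasurableSpace X] (μ : Measure X) [SFinite μ] (ν : Measure ℝ) [SFinite ν]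
    (hν : (volume : Measure ℝ) ≪ ν) (e : X → ℝ) (he : Measurable e) (S : Set (ℝ × X))
    (hS : MeasurableSet S) (h : (ν.prod μ) {p | (p.1 + e p.2, p.2) ∈ S} = 0) :
    ∀ᵐ c : ℝ, μ {x | (c, x) ∈ S} = 0 := by
  have hm : Measurable (fun p : ℝ × X => (p.1 + e p.2, p.2)) :=
    (measurable_fst.add (he.comp measurable_snd)).prodMk measurable_snd
  have hS2 : MeasurableSet {p : ℝ × X | (p.1 + e p.2, p.2) ∈ S} := hm hS
  have h1 : (volume.prod μ) {p : ℝ × X | (p.1 + e p.2, p.2) ∈ S} = 0 :=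
    (hν.prod Measure.AbsolutelyContinuous.rfl) h
  rw [Measure.prod_apply_symm hS2, lintegral_eq_zero_iff (measurable_measure_prodMk_right hS2)] at h1
  have h2 : (volume.prod μ) S = 0 := by
    rw [Measure.prod_apply_symm hS, lintegral_eq_zero_iff (measurable_measure_prodMk_right hS)]
    filter_upwards [h1] with x hx
    simp only [Pi.zero_apply] at hx ⊢
    have h3 : (fun c : ℝ => (c, x)) ⁻¹' {p : ℝ × X | (p.1 + e p.2, p.2) ∈ S} =
        (fun c : ℝ => c + e x) ⁻¹' ((fun c : ℝ => (c, x)) ⁻¹' S) := by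
      ext c; simp
    rw [h3, measure_preimage_add_right] at hx
    exact hx
  rw [Measure.prod_apply hS, lintegral_eq_zero_iff (measurable_measure_prodMk_left hS)] at h2
  filter_upwards [h2] with c hc
  exact hc

end LV394

open LV394

theorem pieceLEVEL : StmLEVEL.{u} := by
  intro Ω _ P B hB c1 hc1 hne
  have hP := hB.prob
  have hpath : Measurable (fun ω => path B ω) := measurable_pi_lambda _ fun t => hB.meas t
  have hrev : Measurable (fun ω => rev (path B ω)) :=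
    measurable_pi_lambda _ fun t => (hB.meas 1).sub (hB.meas _)
  refine ⟨((hB.meas 1).prodMk (hpath.prodMk hrev)) measurableSet_VV, ?_⟩
  intro h0
  -- the three pieces
  set W : ℝ≥0 → Ω → ℝ := fun t ω => B (1 / 4 + t) ω - B (1 / 4) ω with hW
  have hWB : GBM W P := hB.shift (1 / 4)
  set A : Ω → (Set.Iic (1 / 4 : ℝ≥0) → ℝ) := fun ω t => B t ω with hA
  set D : Ω → ℝ := fun ω => W (1 / 4) ω with hD
  set F : Ω → (ℝ≥0 → ℝ) := fun ω t => W (1 / 4 + t) ω - W (1 / 4) ω with hF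
  have hAm : Measurable A := measurable_pi_lambda _ fun t => hB.meas t
  have hDm : Measurable D := hWB.meas _
  have hFm : Measurable F := measurable_pi_lambda _ fun t => (hWB.meas _).sub (hWB.meas _)
  have i1 : IndepFun A (fun ω => (D ω, F ω)) P := by
    have h1 := (hB.pre.indepFun_shift (1 / 4)).symm
    have hψ : Measurable (fun w : ℝ≥0 → ℝ =>
        (w (1 / 4), fun t : ℝ≥0 => w (1 / 4 + t) - w (1 / 4))) := by fun_prop
    exact h1.comp measurable_id hψ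
  have i2 : IndepFun D F P := by
    have h1 := (hWB.pre.indepFun_shift (1 / 4)).symm
    have hφ : Measurable (fun g : (Set.Iic (1 / 4 : ℝ≥0) → ℝ) =>
        g ⟨1 / 4, Set.mem_Iic.mpr le_rfl⟩) := by fun_prop
    exact h1.comp hφ measurable_id
  have i3 : IndepFun D (fun ω => (A ω, F ω)) P := indep3 hAm hDm hFm i1 i2
  -- level, left and right paths
  set e : (Set.Iic (1 / 4 : ℝ≥0) → ℝ) × (ℝ≥0 → ℝ) → ℝ :=
    fun x => x.1 ⟨1 / 4, Set.mem_Iic.mpr le_rfl⟩ + x.2 (1 / 2) with he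
  set l : (Set.Iic (1 / 4 : ℝ≥0) → ℝ) × (ℝ≥0 → ℝ) → (ℝ≥0 → ℝ) :=
    fun x t => x.1 ⟨min t (1 / 4), Set.mem_Iic.mpr (min_le_right _ _)⟩ with hl
  set r : (Set.Iic (1 / 4 : ℝ≥0) → ℝ) × (ℝ≥0 → ℝ) → (ℝ≥0 → ℝ) :=
    fun x t => x.2 (1 / 2) - x.2 (1 / 2 - t) with hr
  have hem : Measurable e := by fun_prop
  have hlm : Measurable l := by fun_prop
  have hrm : Measurable r := by fun_prop
  set S : Set (ℝ × ((Set.Iic (1 / 4 : ℝ≥0) → ℝ) × (ℝ≥0 → ℝ))) :=
    {p | VV p.1 (l p.2) (r p.2)} with hSdef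
  have hS : MeasurableSet S := by
    have : Measurable (fun p : ℝ × ((Set.Iic (1 / 4 : ℝ≥0) → ℝ) × (ℝ≥0 → ℝ)) =>
        (p.1, (l p.2, r p.2))) :=
      measurable_fst.prodMk ((hlm.comp measurable_snd).prodMk (hrm.comp measurable_snd))
    exact this measurableSet_VV
  have hL : ∀ ω, ∀ t ≤ (1 / 4 : ℝ≥0), path B ω t = l (A ω, F ω) t := by
    intro ω t ht
    simp only [hl, hA, path, min_eq_left ht]
  have hhalf : (1 / 4 : ℝ≥0) + 1 / 4 = 1 / 2 := by
    rw [← NNReal.coe_inj]; push_cast; norm_num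
  have hFe : ∀ ω t, F ω t = B (1 / 2 + t) ω - B (1 / 2) ω := by
    intro ω t
    simp only [hF, hW]
    rw [← add_assoc, hhalf]
    ring
  have hone : (1 / 2 : ℝ≥0) + 1 / 2 = 1 := by
    rw [← NNReal.coe_inj]; push_cast; norm_num
  have hR : ∀ ω, ∀ t ≤ (1 / 4 : ℝ≥0), rev (path B ω) t = r (A ω, F ω) t := by
    intro ω t ht
    have ht2 : t ≤ 1 / 2 := ht.trans (by rw [← NNReal.coe_le_coe]; push_cast; norm_num)
    have h1 : (1 / 2 : ℝ≥0) + (1 / 2 - t) = 1 - t := by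
      rw [← add_tsub_assoc_of_le ht2, hone]
    simp only [hr, rev, path, hFe, hone, h1]
    ring
  have hE : ∀ ω, B 1 ω = D ω + e (A ω, F ω) := by
    intro ω
    simp only [he, hD, hA, hFe, hone, hW, hhalf]
    ring
  -- null event
  have h1 : ((P.map D).prod (P.map (fun ω => (A ω, F ω))))
      {p | (p.1 + e p.2, p.2) ∈ S} = 0 := by
    rw [← (indepFun_iff_map_prod_eq_prod_map_map hDm.aemeasurable
      (hAm.prodMk hFm).aemeasurable).1 i3, Measure.map_apply (hDm.prodMk (hAm.prodMk hFm))]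
    · refine measure_mono_null ?_ h0
      intro ω hω
      simp only [mem_preimage, Set.mem_ofPred_eq, hSdef] at hω ⊢
      rw [← hE] at hω
      exact (VV_congr (hL ω) (hR ω)).2 hω
    · have hm : Measurable (fun p : ℝ × ((Set.Iic (1 / 4 : ℝ≥0) → ℝ) × (ℝ≥0 → ℝ)) =>
          (p.1 + e p.2, p.2)) :=
        (measurable_fst.add (hem.comp measurable_snd)).prodMk measurable_snd
      exact hm hS
  have hac : (volume : Measure ℝ) ≪ P.map D := by
    have : P.map D = gaussianReal 0 (1 / 4) := (hWB.pre.hasLaw_eval (1 / 4)).map_eq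
    rw [this]
    exact gaussianReal_absolutelyContinuous' 0 (by
      rw [← NNReal.coe_ne_zero]; push_cast; norm_num)
  have : IsProbabilityMeasure (P.map D) := Measure.isProbabilityMeasure_map hDm.aemeasurable
  have : IsProbabilityMeasure (P.map (fun ω => (A ω, F ω))) :=
    Measure.isProbabilityMeasure_map (hAm.prodMk hFm).aemeasurable
  have h2 := fub (P.map (fun ω => (A ω, F ω))) (P.map D) hac e hem S hS h1
  -- find a level in `(0, c1)`
  have h3 : ∃ c ∈ Ioo 0 c1, (P.map (fun ω => (A ω, F ω))) {x | (c, x) ∈ S} = 0 := by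
    by_contra hcon
    push Not at hcon
    have h4 : Ioo 0 c1 ⊆ {c | ¬ (P.map (fun ω => (A ω, F ω))) {x | (c, x) ∈ S} = 0} :=
      fun c hc => hcon c hc
    have h5 : volume (Ioo 0 c1) = 0 := measure_mono_null h4 (ae_iff.1 h2)
    rw [Real.volume_Ioo, ENNReal.ofReal_eq_zero] at h5
    linarith
  obtain ⟨c, ⟨hc0, hcc⟩, hcS⟩ := h3
  apply hne c hc0 hcc
  have hSc : MeasurableSet {x : (Set.Iic (1 / 4 : ℝ≥0) → ℝ) × (ℝ≥0 → ℝ) | (c, x) ∈ S} :=
    measurable_prodMk_left hS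
  rw [Measure.map_apply (hAm.prodMk hFm) hSc] at hcS
  refine measure_mono_null ?_ hcS
  intro ω hω
  exact (VV_congr (hL ω) (hR ω)).1 hω

end Pool.Agent.R977.SC
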