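import Pool.Agent.R977.SC.Stm

open MeasureTheory ProbabilityTheory Filter Topology Set
open scoped ENNReal NNReal

/-! Pieces PATH and MEAS. -/

namespace Pool.Agent.R977.SC

open Pool.Agent.R974.Span

universe u

namespace PM

lemma T1_mem {w : ℝ≥0 → ℝ} (hw : Nice w) : 1 ≤ w (T1 w) := by
  have hcl : IsClosed {t | 1 ≤ w t} := isClosed_le continuous_const hw.cont
  have hne : {t | 1 ≤ w t}.Nonempty := hw.hit 1
  exact hcl.csInf_mem hne (OrderBot.bddBelow _)

lemma T1_le {w : ℝ≥0 → ℝ} {t : ℝ≥0} (h : 1 ≤ w t) : T1 w ≤ t :=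
  csInf_le (OrderBot.bddBelow _) h

lemma T1_eq {w : ℝ≥0 → ℝ} (hw : Nice w) : w (T1 w) = 1 := by
  have h1 := T1_mem hw
  have h0 : (0 : ℝ≥0) ≤ T1 w := zero_le
  have hI := intermediate_value_Icc h0 hw.cont.continuousOn
  have h2 : (1 : ℝ) ∈ Icc (w 0) (w (T1 w)) := ⟨by rw [hw.zero]; norm_num, h1⟩
  obtain ⟨t, ht, ht1⟩ := hI h2
  have h3 : T1 w ≤ t := T1_le ht1.ge
  have h4 : t = T1 w := le_antisymm ht.2 h3
  rw [← h4]; exact ht1

lemma nice_sh {w : ℝ≥0 → ℝ} (hw : Nice w) : Nice (sh w) where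
  cont := (hw.cont.comp (continuous_const.add continuous_id)).sub continuous_const
  zero := by unfold sh; simp
  hit := by
    intro c
    obtain ⟨M, hM⟩ := (isCompact_Icc (a := (0 : ℝ≥0)) (b := T1 w)).bddAbove_image
      hw.cont.continuousOn
    obtain ⟨t, ht⟩ := hw.hit (max (c + 1) (M + 1))
    have ht1 : T1 w ≤ t := by
      by_contra hcon
      have h1 : w t ≤ M := hM ⟨t, ⟨zero_le, (not_le.1 hcon).le⟩, rfl⟩
      have h2 := (le_max_right (c + 1) (M + 1)).trans ht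
      linarith
    refine ⟨t - T1 w, ?_⟩
    unfold sh
    rw [add_tsub_cancel_of_le ht1, T1_eq hw]
    have h2 := (le_max_left (c + 1) (M + 1)).trans ht
    linarith

lemma exists_max {w : ℝ≥0 → ℝ} (hw : Continuous w) {a b : ℝ≥0} (hab : a ≤ b) :
    ∃ s, a ≤ s ∧ s ≤ b ∧ mx w a b = w s := by
  obtain ⟨s, hs, hs2⟩ := isCompact_Icc.exists_isMaxOn (nonempty_Icc.2 hab) hw.continuousOn
  refine ⟨s, hs.1, hs.2, le_antisymm ?_ (le_mx hw hs.1 hs.2)⟩
  exact mx_le hab fun t h1 h2 => hs2 ⟨h1, h2⟩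

lemma T1_le_iff {w : ℝ≥0 → ℝ} (hw : Nice w) (t : ℝ≥0) : T1 w ≤ t ↔ 1 ≤ mx w 0 t := by
  constructor
  · intro h
    have := le_mx hw.cont (a := 0) zero_le h
    rwa [T1_eq hw] at this
  · intro h
    obtain ⟨s, _, h2, h3⟩ := exists_max hw.cont (zero_le : (0 : ℝ≥0) ≤ t)
    rw [h3] at h
    exact (T1_le h).trans h2

lemma spc_iff {w : ℝ≥0 → ℝ} (hw : Continuous w) :
    Spc w ↔ mx w 0 (1 / 4) < 1 / 2 ∧ mx w (1 / 4) 3 < -(1 / 2) := by
  have h3 : (1 / 4 : ℝ≥0) ≤ 3 := by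
    rw [← NNReal.coe_le_coe]; push_cast; norm_num
  constructor
  · rintro ⟨h1, h2⟩
    obtain ⟨s, _, hs2, hs3⟩ := exists_max hw (zero_le : (0 : ℝ≥0) ≤ 1 / 4)
    obtain ⟨s', hs1', hs2', hs3'⟩ := exists_max hw h3
    rw [hs3, hs3']
    exact ⟨h1 s hs2, h2 s' hs1' hs2'⟩
  · rintro ⟨h1, h2⟩
    exact ⟨fun t ht => (le_mx hw zero_le ht).trans_lt h1,
      fun t ht ht' => (le_mx hw ht ht').trans_lt h2⟩

end PM

/-- Piece PATH. -/
theorem piecePATH : StmPATH := fun w hw =>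
  ⟨PM.nice_sh hw, PM.T1_eq hw, by
    rw [pos_iff_ne_zero]
    intro h
    have h1 := PM.T1_mem hw
    rw [h, hw.zero] at h1
    linarith,
   fun t ht => by
    by_contra hcon
    exact absurd (PM.T1_le (not_lt.1 hcon)) (not_le.2 ht),
   fun t ht => PM.T1_le ht⟩

/-- Piece MEAS. -/
theorem pieceMEAS : StmMEAS.{u} := by
  intro Ω _ X hX hN
  have hpath : Measurable (fun ω => path X ω) := measurable_pi_lambda _ fun t => hX t
  have hmx : ∀ a b : ℝ≥0, Measurable (fun ω => mx (path X ω) a b) := fun a b =>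
    (measurable_mx a b).comp hpath
  have hT : Measurable (fun ω => T1 (path X ω)) := by
    refine measurable_of_Iic fun t => ?_
    have : (fun ω => T1 (path X ω)) ⁻¹' Iic t = {ω | 1 ≤ mx (path X ω) 0 t} := by
      ext ω
      exact PM.T1_le_iff (hN ω) t
    rw [this]
    exact measurableSet_le measurable_const (hmx 0 t)
  refine ⟨hT, ?_, ?_⟩
  · have : {ω | Spc (path X ω)} = {ω | mx (path X ω) 0 (1 / 4) < 1 / 2} ∩
        {ω | mx (path X ω) (1 / 4) 3 < -(1 / 2)} := by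
      ext ω
      exact PM.spc_iff (hN ω).cont
    rw [this]
    exact (measurableSet_lt (hmx _ _) measurable_const).inter
      (measurableSet_lt (hmx _ _) measurable_const)
  · intro t
    have hu : Measurable (Function.uncurry X) :=
      measurable_uncurry_of_continuous_of_measurable (fun ω => (hN ω).cont) hX
    have h1 : Measurable (fun ω => X (T1 (path X ω) + t) ω) :=
      hu.comp ((hT.add_const t).prodMk measurable_id)
    have h2 : Measurable (fun ω => X (T1 (path X ω)) ω) :=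
      hu.comp (hT.prodMk measurable_id)
    exact h1.sub h2

end Pool.Agent.R977.SC
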