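import Pool.Agent.R977.SC.Stm

/-!
SC-POS: positive probability of the block events.
-/

set_option autoImplicit false

open MeasureTheory ProbabilityTheory Filter Topology Set
open scoped ENNReal NNReal

namespace Pool.Agent.R977.SC

open Pool.Agent.R974.Span

universe u

namespace PosP

section

variable {Ω : Type*} [MeasurableSpace Ω] {P : Measure Ω} {B B' : ℝ≥0 → Ω → ℝ}

/-- two Brownian motions have the same law -/
lemma law_eq (hB : GBM B P) (hB' : GBM B' P) :
    P.map (fun ω (t : ℝ≥0) => B t ω) = P.map (fun ω (t : ℝ≥0) => B' t ω) := by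
  have h1 : ∀ {X : ℝ≥0 → Ω → ℝ}, GBM X P →
      IsProjectiveLimit (P.map (fun ω (t : ℝ≥0) => X t ω)) BrownianReal.projectiveFamily := by
    intro X hX I
    rw [Measure.map_map (by fun_prop) (measurable_pi_lambda _ fun t => hX.meas t)]
    exact (hX.pre.hasLaw I).map_eq
  exact IsProjectiveLimit.unique (h1 hB) (h1 hB')

/-- the one step event in path space -/
def ES (h c : ℝ) (δ : ℝ≥0) : Set (ℝ≥0 → ℝ) := {w | mx w 0 δ < h ∧ w δ ≤ c}

lemma measES (h c : ℝ) (δ : ℝ≥0) : MeasurableSet (ES h c δ) :=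
  (measurableSet_lt (measurable_mx 0 δ) measurable_const).inter
    (measurableSet_le (measurable_pi_apply δ) measurable_const)

lemma meas_pth (hB : GBM B P) : Measurable (fun ω (t : ℝ≥0) => B t ω) :=
  measurable_pi_lambda _ fun t => hB.meas t

lemma ES_eq (hB : GBM B P) (hB' : GBM B' P) (h c : ℝ) (δ : ℝ≥0) :
    P {ω | mx (fun t => B t ω) 0 δ < h ∧ B δ ω ≤ c} =
      P {ω | mx (fun t => B' t ω) 0 δ < h ∧ B' δ ω ≤ c} := by
  have h1 := congrArg (fun m : Measure (ℝ≥0 → ℝ) => m (ES h c δ)) (law_eq hB hB')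
  beta_reduce at h1
  rw [Measure.map_apply (meas_pth hB) (measES h c δ),
    Measure.map_apply (meas_pth hB') (measES h c δ)] at h1
  exact h1

/-- the Markov property for the events -/
lemma two (hB : GBM B P) (s u : ℝ≥0) (h h' c c' : ℝ) :
    P ({ω | mx (fun t => B (s + t) ω - B s ω) 0 u < h' ∧ B (s + u) ω - B s ω ≤ c'} ∩
        {ω | mx (fun t => B t ω) 0 s < h ∧ B s ω ≤ c}) =
      P {ω | mx (fun t => B (s + t) ω - B s ω) 0 u < h' ∧ B (s + u) ω - B s ω ≤ c'} *
        P {ω | mx (fun t => B t ω) 0 s < h ∧ B s ω ≤ c} := by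
  have hext : Measurable (fun (g : Set.Iic s → ℝ) (t : ℝ≥0) =>
      g ⟨min t s, Set.mem_Iic.mpr (min_le_right _ _)⟩) := by fun_prop
  have h1 := (hB.pre.indepFun_shift s).measure_inter_preimage_eq_mul _ _ (measES h' c' u)
    (hext (measES h c s))
  have h2 : (fun ω (t : Set.Iic s) => B t ω) ⁻¹' ((fun (g : Set.Iic s → ℝ) (t : ℝ≥0) =>
      g ⟨min t s, Set.mem_Iic.mpr (min_le_right _ _)⟩) ⁻¹' ES h c s) =
      {ω | mx (fun t => B t ω) 0 s < h ∧ B s ω ≤ c} := by
    ext ω
    have h3 : mx (fun t : ℝ≥0 => B (min t s) ω) 0 s = mx (fun t => B t ω) 0 s := by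
      unfold mx
      congr 1
      funext n
      have : max 0 (min (dq n) s) ≤ s := max_le zero_le (min_le_right _ _)
      beta_reduce
      rw [min_eq_left this]
    constructor
    · intro hω
      have hω' : mx (fun t : ℝ≥0 => B (min t s) ω) 0 s < h ∧ B (min s s) ω ≤ c := hω
      rw [h3, min_self] at hω'
      exact hω'
    · intro hω
      have hω' : mx (fun t : ℝ≥0 => B (min t s) ω) 0 s < h ∧ B (min s s) ω ≤ c := by
        rw [h3, min_self]
        exact hω
      exact hω'
  rw [h2] at h1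
  exact h1

lemma mx_mono {w : ℝ≥0 → ℝ} (hw : Continuous w) {a b : ℝ≥0} (hab : a ≤ b) :
    mx w 0 a ≤ mx w 0 b :=
  mx_le zero_le fun _ _ h2 => le_mx hw zero_le (h2.trans hab)

/-- positivity of Gaussian half lines -/
lemma gauss_pos {v : ℝ≥0} (hv : v ≠ 0) {S : Set ℝ} (hS : volume S ≠ 0) :
    gaussianReal 0 v S ≠ 0 := fun h => hS (gaussianReal_absolutelyContinuous' 0 hv h)

lemma tail_zero (hB : GBM B P) {h : ℝ} (hh : 0 < h) (t : ℝ≥0) {q : ℝ≥0∞} (hq : 0 < q) :
    ∃ n : ℕ, P {ω | h ≤ mx (fun s => B s ω) 0 (t / (n + 1))} < q := by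
  have := hB.prob
  have hanti : Antitone fun n : ℕ => {ω | h ≤ mx (fun s => B s ω) 0 (t / (n + 1))} := by
    intro n m hnm ω hω
    have hω' : h ≤ mx (fun s => B s ω) 0 (t / (m + 1)) := hω
    refine hω'.trans (mx_mono (hB.cont ω) ?_)
    have : (n : ℝ≥0) ≤ m := by exact_mod_cast hnm
    gcongr
  have hmeas : ∀ n : ℕ, MeasurableSet {ω | h ≤ mx (fun s => B s ω) 0 (t / (n + 1))} := by
    intro n
    exact measurableSet_le measurable_const ((measurable_mx 0 _).comp (meas_pth hB))
  have hlim := tendsto_measure_iInter_atTop (μ := P) (fun n => (hmeas n).nullMeasurableSet) hanti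
    ⟨0, measure_ne_top P _⟩
  have hempty : ⋂ n : ℕ, {ω | h ≤ mx (fun s => B s ω) 0 (t / (n + 1))} = ∅ := by
    rw [Set.eq_empty_iff_forall_notMem]
    intro ω hω
    rw [Set.mem_iInter] at hω
    have hc : Continuous fun s => B s ω := hB.cont ω
    have h1 : ∀ᶠ s in 𝓝 (0 : ℝ≥0), B s ω < h / 2 := by
      have h2 := hc.tendsto 0
      beta_reduce at h2
      rw [hB.zero ω] at h2
      exact h2.eventually (gt_mem_nhds (by positivity))
    obtain ⟨ε, hε, h3⟩ := Metric.eventually_nhds_iff.1 h1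
    obtain ⟨n, hn⟩ := exists_nat_gt ((t : ℝ) / ε)
    have hδ : ((t / (n + 1) : ℝ≥0) : ℝ) < ε := by
      push_cast
      rw [div_lt_iff₀ hε] at hn
      rw [div_lt_iff₀ (by positivity)]
      nlinarith
    have h4 : mx (fun s => B s ω) 0 (t / (n + 1)) ≤ h / 2 := by
      refine mx_le zero_le fun s _ hs => (h3 ?_).le
      rw [NNReal.dist_eq, NNReal.coe_zero, sub_zero, abs_of_nonneg (NNReal.coe_nonneg s)]
      exact lt_of_le_of_lt (by exact_mod_cast hs) hδ
    have h5 : h ≤ mx (fun s => B s ω) 0 (t / (n + 1)) := hω n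
    linarith
  rw [hempty, measure_empty] at hlim
  exact (hlim.eventually (gt_mem_nhds hq)).exists

lemma one_step (hB : GBM B P) {h D : ℝ} (hh : 0 < h) (hD : 0 ≤ D) {t : ℝ≥0} (ht : 0 < t) :
    ∃ n : ℕ, P {ω | mx (fun s => B s ω) 0 (t / (n + 1)) < h ∧
      B (t / (n + 1)) ω ≤ -(D / (n + 1))} ≠ 0 := by
  have := hB.prob
  have ht' : (0 : ℝ) < t := by exact_mod_cast ht
  have hq : 0 < gaussianReal 0 1 (Iic (-(D / √(t : ℝ)))) := by
    rw [pos_iff_ne_zero]
    refine gauss_pos one_ne_zero ?_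
    rw [Real.volume_Iic]
    exact ENNReal.top_ne_zero
  obtain ⟨n, hn⟩ := tail_zero hB hh t hq
  refine ⟨n, fun h0 => ?_⟩
  have hlow : gaussianReal 0 1 (Iic (-(D / √(t : ℝ)))) ≤
      P {ω | B (t / (n + 1)) ω ≤ -(D / (n + 1))} := by
    have h1 : P {ω | B (t / (n + 1)) ω ≤ -(D / (n + 1))} =
        gaussianReal 0 (t / (n + 1)) (Iic (-(D / (n + 1)))) := by
      rw [← (hB.pre.hasLaw_eval (t / (n + 1))).map_eq,
        Measure.map_apply (hB.meas _) measurableSet_Iic]
      rfl
    have h2 : (gaussianReal 0 1).map (fun x => √((t / (n + 1) : ℝ≥0) : ℝ) * x) =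
        gaussianReal 0 (t / (n + 1)) := by
      rw [gaussianReal_map_const_mul (μ := 0) (v := 1) (√((t / (n + 1) : ℝ≥0) : ℝ))]
      congr 1
      · simp
      · apply NNReal.eq
        push_cast
        rw [Real.sq_sqrt (by positivity)]
        simp
    rw [h1, ← h2, Measure.map_apply (measurable_const_mul _) measurableSet_Iic]
    refine measure_mono fun x hx => ?_
    rw [mem_Iic] at hx
    rw [mem_preimage, mem_Iic]
    have hs0 : 0 < √(t : ℝ) := Real.sqrt_pos.2 ht'
    have hn1 : (1 : ℝ) ≤ n + 1 := by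
      have := Nat.cast_nonneg (α := ℝ) n
      linarith
    have hs1 : √((t / (n + 1) : ℝ≥0) : ℝ) = √(t : ℝ) / √((n : ℝ) + 1) := by
      push_cast
      exact Real.sqrt_div ht'.le _
    rw [hs1]
    have hs2 : 0 < √((n : ℝ) + 1) := Real.sqrt_pos.2 (by linarith)
    have hs3 : √((n : ℝ) + 1) ≤ n + 1 := by
      rw [Real.sqrt_le_left (by linarith)]
      nlinarith
    calc √(t : ℝ) / √((n : ℝ) + 1) * x ≤ √(t : ℝ) / √((n : ℝ) + 1) * (-(D / √(t : ℝ))) :=
          mul_le_mul_of_nonneg_left hx (by positivity)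
      _ = -(D / √((n : ℝ) + 1)) := by field_simp
      _ ≤ -(D / (n + 1)) := by
          rw [neg_le_neg_iff]
          exact div_le_div_of_nonneg_left hD hs2 hs3
  have hle : P {ω | B (t / (n + 1)) ω ≤ -(D / (n + 1))} ≤
      P {ω | mx (fun s => B s ω) 0 (t / (n + 1)) < h ∧ B (t / (n + 1)) ω ≤ -(D / (n + 1))} +
        P {ω | h ≤ mx (fun s => B s ω) 0 (t / (n + 1))} := by
    refine (measure_mono ?_).trans (measure_union_le _ _)
    intro ω hω
    rcases lt_or_ge (mx (fun s => B s ω) 0 (t / (n + 1))) h with h1 | h1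
    · left
      exact ⟨h1, hω⟩
    · right
      exact h1
  rw [h0, zero_add] at hle
  exact absurd (hlow.trans hle) (not_le.2 hn)

/-- the path stays below `h` and ends below `-D` with positive probability -/
lemma down (hB : GBM B P) {h D : ℝ} (hh : 0 < h) (hD : 0 ≤ D) {t : ℝ≥0} (ht : 0 < t) :
    P {ω | mx (fun s => B s ω) 0 t < h ∧ B t ω ≤ -D} ≠ 0 := by
  have := hB.prob
  obtain ⟨n, hn⟩ := one_step hB hh hD ht
  set δ : ℝ≥0 := t / (n + 1) with hδ
  have key : ∀ k : ℕ, P {ω | mx (fun s => B s ω) 0 (k * δ) < h ∧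
      B (k * δ) ω ≤ -(k * (D / (n + 1)))} ≠ 0 := by
    intro k
    induction k with
    | zero =>
      have h1 : {ω | mx (fun s => B s ω) 0 (((0 : ℕ) : ℝ≥0) * δ) < h ∧
          B (((0 : ℕ) : ℝ≥0) * δ) ω ≤ -(((0 : ℕ) : ℝ) * (D / (n + 1)))} = univ := by
        refine Set.eq_univ_of_forall fun ω => ?_
        constructor
        · refine lt_of_le_of_lt (mx_le (c := 0) zero_le fun s _ hs => ?_) hh
          have h2 : s = 0 := by
            apply le_antisymm _ zero_le
            simpa using hs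
          rw [h2, hB.zero ω]
        · simp [hB.zero ω]
      rw [h1, measure_univ]
      exact one_ne_zero
    | succ k ih =>
      have hS := hB.shift (k * δ)
      have h1 : P {ω | mx (fun s => B (k * δ + s) ω - B (k * δ) ω) 0 δ < h ∧
          B (k * δ + δ) ω - B (k * δ) ω ≤ -(D / (n + 1))} ≠ 0 := by
        have h2 := ES_eq hS hB h (-(D / (n + 1))) δ
        rw [h2]
        exact hn
      have h3 := two hB (k * δ) δ h h (-(k * (D / (n + 1)))) (-(D / (n + 1)))
      intro h0
      have h4 : P ({ω | mx (fun s => B (k * δ + s) ω - B (k * δ) ω) 0 δ < h ∧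
          B (k * δ + δ) ω - B (k * δ) ω ≤ -(D / (n + 1))} ∩
          {ω | mx (fun s => B s ω) 0 (k * δ) < h ∧ B (k * δ) ω ≤ -(k * (D / (n + 1)))}) = 0 := by
        refine measure_mono_null ?_ h0
        rintro ω ⟨⟨ha, hb⟩, hc, hd⟩
        have hkk : (((k + 1 : ℕ) : ℝ≥0)) * δ = k * δ + δ := by
          push_cast
          ring
        have hd0 : B (k * δ) ω ≤ 0 := by
          refine hd.trans ?_
          have : (0 : ℝ) ≤ k * (D / (n + 1)) := by positivity
          linarith
        constructor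
        · refine lt_of_le_of_lt (mx_le (c := max (mx (fun s => B s ω) 0 (k * δ))
            (mx (fun s => B (k * δ + s) ω - B (k * δ) ω) 0 δ)) zero_le fun s _ hs => ?_)
            (max_lt hc ha)
          rcases le_total s (k * δ) with h5 | h5
          · exact (le_mx (w := fun s => B s ω) (hB.cont ω) zero_le h5).trans (le_max_left _ _)
          · have h6 : s - k * δ ≤ δ := by
              rw [tsub_le_iff_left]
              rw [hkk] at hs
              exact hs
            have h7 := le_mx (w := fun s => B (k * δ + s) ω - B (k * δ) ω) (hS.cont ω)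
              (a := 0) zero_le h6
            beta_reduce at h7
            rw [add_tsub_cancel_of_le h5] at h7
            refine le_trans ?_ (le_max_right _ _)
            linarith
        · rw [hkk]
          push_cast
          linarith
      rw [h3] at h4
      rcases mul_eq_zero.1 h4 with h5 | h5
      · exact h1 h5
      · exact ih h5
  have h2 := key (n + 1)
  have h3 : (((n + 1 : ℕ) : ℝ≥0)) * δ = t := by
    rw [hδ]
    push_cast
    field_simp
  have h4 : (((n + 1 : ℕ) : ℝ)) * (D / (n + 1)) = D := by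
    push_cast
    field_simp
  rw [h3, h4] at h2
  exact h2

end

end PosP

open PosP in
theorem piecePOS : StmPOS.{u} := by
  intro Ω _ P B hB
  have hG := hB.gbm
  have := hG.prob
  constructor
  · intro h0
    have h1 : P {ω | 1 ≤ B (1 / 8) ω} = 0 := by
      refine measure_mono_null ?_ h0
      intro ω hω
      have h2 : T1 (path B ω) ≤ 1 / 8 := csInf_le (OrderBot.bddBelow _) hω
      exact h2
    have h2 : P {ω | 1 ≤ B (1 / 8) ω} = gaussianReal 0 (1 / 8) (Ici 1) := by
      rw [← (hG.pre.hasLaw_eval (1 / 8)).map_eq, Measure.map_apply (hG.meas _) measurableSet_Ici]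
      rfl
    rw [h2] at h1
    refine gauss_pos (by norm_num) ?_ h1
    rw [Real.volume_Ici]
    exact ENNReal.top_ne_zero
  · have h1 := down hG (h := 1 / 2) (D := 1) (by norm_num) (by norm_num) (t := 1 / 4)
      (by norm_num)
    have h2 := down (hG.shift (1 / 4)) (h := 1 / 2) (D := 0) (by norm_num) le_rfl (t := 11 / 4)
      (by norm_num)
    have h3 := two hG (1 / 4) (11 / 4) (1 / 2) (1 / 2) (-1) (-0)
    intro h0
    have h4 : P ({ω | mx (fun t => B (1 / 4 + t) ω - B (1 / 4) ω) 0 (11 / 4) < 1 / 2 ∧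
        B (1 / 4 + 11 / 4) ω - B (1 / 4) ω ≤ -0} ∩
        {ω | mx (fun t => B t ω) 0 (1 / 4) < 1 / 2 ∧ B (1 / 4) ω ≤ -1}) = 0 := by
      refine measure_mono_null ?_ h0
      rintro ω ⟨⟨ha, -⟩, hc, hd⟩
      constructor
      · intro t ht
        exact lt_of_le_of_lt (le_mx (w := fun s => B s ω) (hG.cont ω) zero_le ht) hc
      · intro t ht1 ht2
        have h6 : t - 1 / 4 ≤ 11 / 4 := by
          rw [tsub_le_iff_left]
          refine ht2.trans (le_of_eq ?_)
          norm_num
        have h7 := le_mx (w := fun s => B (1 / 4 + s) ω - B (1 / 4) ω) ((hG.shift (1 / 4)).cont ω)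
          (a := 0) zero_le h6
        beta_reduce at h7
        rw [add_tsub_cancel_of_le ht1] at h7
        have h8 : path B ω t = B t ω := rfl
        rw [h8]
        linarith
    rw [h3] at h4
    rcases mul_eq_zero.1 h4 with h5 | h5
    · exact h2 h5
    · exact h1 h5

end Pool.Agent.R977.SC
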