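import Pool.Agent.R977.SC.Stm

open MeasureTheory ProbabilityTheory Filter Topology Set
open scoped ENNReal NNReal

/-! SC-SM: strong Markov property of Brownian motion at the first passage time of level `1`. -/

namespace Pool.Agent.R977.SC

open Pool.Agent.R974.Span

universe u

/-! ### deterministic part -/

lemma sm_mx_congr {w w' : ℝ≥0 → ℝ} {x y : ℝ≥0} (hxy : x ≤ y) (h : ∀ r, r ≤ y → w r = w' r) :
    mx w x y = mx w' x y := by
  unfold mx
  congr 1
  funext n
  exact h _ (max_le hxy (min_le_right _ _))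

lemma sm_mx_attained {w : ℝ≥0 → ℝ} (hw : Continuous w) {a b : ℝ≥0} (hab : a ≤ b) :
    ∃ s, a ≤ s ∧ s ≤ b ∧ mx w a b = w s := by
  obtain ⟨s, hs, hmax⟩ := isCompact_Icc.exists_isMaxOn (nonempty_Icc.2 hab) hw.continuousOn
  exact ⟨s, hs.1, hs.2, le_antisymm (mx_le hab fun r h1 h2 => hmax ⟨h1, h2⟩) (le_mx hw hs.1 hs.2)⟩

/-- measurable version of `Spc` -/
def Spm (w : ℝ≥0 → ℝ) : Prop := mx w 0 (1 / 4) < 1 / 2 ∧ mx w (1 / 4) 3 < -(1 / 2)

lemma sm_quarter_le : (1 / 4 : ℝ≥0) ≤ 3 := by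
  rw [← NNReal.coe_le_coe]
  push_cast
  norm_num

lemma sm_spc_iff {w : ℝ≥0 → ℝ} (hw : Continuous w) : Spc w ↔ Spm w := by
  constructor
  · rintro ⟨h1, h2⟩
    obtain ⟨s, hs1, hs2, hs3⟩ := sm_mx_attained hw (a := 0) (b := 1 / 4) zero_le
    obtain ⟨r, hr1, hr2, hr3⟩ := sm_mx_attained hw sm_quarter_le
    exact ⟨hs3 ▸ h1 s hs2, hr3 ▸ h2 r hr1 hr2⟩
  · rintro ⟨h1, h2⟩
    exact ⟨fun t ht => lt_of_le_of_lt (le_mx hw zero_le ht) h1,
      fun t ht1 ht2 => lt_of_le_of_lt (le_mx hw ht1 ht2) h2⟩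

lemma sm_measurableSet_Spm : MeasurableSet {w : ℝ≥0 → ℝ | Spm w} :=
  (measurableSet_lt (measurable_mx _ _) measurable_const).inter
    (measurableSet_lt (measurable_mx _ _) measurable_const)

lemma sm_T1_le (h1 : StmPATH) {w : ℝ≥0 → ℝ} (hw : Nice w) (t : ℝ≥0) :
    T1 w ≤ t ↔ 1 ≤ mx w 0 t := by
  obtain ⟨_, e1, _, _, e4⟩ := h1 w hw
  constructor
  · intro h
    rw [← e1]
    exact le_mx hw.cont zero_le h
  · intro h
    obtain ⟨s, _, hs2, hs3⟩ := sm_mx_attained hw.cont (a := 0) (b := t) zero_le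
    exact (e4 s (hs3 ▸ h)).trans hs2

lemma sm_spc_loc (h1 : StmPATH) {w : ℝ≥0 → ℝ} (hw : Nice w) {t : ℝ≥0} (ht : T1 w ≤ t) :
    Spc w ↔ (3 ≤ t ∧ Spm w) := by
  rw [sm_spc_iff hw.cont]
  constructor
  · intro h
    refine ⟨?_, h⟩
    by_contra hcon
    push Not at hcon
    have hS := (sm_spc_iff hw.cont).2 h
    obtain ⟨_, e1, _⟩ := h1 w hw
    have hT3 : T1 w ≤ 3 := ht.trans hcon.le
    rcases le_total (T1 w) (1 / 4) with h5 | h5
    · have := hS.1 _ h5
      rw [e1] at this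
      norm_num at this
    · have := hS.2 _ h5 hT3
      rw [e1] at this
      norm_num at this
  · exact fun h => h.2

/-- dyadic times -/
noncomputable def tk (n k : ℕ) : ℝ≥0 := k / 2 ^ n

lemma tk_mono (n : ℕ) {j k : ℕ} (h : j ≤ k) : tk n j ≤ tk n k := by
  unfold tk
  have : (j : ℝ≥0) ≤ k := by exact_mod_cast h
  gcongr

/-- local version of the event `T1 ≤ u, Spc ∈ D, ⌈2 ^ n T1⌉ = k` -/
def Ek (v : ℝ≥0) (D : Set Prop) (n k : ℕ) : Set (ℝ≥0 → ℝ) :=
  {w | 1 ≤ mx w 0 (min v (tk n k)) ∧ (∀ j < k, ¬ 1 ≤ mx w 0 (tk n j)) ∧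
    (3 ≤ tk n k ∧ Spm w) ∈ D}

lemma measurableSet_Ek (v : ℝ≥0) (D : Set Prop) (n k : ℕ) : MeasurableSet (Ek v D n k) := by
  have e : Ek v D n k = {w | 1 ≤ mx w 0 (min v (tk n k))} ∩
      ((⋂ j, ⋂ (_ : j < k), {w | 1 ≤ mx w 0 (tk n j)}ᶜ) ∩
        (fun w => (3 ≤ tk n k ∧ Spm w)) ⁻¹' D) := by
    ext w
    simp [Ek]
  rw [e]
  refine (measurableSet_le measurable_const (measurable_mx _ _)).inter (MeasurableSet.inter ?_ ?_)
  · exact MeasurableSet.iInter fun j => MeasurableSet.iInter fun _ =>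
      (measurableSet_le measurable_const (measurable_mx _ _)).compl
  · have h1 : Measurable (fun w : ℝ≥0 → ℝ => (3 ≤ tk n k ∧ Spm w)) := by
      rw [← measurableSet_setOfPred]
      by_cases h3 : 3 ≤ tk n k
      · simp only [h3, true_and]
        exact sm_measurableSet_Spm
      · simp only [h3, false_and]
        exact MeasurableSet.const _
    exact h1 trivial

lemma Ek_local (v : ℝ≥0) (D : Set Prop) (n k : ℕ) (w w' : ℝ≥0 → ℝ)
    (h : ∀ r, r ≤ tk n k → w r = w' r) : w ∈ Ek v D n k ↔ w' ∈ Ek v D n k := by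
  have e1 : mx w 0 (min v (tk n k)) = mx w' 0 (min v (tk n k)) :=
    sm_mx_congr zero_le fun r hr => h r (hr.trans (min_le_right _ _))
  have e2 : ∀ j < k, mx w 0 (tk n j) = mx w' 0 (tk n j) := fun j hj =>
    sm_mx_congr zero_le fun r hr => h r (hr.trans (tk_mono n hj.le))
  have e3 : (3 ≤ tk n k ∧ Spm w) = (3 ≤ tk n k ∧ Spm w') := by
    apply propext
    constructor
    · rintro ⟨h3, h4⟩
      refine ⟨h3, ?_⟩
      have f1 : mx w 0 (1 / 4) = mx w' 0 (1 / 4) :=
        sm_mx_congr zero_le fun r hr => h r ((hr.trans sm_quarter_le).trans h3)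
      have f2 : mx w (1 / 4) 3 = mx w' (1 / 4) 3 :=
        sm_mx_congr sm_quarter_le fun r hr => h r (hr.trans h3)
      unfold Spm
      rw [← f1, ← f2]
      exact h4
    · rintro ⟨h3, h4⟩
      refine ⟨h3, ?_⟩
      have f1 : mx w 0 (1 / 4) = mx w' 0 (1 / 4) :=
        sm_mx_congr zero_le fun r hr => h r ((hr.trans sm_quarter_le).trans h3)
      have f2 : mx w (1 / 4) 3 = mx w' (1 / 4) 3 :=
        sm_mx_congr sm_quarter_le fun r hr => h r (hr.trans h3)
      unfold Spm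
      rw [f1, f2]
      exact h4
  simp only [Ek, Set.mem_ofPred_eq, e1, e3]
  constructor
  · rintro ⟨a, b, c⟩
    exact ⟨a, fun j hj => by rw [← e2 j hj]; exact b j hj, c⟩
  · rintro ⟨a, b, c⟩
    exact ⟨a, fun j hj => by rw [e2 j hj]; exact b j hj, c⟩

lemma mem_Ek_iff (h1 : StmPATH) (v : ℝ≥0) (D : Set Prop) (n k : ℕ) {w : ℝ≥0 → ℝ} (hw : Nice w) :
    w ∈ Ek v D n k ↔ (T1 w ≤ v ∧ Spc w ∈ D) ∧ ⌈T1 w * 2 ^ n⌉₊ = k := by
  have hceil : ∀ j : ℕ, ⌈T1 w * 2 ^ n⌉₊ ≤ j ↔ T1 w ≤ tk n j := by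
    intro j
    rw [Nat.ceil_le, tk, le_div_iff₀ (by positivity)]
  simp only [Ek, Set.mem_ofPred_eq, ← sm_T1_le h1 hw, ← hceil]
  rw [le_min_iff, ← hceil]
  constructor
  · rintro ⟨⟨a1, a2⟩, b, c⟩
    have h3 : ⌈T1 w * 2 ^ n⌉₊ = k := by
      rcases Nat.lt_or_ge ⌈T1 w * 2 ^ n⌉₊ k with h | h
      · exact absurd le_rfl (b _ h)
      · omega
    refine ⟨⟨a1, ?_⟩, h3⟩
    rwa [propext (sm_spc_loc h1 hw ((hceil k).1 a2))]
  · rintro ⟨⟨a1, a2⟩, h3⟩
    refine ⟨⟨a1, h3.le⟩, fun j hj h4 => by omega, ?_⟩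
    rwa [← propext (sm_spc_loc h1 hw ((hceil k).1 h3.le))]

/-! ### laws -/

section
variable {Ω : Type*} [MeasurableSpace Ω] {P : Measure Ω} {B : ℝ≥0 → Ω → ℝ}

lemma sm_meas_path (hm : ∀ t, Measurable (B t)) : Measurable (path B) :=
  measurable_pi_lambda _ fun t => hm t

lemma sm_projlim (hm : ∀ t, Measurable (B t)) :
    IsProjectiveLimit (P.map (path B)) (fun I : Finset ℝ≥0 => P.map fun ω => I.restrict (path B ω)) := by
  intro I
  rw [Measure.map_map (Finset.measurable_restrict I) (sm_meas_path hm)]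
  rfl

lemma sm_law_eq {B' : ℝ≥0 → Ω → ℝ} (hB : GBM B P) (hB' : GBM B' P) :
    P.map (path B) = P.map (path B') := by
  have := hB.prob
  have h1 := sm_projlim (P := P) hB.meas
  have h2 := sm_projlim (P := P) hB'.meas
  have h3 : (fun I : Finset ℝ≥0 => P.map fun ω => I.restrict (path B ω)) =
      (fun I : Finset ℝ≥0 => P.map fun ω => I.restrict (path B' ω)) := by
    funext I
    exact (hB.pre.hasLaw I).map_eq.trans (hB'.pre.hasLaw I).map_eq.symm
  rw [← h3] at h2
  exact h1.unique h2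

/-- the shifted path -/
def Bs (B : ℝ≥0 → Ω → ℝ) (s : ℝ≥0) (ω : Ω) : ℝ≥0 → ℝ := fun t => B (s + t) ω - B s ω

lemma sm_key2 (hB : GBM B P) (s : ℝ≥0) {A E : Set (ℝ≥0 → ℝ)} (hA : MeasurableSet A)
    (hE : MeasurableSet E)
    (hloc : ∀ w w' : ℝ≥0 → ℝ, (∀ r, r ≤ s → w r = w' r) → (w ∈ E ↔ w' ∈ E)) :
    P ({ω | Bs B s ω ∈ A} ∩ {ω | path B ω ∈ E}) = P {ω | path B ω ∈ A} * P {ω | path B ω ∈ E} := by
  have h1 := hB.pre.indepFun_shift s
  set ext : (Set.Iic s → ℝ) → (ℝ≥0 → ℝ) := fun g t => g ⟨min t s, Set.mem_Iic.mpr (min_le_right _ _)⟩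
    with hext
  have hextm : Measurable ext := by
    rw [hext]
    fun_prop
  have h2 := h1.measure_inter_preimage_eq_mul _ _ hA (hextm hE)
  have h3 : (fun ω (t : Set.Iic s) => B t ω) ⁻¹' (ext ⁻¹' E) = {ω | path B ω ∈ E} := by
    ext ω
    simp only [Set.mem_preimage, Set.mem_ofPred_eq]
    apply hloc
    intro r hr
    simp only [hext, path, min_eq_left hr]
  rw [h3] at h2
  have h4 : P ((fun ω t => B (s + t) ω - B s ω) ⁻¹' A) = P {ω | path B ω ∈ A} := by
    have h5 := sm_law_eq hB (hB.shift s)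
    have h6 : P.map (path B) A = P {ω | path B ω ∈ A} :=
      Measure.map_apply (sm_meas_path hB.meas) hA
    have h7 : P.map (path fun t ω => B (s + t) ω - B s ω) A =
        P ((fun ω t => B (s + t) ω - B s ω) ⁻¹' A) :=
      Measure.map_apply (sm_meas_path (hB.shift s).meas) hA
    rw [← h6, ← h7, h5]
  rw [h4] at h2
  exact h2

lemma sm_measurable_uncurry (hB : GBM B P) : Measurable (Function.uncurry B) :=
  measurable_uncurry_of_continuous_of_measurable hB.cont hB.meas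

lemma sm_measurable_Bs (hB : GBM B P) {S : Ω → ℝ≥0} (hS : Measurable S) :
    Measurable (fun ω => Bs B (S ω) ω) := by
  refine measurable_pi_lambda _ fun t => ?_
  have h1 : Measurable (fun ω => Function.uncurry B (S ω + t, ω)) :=
    (sm_measurable_uncurry hB).comp ((hS.add_const t).prodMk measurable_id)
  have h2 : Measurable (fun ω => Function.uncurry B (S ω, ω)) :=
    (sm_measurable_uncurry hB).comp (hS.prodMk measurable_id)
  exact h1.sub h2

/-- the event `T1 ≤ v, Spc ∈ D` -/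
def Fv (B : ℝ≥0 → Ω → ℝ) (v : ℝ≥0) (D : Set Prop) : Set Ω :=
  {ω | T1 (path B ω) ≤ v ∧ Spc (path B ω) ∈ D}

/-- dyadic approximation of `T1` -/
noncomputable def Tn (B : ℝ≥0 → Ω → ℝ) (n : ℕ) (ω : Ω) : ℝ≥0 := tk n ⌈T1 (path B ω) * 2 ^ n⌉₊

lemma sm_measurable_Tn (hT : Measurable fun ω => T1 (path B ω)) (n : ℕ) :
    Measurable (Tn B n) := by
  have h1 : Measurable (fun ω => ⌈T1 (path B ω) * 2 ^ n⌉₊) :=
    Nat.measurable_ceil.comp (hT.mul_const _)
  exact (measurable_from_top (f := tk n)).comp h1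

lemma sm_key3 (h1 : StmPATH) (hB : HBM B P) (v : ℝ≥0) (D : Set Prop) (n : ℕ)
    {A : Set (ℝ≥0 → ℝ)} (hA : MeasurableSet A) :
    P ({ω | Bs B (Tn B n ω) ω ∈ A} ∩ Fv B v D) = P (Fv B v D) * P {ω | path B ω ∈ A} := by
  have e0 : ∀ k, MeasurableSet {ω | path B ω ∈ Ek v D n k} := fun k =>
    (sm_meas_path hB.gbm.meas) (measurableSet_Ek v D n k)
  have e0' : ∀ k, MeasurableSet {ω | Bs B (tk n k) ω ∈ A} := fun k =>
    (sm_measurable_Bs hB.gbm (measurable_const (a := tk n k))) hA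
  have hdis : ∀ (j k : ℕ), j ≠ k →
      Disjoint {ω | path B ω ∈ Ek v D n j} {ω | path B ω ∈ Ek v D n k} := by
    intro j k hjk
    rw [Set.disjoint_left]
    intro ω hj hk
    have h3 := ((mem_Ek_iff h1 v D n j (hB.nice ω)).1 hj).2
    have h4 := ((mem_Ek_iff h1 v D n k (hB.nice ω)).1 hk).2
    exact hjk (h3.symm.trans h4)
  have e1 : Fv B v D = ⋃ k, {ω | path B ω ∈ Ek v D n k} := by
    ext ω
    simp only [Set.mem_iUnion, Set.mem_ofPred_eq, Fv]
    constructor
    · intro h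
      exact ⟨_, (mem_Ek_iff h1 v D n _ (hB.nice ω)).2 ⟨h, rfl⟩⟩
    · rintro ⟨k, hk⟩
      exact ((mem_Ek_iff h1 v D n k (hB.nice ω)).1 hk).1
  have e2 : {ω | Bs B (Tn B n ω) ω ∈ A} ∩ Fv B v D =
      ⋃ k, ({ω | Bs B (tk n k) ω ∈ A} ∩ {ω | path B ω ∈ Ek v D n k}) := by
    ext ω
    simp only [Set.mem_iUnion, Set.mem_inter_iff, Set.mem_ofPred_eq]
    constructor
    · rintro ⟨ha, h⟩
      exact ⟨_, ha, (mem_Ek_iff h1 v D n _ (hB.nice ω)).2 ⟨h, rfl⟩⟩
    · rintro ⟨k, ha, hk⟩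
      have h5 := (mem_Ek_iff h1 v D n k (hB.nice ω)).1 hk
      refine ⟨?_, h5.1⟩
      rw [Tn, h5.2]
      exact ha
  rw [e2, measure_iUnion (fun j k hjk => ((hdis j k hjk).mono inter_subset_right
    inter_subset_right)) (fun k => (e0' k).inter (e0 k))]
  have e3 : ∀ k, P ({ω | Bs B (tk n k) ω ∈ A} ∩ {ω | path B ω ∈ Ek v D n k}) =
      P {ω | path B ω ∈ A} * P {ω | path B ω ∈ Ek v D n k} := fun k =>
    sm_key2 hB.gbm (tk n k) hA (measurableSet_Ek v D n k) (Ek_local v D n k)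
  simp_rw [e3]
  rw [ENNReal.tsum_mul_left, e1, measure_iUnion (fun j k hjk => hdis j k hjk) e0, mul_comm]

omit [MeasurableSpace Ω] in
lemma sm_Tn_tendsto (ω : Ω) : Tendsto (fun n => Tn B n ω) atTop (𝓝 (T1 (path B ω))) := by
  set T := T1 (path B ω) with hT
  have h1 : ∀ n, T ≤ Tn B n ω := by
    intro n
    rw [Tn, tk, le_div_iff₀ (by positivity)]
    exact Nat.le_ceil _
  have h2 : ∀ n, Tn B n ω ≤ T + (1 / 2) ^ n := by
    intro n
    rw [Tn, tk, div_le_iff₀ (by positivity), add_mul, div_pow, one_pow, one_div,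
      inv_mul_cancel₀ (by positivity)]
    exact (Nat.ceil_lt_add_one zero_le).le
  have h3 : Tendsto (fun n : ℕ => T + (1 / 2 : ℝ≥0) ^ n) atTop (𝓝 (T + 0)) :=
    tendsto_const_nhds.add (NNReal.tendsto_pow_atTop_nhds_zero_of_lt_one (by
      rw [← NNReal.coe_lt_coe]; push_cast; norm_num))
  rw [add_zero] at h3
  exact tendsto_of_tendsto_of_tendsto_of_le_of_le tendsto_const_nhds h3 h1 h2

lemma sm_Bs_tendsto (hB : GBM B P) (ω : Ω) (t : ℝ≥0) :
    Tendsto (fun n => Bs B (Tn B n ω) ω t) atTop (𝓝 (sh (path B ω) t)) := by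
  have h1 := sm_Tn_tendsto (B := B) ω
  have hc := hB.cont ω
  have h2 : Tendsto (fun n => B (Tn B n ω + t) ω) atTop (𝓝 (B (T1 (path B ω) + t) ω)) :=
    (hc.tendsto _).comp (h1.add_const t)
  have h3 : Tendsto (fun n => B (Tn B n ω) ω) atTop (𝓝 (B (T1 (path B ω)) ω)) :=
    (hc.tendsto _).comp h1
  exact h2.sub h3

lemma sm_key4 (h1 : StmPATH) (hB : HBM B P) (hT : Measurable fun ω => T1 (path B ω)) (v : ℝ≥0)
    (D : Set Prop) (I : Finset ℝ≥0) (φ : BoundedContinuousFunction (I → ℝ) ℝ≥0) :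
    ∫⁻ ω in Fv B v D, φ (I.restrict (sh (path B ω))) ∂P =
      P (Fv B v D) * ∫⁻ ω, φ (I.restrict (path B ω)) ∂P := by
  have hP := hB.gbm.prob
  have hφm : Measurable fun w : ℝ≥0 → ℝ => (φ (I.restrict w) : ℝ≥0∞) :=
    (measurable_coe_nnreal_ennreal.comp φ.continuous.measurable).comp
      (Finset.measurable_restrict I)
  have hn : ∀ n, ∫⁻ ω in Fv B v D, φ (I.restrict (Bs B (Tn B n ω) ω)) ∂P =
      P (Fv B v D) * ∫⁻ ω, φ (I.restrict (path B ω)) ∂P := by
    intro n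
    have hBn := sm_measurable_Bs hB.gbm (sm_measurable_Tn hT n)
    have e1 : (P.restrict (Fv B v D)).map (fun ω => Bs B (Tn B n ω) ω) =
        P (Fv B v D) • P.map (path B) := by
      ext A hA
      rw [Measure.map_apply hBn hA, Measure.restrict_apply (hBn hA), Measure.smul_apply,
        Measure.map_apply (sm_meas_path hB.gbm.meas) hA, smul_eq_mul]
      exact sm_key3 h1 hB v D n hA
    have e2 : ∫⁻ ω in Fv B v D, φ (I.restrict (Bs B (Tn B n ω) ω)) ∂P =
        ∫⁻ w, φ (I.restrict w) ∂((P.restrict (Fv B v D)).map (fun ω => Bs B (Tn B n ω) ω)) :=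
      (lintegral_map hφm hBn).symm
    rw [e2, e1, lintegral_smul_measure, lintegral_map hφm (sm_meas_path hB.gbm.meas),
      smul_eq_mul]
  have hlim : Tendsto (fun n => ∫⁻ ω in Fv B v D, φ (I.restrict (Bs B (Tn B n ω) ω)) ∂P) atTop
      (𝓝 (∫⁻ ω in Fv B v D, φ (I.restrict (sh (path B ω))) ∂P)) := by
    refine tendsto_lintegral_of_dominated_convergence (fun _ => ((nndist φ 0 : ℝ≥0) : ℝ≥0∞))
      ?_ ?_ ?_ ?_
    · intro n
      exact hφm.comp (sm_measurable_Bs hB.gbm (sm_measurable_Tn hT n))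
    · intro n
      refine Eventually.of_forall fun ω => ?_
      exact ENNReal.coe_le_coe.2 (BoundedContinuousFunction.NNReal.upper_bound φ _)
    · rw [lintegral_const]
      exact ENNReal.mul_ne_top ENNReal.coe_ne_top (measure_ne_top _ _)
    · refine Eventually.of_forall fun ω => ?_
      have h3 : Tendsto (fun n => I.restrict (Bs B (Tn B n ω) ω)) atTop
          (𝓝 (I.restrict (sh (path B ω)))) := by
        rw [tendsto_pi_nhds]
        intro t
        exact sm_Bs_tendsto hB.gbm ω t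
      have h4 : Tendsto (fun n => φ (I.restrict (Bs B (Tn B n ω) ω))) atTop
          (𝓝 (φ (I.restrict (sh (path B ω))))) := (φ.continuous.tendsto _).comp h3
      exact (ENNReal.continuous_coe.tendsto _).comp h4
  simp_rw [hn] at hlim
  exact tendsto_nhds_unique hlim tendsto_const_nhds

lemma sm_key5 (h1 : StmPATH) (hB : HBM B P) (hT : Measurable fun ω => T1 (path B ω))
    (hsh : ∀ t, Measurable fun ω => sh (path B ω) t) (v : ℝ≥0) (D : Set Prop) :
    (P.restrict (Fv B v D)).map (fun ω => sh (path B ω)) = P (Fv B v D) • P.map (path B) := by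
  have hP := hB.gbm.prob
  have hshm : Measurable (fun ω => sh (path B ω)) := measurable_pi_lambda _ hsh
  have hWm := sm_meas_path hB.gbm.meas
  have hfin : IsFiniteMeasure (P (Fv B v D) • P.map (path B)) :=
    Measure.smul_finite _ (measure_ne_top _ _)
  have key : IsProjectiveLimit ((P.restrict (Fv B v D)).map (fun ω => sh (path B ω)))
      (fun I : Finset ℝ≥0 => (P (Fv B v D) • P.map (path B)).map I.restrict) := by
    intro I
    apply ext_of_forall_lintegral_eq_of_IsFiniteMeasure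
    intro φ
    have hφm : Measurable fun x : (I → ℝ) => (φ x : ℝ≥0∞) :=
      measurable_coe_nnreal_ennreal.comp φ.continuous.measurable
    have hφm' : Measurable fun w : ℝ≥0 → ℝ => (φ (I.restrict w) : ℝ≥0∞) :=
      hφm.comp (Finset.measurable_restrict I)
    rw [lintegral_map hφm (Finset.measurable_restrict I), lintegral_map hφm' hshm,
      lintegral_map hφm (Finset.measurable_restrict I), lintegral_smul_measure,
      lintegral_map hφm' hWm, smul_eq_mul]
    exact sm_key4 h1 hB hT v D I φ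
  have key2 : IsProjectiveLimit (P (Fv B v D) • P.map (path B))
      (fun I : Finset ℝ≥0 => (P (Fv B v D) • P.map (path B)).map I.restrict) := fun I => rfl
  exact key.unique key2

/-- the main formula -/
lemma sm_main (h1 : StmPATH) (hB : HBM B P) (hT : Measurable fun ω => T1 (path B ω))
    (hS : MeasurableSet {ω | Spc (path B ω)})
    (hsh : ∀ t, Measurable fun ω => sh (path B ω) t) (C : Set ℝ≥0) (hC : MeasurableSet C)
    (D : Set Prop) {A : Set (ℝ≥0 → ℝ)} (hA : MeasurableSet A) :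
    P ((fun ω => T1 (path B ω)) ⁻¹' C ∩
      ((fun ω => Spc (path B ω)) ⁻¹' D ∩ (fun ω => sh (path B ω)) ⁻¹' A)) =
    P ((fun ω => T1 (path B ω)) ⁻¹' C ∩ (fun ω => Spc (path B ω)) ⁻¹' D) *
      P {ω | path B ω ∈ A} := by
  have hP := hB.gbm.prob
  have hshm : Measurable (fun ω => sh (path B ω)) := measurable_pi_lambda _ hsh
  have hSm : Measurable (fun ω => Spc (path B ω)) := measurableSet_setOfPred.1 hS
  have hD : MeasurableSet ((fun ω => Spc (path B ω)) ⁻¹' D) := hSm trivial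
  have hfin : IsFiniteMeasure ((P.restrict ((fun ω => Spc (path B ω)) ⁻¹' D ∩
      (fun ω => sh (path B ω)) ⁻¹' A)).map fun ω => T1 (path B ω)) := inferInstance
  have e1 : (P.restrict ((fun ω => Spc (path B ω)) ⁻¹' D ∩ (fun ω => sh (path B ω)) ⁻¹' A)).map
      (fun ω => T1 (path B ω)) = P {ω | path B ω ∈ A} •
      (P.restrict ((fun ω => Spc (path B ω)) ⁻¹' D)).map (fun ω => T1 (path B ω)) := by
    apply Measure.ext_of_Iic
    intro v
    rw [Measure.map_apply hT measurableSet_Iic, Measure.restrict_apply (hT measurableSet_Iic),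
      Measure.smul_apply, Measure.map_apply hT measurableSet_Iic,
      Measure.restrict_apply (hT measurableSet_Iic), smul_eq_mul]
    have h5 := congrArg (fun μ => μ A) (sm_key5 h1 hB hT hsh v D)
    rw [Measure.map_apply hshm hA, Measure.restrict_apply (hshm hA), Measure.smul_apply,
      Measure.map_apply (sm_meas_path hB.gbm.meas) hA, smul_eq_mul] at h5
    have h6 : (fun ω => T1 (path B ω)) ⁻¹' Iic v ∩ (fun ω => Spc (path B ω)) ⁻¹' D = Fv B v D := rfl
    rw [← inter_assoc, h6, inter_comm, h5, mul_comm]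
    rfl
  have h7 := congrArg (fun μ => μ C) e1
  rw [Measure.map_apply hT hC, Measure.restrict_apply (hT hC), Measure.smul_apply,
    Measure.map_apply hT hC, Measure.restrict_apply (hT hC), smul_eq_mul] at h7
  rw [h7, mul_comm]

end

theorem pieceSM (h1 : StmPATH) (h2 : StmMEAS.{u}) : StmSM.{u} := by
  intro Ω _ P B hB
  have hP := hB.gbm.prob
  obtain ⟨hT, hS, hsh⟩ := h2 Ω B hB.gbm.meas hB.nice
  have hshm : Measurable (fun ω => sh (path B ω)) := measurable_pi_lambda _ hsh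
  have hSm : Measurable (fun ω => Spc (path B ω)) := measurableSet_setOfPred.1 hS
  have hlaw : ∀ A : Set (ℝ≥0 → ℝ), MeasurableSet A →
      P ((fun ω => sh (path B ω)) ⁻¹' A) = P {ω | path B ω ∈ A} := by
    intro A hA
    have h3 := sm_main h1 hB hT hS hsh univ MeasurableSet.univ univ hA
    simpa using h3
  have hmap : P.map (fun ω => sh (path B ω)) = P.map (path B) := by
    ext A hA
    rw [Measure.map_apply hshm hA, Measure.map_apply (sm_meas_path hB.gbm.meas) hA]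
    exact hlaw A hA
  refine ⟨⟨⟨⟨?_⟩, hsh, ?_, ?_⟩, ?_⟩, ?_⟩
  · intro I
    have hm1 : Measurable (fun ω => I.restrict (fun t => sh (path B ω) t)) :=
      (Finset.measurable_restrict I).comp hshm
    refine ⟨hm1.aemeasurable, ?_⟩
    have e1 : P.map (fun ω => I.restrict (fun t => sh (path B ω) t)) =
        (P.map (fun ω => sh (path B ω))).map I.restrict :=
      (Measure.map_map (Finset.measurable_restrict I) hshm).symm
    rw [e1, hmap, Measure.map_map (Finset.measurable_restrict I) (sm_meas_path hB.gbm.meas)]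
    exact (hB.gbm.pre.hasLaw I).map_eq
  · intro ω
    exact (h1 _ (hB.nice ω)).1.cont
  · intro ω
    exact (h1 _ (hB.nice ω)).1.zero
  · intro ω
    exact (h1 _ (hB.nice ω)).1
  · rw [indepFun_iff_measure_inter_preimage_eq_mul]
    intro C A hC hA
    have hCb : ∀ b : Prop, MeasurableSet {x : ℝ≥0 | (x, b) ∈ C} := fun b =>
      measurable_prodMk_right hC
    have hYC : ∀ E : Set Ω, Y B 0 ⁻¹' C ∩ E =
        ((fun ω => T1 (path B ω)) ⁻¹' {x | (x, True) ∈ C} ∩
          ((fun ω => Spc (path B ω)) ⁻¹' {True} ∩ E)) ∪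
        ((fun ω => T1 (path B ω)) ⁻¹' {x | (x, False) ∈ C} ∩
          ((fun ω => Spc (path B ω)) ⁻¹' {False} ∩ E)) := by
      intro E
      ext ω
      have hY0 : Y B 0 ω = (T1 (path B ω), Spc (path B ω)) := rfl
      simp only [Set.mem_inter_iff, Set.mem_union, Set.mem_preimage, Set.mem_singleton_iff,
        Set.mem_ofPred_eq, hY0]
      by_cases hs : Spc (path B ω)
      · simp [hs]
      · simp [hs]
    have hdisj : ∀ E : Set Ω, Disjoint
        ((fun ω => T1 (path B ω)) ⁻¹' {x | (x, True) ∈ C} ∩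
          ((fun ω => Spc (path B ω)) ⁻¹' {True} ∩ E))
        ((fun ω => T1 (path B ω)) ⁻¹' {x | (x, False) ∈ C} ∩
          ((fun ω => Spc (path B ω)) ⁻¹' {False} ∩ E)) := by
      intro E
      rw [Set.disjoint_left]
      rintro ω ⟨_, ha, _⟩ ⟨_, hb, _⟩
      simp only [Set.mem_preimage, Set.mem_singleton_iff] at ha hb
      rw [ha] at hb
      simp at hb
    have hmE : ∀ (b : Prop) (E : Set Ω), MeasurableSet E →
        MeasurableSet ((fun ω => T1 (path B ω)) ⁻¹' {x | (x, b) ∈ C} ∩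
          ((fun ω => Spc (path B ω)) ⁻¹' {b} ∩ E)) := fun b E hE =>
      (hT (hCb b)).inter ((hSm trivial).inter hE)
    have hAm : MeasurableSet ((fun ω => sh (path B ω)) ⁻¹' A) := hshm hA
    have f1 := hYC ((fun ω => sh (path B ω)) ⁻¹' A)
    have f2 := hYC univ
    rw [inter_univ] at f2
    rw [f1, measure_union (hdisj _) (hmE False _ hAm), f2,
      measure_union (hdisj _) (hmE False _ MeasurableSet.univ),
      sm_main h1 hB hT hS hsh _ (hCb True) {True} hA,
      sm_main h1 hB hT hS hsh _ (hCb False) {False} hA, inter_univ, inter_univ, hlaw A hA,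
      add_mul]

end Pool.Agent.R977.SC
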