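import Pool.Agent.R977.SC.Defs

open MeasureTheory ProbabilityTheory Filter Topology Set
open scoped ENNReal NNReal

/-! Exact statements of the independent pieces (proofs in NOTES.md). -/

namespace Pool.Agent.R977.SC

open Pool.Agent.R974.Span

universe u

/-- SC-PATH (deterministic) -/
def StmPATH : Prop := ∀ w : ℝ≥0 → ℝ, Nice w →
  Nice (sh w) ∧ w (T1 w) = 1 ∧ 0 < T1 w ∧ (∀ t, t < T1 w → w t < 1) ∧
    ∀ t, 1 ≤ w t → T1 w ≤ t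

/-- SC-MEAS -/
def StmMEAS : Prop := ∀ (Ω : Type u) [MeasurableSpace Ω] (X : ℝ≥0 → Ω → ℝ),
  (∀ t, Measurable (X t)) → (∀ ω, Nice (path X ω)) →
  Measurable (fun ω => T1 (path X ω)) ∧ MeasurableSet {ω | Spc (path X ω)} ∧
  ∀ t, Measurable (fun ω => sh (path X ω) t)

/-- SC-SM: strong Markov property at the first passage time -/
def StmSM : Prop := ∀ (Ω : Type u) [MeasurableSpace Ω] (P : Measure Ω) (B : ℝ≥0 → Ω → ℝ),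
  HBM B P → HBM (fun t ω => sh (path B ω) t) P ∧
    IndepFun (Y B 0) (fun ω => sh (path B ω)) P

/-- SC-IID -/
def StmIID : Prop := ∀ (Ω : Type u) [MeasurableSpace Ω] (P : Measure Ω) (B : ℝ≥0 → Ω → ℝ),
  HBM B P → (∀ k, Measurable (Y B k)) ∧ iIndepFun (Y B) P ∧ ∀ k, P.map (Y B k) = P.map (Y B 0)

/-- SC-LAW -/
def StmLAW : Prop := ∀ (Ω : Type u) [MeasurableSpace Ω] (P : Measure Ω) (B B' : ℝ≥0 → Ω → ℝ),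
  HBM B P → HBM B' P → P.map (Y B 0) = P.map (Y B' 0)

/-- SC-WALK: abstract statement on an i.i.d. family -/
def StmWALK : Prop := ∀ (Ω : Type u) [MeasurableSpace Ω] (P : Measure Ω) [IsProbabilityMeasure P]
  (Z : ℕ ⊕ ℕ → Ω → ℝ≥0 × Prop), (∀ s, Measurable (Z s)) → iIndepFun Z P →
  (∀ s, P.map (Z s) = P.map (Z (Sum.inl 0))) → ∀ n : ℕ,
  (P {ω | (Z (Sum.inl 0) ω).1 ≤ 1 / 8} * P {ω | (Z (Sum.inl 0) ω).2}) ^ 4 ≤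
    ∑ a ∈ Finset.range (n + 1), P {ω | Good a (n - a)
      (fun k => (Z (Sum.inl k) ω).1) (fun k => (Z (Sum.inr k) ω).1)
      (fun k => (Z (Sum.inl k) ω).2) (fun k => (Z (Sum.inr k) ω).2)}

/-- SC-GEO (deterministic) -/
def StmGEO : Prop := ∀ (L R : ℝ≥0 → ℝ), Nice L → Nice R → ∀ a b : ℕ, GoodP a b L R →
  Unc ((a : ℝ) + b + 4) 1 L R

/-- SC-DISJ (deterministic) -/
def StmDISJ : Prop := ∀ (L R : ℝ≥0 → ℝ), Nice L → Nice R → ∀ a b a' b' : ℕ, a + b = a' + b' →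
  GoodP a b L R → GoodP a' b' L R → a = a'

/-- SC-POS -/
def StmPOS : Prop := ∀ (Ω : Type u) [MeasurableSpace Ω] (P : Measure Ω) (B : ℝ≥0 → Ω → ℝ),
  HBM B P → P {ω | T1 (path B ω) ≤ 1 / 8} ≠ 0 ∧ P {ω | Spc (path B ω)} ≠ 0

/-- SC-HIT -/
def StmHIT : Prop := ∀ (Ω : Type u) [MeasurableSpace Ω] (P : Measure Ω) (B : ℝ≥0 → Ω → ℝ),
  GBM B P → ∃ B' : ℝ≥0 → Ω → ℝ, HBM B' P ∧ ∀ᵐ ω ∂P, ∀ t, B' t ω = B t ω

/-- SC-A: the pair statement (follows from IID, LAW, WALK, GEO, DISJ, POS and scaling) -/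
def StmA : Prop := ∀ (Ω : Type u) [MeasurableSpace Ω] (P : Measure Ω) (L R : ℝ≥0 → Ω → ℝ),
  HBM L P → HBM R P → IndepFun (path L) (path R) P →
  ∃ c0 : ℝ≥0∞, c0 ≠ 0 ∧ ∀ c : ℝ, 0 < c → ∃ G : Set Ω, MeasurableSet G ∧ c0 ≤ P G ∧
    ∀ ω ∈ G, ∀ δ : ℝ, 0 < δ → Unc c δ (path L ω) (path R ω)

/-- SC-SMALL -/
def StmSMALL : Prop := ∀ (Ω : Type u) [MeasurableSpace Ω] (P : Measure Ω) (B : ℝ≥0 → Ω → ℝ),
  HBM B P → ∀ ε : ℝ≥0∞, ε ≠ 0 → ∃ c1 : ℝ, 0 < c1 ∧ ∀ c : ℝ, 0 < c → c < c1 →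
    P {ω | ¬ ∃ x : ℝ≥0, x ≤ 1 / 8 ∧ c ≤ B x ω} ≤ ε

/-- SC-CONS -/
def StmCONS : Prop := ∀ (Ω : Type u) [MeasurableSpace Ω] (P : Measure Ω) (B : ℝ≥0 → Ω → ℝ),
  HBM B P → ∃ L R : ℝ≥0 → Ω × Ω → ℝ, HBM L (P.prod P) ∧ HBM R (P.prod P) ∧
    IndepFun (path L) (path R) (P.prod P) ∧
    (∀ ω, ∀ t : ℝ≥0, t ≤ 1 / 4 → L t ω = B t ω.1) ∧
    (∀ ω, ∀ t : ℝ≥0, t ≤ 1 / 4 → R t ω = rev (path B ω.1) t)

/-- SC-LEVEL: randomisation of the level -/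
def StmLEVEL : Prop := ∀ (Ω : Type u) [MeasurableSpace Ω] (P : Measure Ω) (B : ℝ≥0 → Ω → ℝ),
  GBM B P → ∀ c1 : ℝ, 0 < c1 →
  (∀ c : ℝ, 0 < c → c < c1 → P {ω | VV c (path B ω) (rev (path B ω))} ≠ 0) →
  MeasurableSet {ω | VV (B 1 ω) (path B ω) (rev (path B ω))} ∧
    P {ω | VV (B 1 ω) (path B ω) (rev (path B ω))} ≠ 0

/-- SC-VDET (deterministic) -/
def StmVDET : Prop := ∀ (L R : ℝ≥0 → ℝ), Continuous L → Continuous R → L 0 = 0 → R 0 = 0 →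
  ∀ c : ℝ, 0 < c → (∀ δ : ℝ, 0 < δ → Unc c δ L R) → (∃ x : ℝ≥0, x ≤ 1 / 8 ∧ c ≤ L x) → VV c L R

/-- SC-FIN (deterministic) -/
def StmFIN : Prop := ∀ f : ℝ≥0 → ℝ, Continuous f → f 0 = 0 → VV (f 1) f (rev f) →
  Sp f = closure (interior (Sp f)) →
  Infinite (ConnectedComponents (Sp f)) ∧
    ¬ ∃ F : Finset (ℝ × ℝ), Sp f = ⋃ p ∈ F, Icc p.1 p.2

end Pool.Agent.R977.SC
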