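import Pool.Agent.R977.SC.Stm

open MeasureTheory ProbabilityTheory Filter Topology Set
open scoped ENNReal NNReal

namespace Pool.Agent.R977.SC

open Pool.Agent.R974.Span

namespace Vdet

variable {L R : ℝ≥0 → ℝ}

theorem compact_tri (q : ℝ≥0) : IsCompact {p : ℝ≥0 × ℝ≥0 | p.1 + p.2 ≤ q} := by
  have h1 : IsCompact ((Icc (0:ℝ≥0) q) ×ˢ (Icc (0:ℝ≥0) q)) := isCompact_Icc.prod isCompact_Icc
  refine h1.of_isClosed_subset (isClosed_le (by fun_prop) continuous_const) ?_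
  rintro ⟨x, y⟩ h
  have h' : x + y ≤ q := h
  exact ⟨⟨zero_le, le_trans (le_self_add) h'⟩, ⟨zero_le, le_trans (le_add_self) h'⟩⟩

theorem Ms_lt (hL : Continuous L) (hR : Continuous R) {q : ℝ≥0} {c : ℝ}
    (h : ∀ x y : ℝ≥0, x + y ≤ q → L x + R y < c) : Ms L R q < c := by
  have hne : {p : ℝ≥0 × ℝ≥0 | p.1 + p.2 ≤ q}.Nonempty := ⟨(0, 0), by simp⟩
  have hc : ContinuousOn (fun p : ℝ≥0 × ℝ≥0 => L p.1 + R p.2) {p : ℝ≥0 × ℝ≥0 | p.1 + p.2 ≤ q} := by
    fun_prop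
  obtain ⟨p0, hp0, hmax⟩ := (compact_tri q).exists_isMaxOn hne hc
  refine lt_of_le_of_lt (ciSup_le ?_) (h p0.1 p0.2 hp0)
  intro p
  have h1 : (min (dq p.1) q, min (dq p.2) (q - min (dq p.1) q)) ∈ {p : ℝ≥0 × ℝ≥0 | p.1 + p.2 ≤ q} := by
    show min (dq p.1) q + min (dq p.2) (q - min (dq p.1) q) ≤ q
    calc _ ≤ min (dq p.1) q + (q - min (dq p.1) q) := by gcongr; exact min_le_right _ _
      _ = q := add_tsub_cancel_of_le (min_le_right _ _)
  exact hmax h1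

theorem Gs_lt (hL : Continuous L) (hR : Continuous R) {q : ℝ≥0} {c : ℝ}
    (h : ∀ x y : ℝ≥0, x + y = q → L x + R y < c) : Gs L R q < c := by
  have hne : (Icc (0:ℝ≥0) q).Nonempty := ⟨0, by simp⟩
  have hc : ContinuousOn (fun x : ℝ≥0 => L x + R (q - x)) (Icc (0:ℝ≥0) q) := by
    fun_prop
  obtain ⟨x0, hx0, hmax⟩ := isCompact_Icc.exists_isMaxOn hne hc
  refine lt_of_le_of_lt (ciSup_le ?_) (h x0 (q - x0) (add_tsub_cancel_of_le hx0.2))
  intro n
  have h1 : min (dq n) q ∈ Icc (0:ℝ≥0) q := ⟨zero_le, min_le_right _ _⟩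
  exact hmax h1

theorem le_Ms (hL : Continuous L) (hR : Continuous R) {q x0 y0 : ℝ≥0} (h : x0 + y0 < q) :
    L x0 + R y0 ≤ Ms L R q := by
  have hbdd : BddAbove (range fun p : ℕ × ℕ => (L (min (dq p.1) q) + R (min (dq p.2) (q - min (dq p.1) q)))) := by
    have hc : ContinuousOn (fun p : ℝ≥0 × ℝ≥0 => L p.1 + R p.2) {p : ℝ≥0 × ℝ≥0 | p.1 + p.2 ≤ q} := by
      fun_prop
    obtain ⟨M, hM⟩ := (compact_tri q).bddAbove_image hc
    refine ⟨M, ?_⟩
    rintro _ ⟨p, rfl⟩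
    refine hM ⟨(min (dq p.1) q, min (dq p.2) (q - min (dq p.1) q)), ?_, rfl⟩
    show min (dq p.1) q + min (dq p.2) (q - min (dq p.1) q) ≤ q
    calc _ ≤ min (dq p.1) q + (q - min (dq p.1) q) := by gcongr; exact min_le_right _ _
      _ = q := add_tsub_cancel_of_le (min_le_right _ _)
  refine le_of_forall_lt (fun e he => ?_)
  have hc2 : Continuous (fun p : ℝ≥0 × ℝ≥0 => L p.1 + R p.2) := (hL.comp continuous_fst).add (hR.comp continuous_snd)
  have hO : IsOpen {p : ℝ≥0 × ℝ≥0 | p.1 + p.2 < q ∧ e < L p.1 + R p.2} :=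
    (isOpen_lt (continuous_fst.add continuous_snd) continuous_const).inter (isOpen_lt continuous_const hc2)
  have hne : {p : ℝ≥0 × ℝ≥0 | p.1 + p.2 < q ∧ e < L p.1 + R p.2}.Nonempty := ⟨(x0, y0), h, he⟩
  have hd : DenseRange (Prod.map dq dq) := dense_dq.prodMap dense_dq
  obtain ⟨p, hp1, hp2⟩ := hd.exists_mem_open hO hne
  simp only [Prod.map_fst, Prod.map_snd] at hp1 hp2
  refine lt_of_lt_of_le hp2 ?_
  have h1 : min (dq p.1) q = dq p.1 := min_eq_left ((le_self_add).trans hp1.le)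
  have h2 : min (dq p.2) (q - dq p.1) = dq p.2 := by
    apply min_eq_left
    exact le_tsub_of_add_le_left hp1.le
  have h3 := le_ciSup hbdd p
  simp only [h1, h2] at h3
  exact h3

/-- the antidiagonals near a clean one are clean -/
theorem near (hL : Continuous L) (hR : Continuous R) {r : ℝ≥0} {c : ℝ}
    (h : ∀ x y : ℝ≥0, x + y = r → L x + R y < c) :
    ∀ᶠ q in 𝓝 r, ∀ x y : ℝ≥0, x + y = q → L x + R y < c := by
  have hcpt : IsCompact ({p : ℝ≥0 × ℝ≥0 | p.1 + p.2 ≤ r + 1} ∩ {p : ℝ≥0 × ℝ≥0 | c ≤ L p.1 + R p.2}) :=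
    (compact_tri (r + 1)).inter_right (isClosed_le continuous_const (by fun_prop))
  have him : IsCompact ((fun p : ℝ≥0 × ℝ≥0 => p.1 + p.2) ''
      ({p : ℝ≥0 × ℝ≥0 | p.1 + p.2 ≤ r + 1} ∩ {p : ℝ≥0 × ℝ≥0 | c ≤ L p.1 + R p.2})) := hcpt.image (by fun_prop)
  have hnot : r ∉ ((fun p : ℝ≥0 × ℝ≥0 => p.1 + p.2) ''
      ({p : ℝ≥0 × ℝ≥0 | p.1 + p.2 ≤ r + 1} ∩ {p : ℝ≥0 × ℝ≥0 | c ≤ L p.1 + R p.2})) := by
    rintro ⟨p, ⟨_, hp2⟩, hp3⟩
    exact absurd (h p.1 p.2 hp3) (not_lt.2 hp2)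
  have h1 := him.isClosed.isOpen_compl.mem_nhds hnot
  have h2 : Iio (r + 1) ∈ 𝓝 r := Iio_mem_nhds (by simp)
  filter_upwards [h1, h2] with q hq1 hq2 x y hxy
  by_contra hcon
  push Not at hcon
  exact hq1 ⟨(x, y), ⟨by show x + y ≤ r + 1; rw [hxy]; exact (mem_Iio.1 hq2).le, hcon⟩, hxy⟩

theorem exists_dq {a b : ℝ≥0} (h : a < b) : ∃ i, a < dq i ∧ dq i < b := by
  obtain ⟨i, hi⟩ := dense_dq.exists_mem_open isOpen_Ioo (nonempty_Ioo.2 h)
  exact ⟨i, hi.1, hi.2⟩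

end Vdet

theorem pieceVDET : StmVDET := by
  intro L R hL hR hL0 hR0 c hc hU hx m
  obtain ⟨x1, hx1, hx1c⟩ := hx
  set δ : ℝ≥0 := min (1 / 8) (1 / (4 * ((m : ℝ≥0) + 1))) with hδ
  have hm : (0:ℝ≥0) < (m:ℝ≥0) + 1 := by positivity
  have hδpos : 0 < δ := by rw [hδ]; exact lt_min (by norm_num) (by positivity)
  have hδ1 : δ ≤ 1 / 8 := min_le_left _ _
  have hδ2 : δ ≤ 1 / (4 * ((m : ℝ≥0) + 1)) := min_le_right _ _
  obtain ⟨r, hr1, ⟨x0, y0, hr2, hr2c⟩, hr3⟩ := hU δ (by exact_mod_cast hδpos)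
  -- r < 1/4
  have hr4 : r < x1 + δ := by
    by_contra h
    push Not at h
    have h2 := hr3 x1 0 (by
      have : ((x1 + δ : ℝ≥0) : ℝ) ≤ r := by exact_mod_cast h
      push_cast at this
      simpa using this)
    rw [hR0, add_zero] at h2
    linarith
  have hr5 : r < 1 / 4 := by
    refine lt_of_lt_of_le hr4 ?_
    calc x1 + δ ≤ 1 / 8 + 1 / 8 := add_le_add hx1 hδ1
      _ = 1 / 4 := by
        rw [← NNReal.coe_inj]; push_cast; norm_num
  have hz : 0 < x0 + y0 := by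
    rcases eq_or_lt_of_le (zero_le (a := x0 + y0)) with h | h
    · have h2 : x0 = 0 ∧ y0 = 0 := by simpa using h.symm
      rw [h2.1, h2.2, hL0, hR0] at hr2c
      linarith
    · exact h
  -- the upper point
  have hev := Vdet.near hL hR hr1
  have hj : ∃ j, x0 + y0 < dq j ∧ dq j < 1 / 4 ∧ dq j < r + δ ∧ ∀ x y : ℝ≥0, x + y = dq j → L x + R y < c := by
    obtain ⟨V, hV1, hV2, hV3⟩ := eventually_nhds_iff.1 hev
    have hO : IsOpen (V ∩ (Ioi (x0 + y0) ∩ (Iio (1 / 4) ∩ Iio (r + δ)))) :=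
      hV2.inter (isOpen_Ioi.inter (isOpen_Iio.inter isOpen_Iio))
    obtain ⟨j, hj⟩ := dense_dq.exists_mem_open hO ⟨r, hV3, hr2, hr5, by
      show r < r + δ
      exact lt_add_of_pos_right r hδpos⟩
    exact ⟨j, hj.2.1, hj.2.2.1, hj.2.2.2, hV1 _ hj.1⟩
  obtain ⟨j, hj1, hj2, hj3, hj4⟩ := hj
  -- the lower point
  have hi : ∃ i, dq i < x0 + y0 ∧ r ≤ dq i + (δ + δ) ∧ ∀ x y : ℝ≥0, x + y ≤ dq i → L x + R y < c := by
    by_cases hcase : δ < r
    · obtain ⟨i, hi1, hi2⟩ := Vdet.exists_dq (a := r - (δ + δ)) (b := r - δ) (by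
        rw [tsub_add_eq_tsub_tsub]
        exact tsub_lt_self (tsub_pos_of_lt hcase) hδpos)
      refine ⟨i, ?_, ?_, ?_⟩
      · by_contra h
        push Not at h
        have h3 : x0 + y0 + δ ≤ r := by
          have : x0 + y0 ≤ r - δ := h.trans hi2.le
          exact (le_tsub_iff_right hcase.le).1 this
        have h4 : ((x0 + y0 + δ : ℝ≥0) : ℝ) ≤ r := by exact_mod_cast h3
        push_cast at h4
        exact absurd (hr3 x0 y0 h4) (not_lt.2 hr2c)
      · exact tsub_le_iff_right.1 hi1.le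
      · intro x y hxy
        apply hr3
        have h3 : x + y + δ ≤ r := by
          have : x + y ≤ r - δ := hxy.trans hi2.le
          exact (le_tsub_iff_right hcase.le).1 this
        have h4 : ((x + y + δ : ℝ≥0) : ℝ) ≤ r := by exact_mod_cast h3
        push_cast at h4
        exact h4
    · push Not at hcase
      have hLe : ∀ᶠ x in 𝓝 (0:ℝ≥0), L x < c / 2 := hL.continuousAt.eventually_lt continuousAt_const (by rw [hL0]; positivity)
      have hRe : ∀ᶠ x in 𝓝 (0:ℝ≥0), R x < c / 2 := hR.continuousAt.eventually_lt continuousAt_const (by rw [hR0]; positivity)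
      obtain ⟨e, he, hee⟩ := Metric.eventually_nhds_iff.1 (hLe.and hRe)
      set e' : ℝ≥0 := ⟨e, he.le⟩ with he'
      have hepos : 0 < e' := by rw [← NNReal.coe_pos]; exact he
      obtain ⟨i, _, hi2⟩ := Vdet.exists_dq (a := 0) (b := min e' (x0 + y0)) (lt_min hepos hz)
      refine ⟨i, hi2.trans_le (min_le_right _ _), ?_, ?_⟩
      · calc r ≤ δ := hcase
          _ ≤ dq i + (δ + δ) := by rw [← add_assoc]; exact le_add_self
      · intro x y hxy
        have hlt : x + y < e' := lt_of_le_of_lt hxy (hi2.trans_le (min_le_left _ _))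
        have hxe : x < e' := lt_of_le_of_lt le_self_add hlt
        have hye : y < e' := lt_of_le_of_lt le_add_self hlt
        have h1 : dist x 0 < e := by
          rw [NNReal.dist_eq]; simp
          exact_mod_cast hxe
        have h2 : dist y 0 < e := by
          rw [NNReal.dist_eq]; simp
          exact_mod_cast hye
        have h3 := (hee h1).1
        have h4 := (hee h2).2
        linarith
  obtain ⟨i, hi1, hi2, hi3⟩ := hi
  refine ⟨i, j, (hi1.trans hj1).le, ?_, hj2.le, Vdet.Ms_lt hL hR hi3, hr2c.trans (Vdet.le_Ms hL hR hj1),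
    Vdet.Gs_lt hL hR hj4⟩
  calc dq j ≤ r + δ := hj3.le
    _ ≤ dq i + (δ + δ) + δ := by gcongr
    _ = dq i + (δ + δ + δ) := by ring
    _ ≤ dq i + (4 * δ) := by gcongr; rw [← NNReal.coe_le_coe]; push_cast; have : (0:ℝ) ≤ δ := δ.2; linarith
    _ ≤ dq i + 1 / ((m : ℝ≥0) + 1) := by
      gcongr
      calc 4 * δ ≤ 4 * (1 / (4 * ((m : ℝ≥0) + 1))) := by gcongr
        _ = 1 / ((m : ℝ≥0) + 1) := by field_simp

end Pool.Agent.R977.SC
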