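import Pool.Agent.R977.SC.Stm

open MeasureTheory ProbabilityTheory Filter Topology Set
open scoped ENNReal NNReal

/-! SC-WALK: the argmin partition of a random walk, on an i.i.d. family.

After a relabelling of the coordinates the event `Good a (n - a)` says that six extra coordinates
are favourable and that a walk of length `n`, the same for all `a`, has a minimum at time `a`. -/

namespace Pool.Agent.R977.SC

universe u

namespace Walk

/-- relabelling of the left coordinates -/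
def fL (a i : ℕ) : ℕ := if i < 3 then a + i else if i < a + 3 then i - 3 else i

/-- relabelling of the right coordinates -/
def fR (n a i : ℕ) : ℕ :=
  if i < 3 then n - a + i else if i < a + 3 then n + 5 - i else if i < n + 3 then n + 2 - i else i

theorem fL_inj (a : ℕ) : Function.Injective (fL a) := by
  intro i j h
  unfold fL at h
  split_ifs at h <;> omega

theorem fR_inj {n a : ℕ} (ha : a ≤ n) : Function.Injective (fR n a) := by
  intro i j h
  unfold fR at h
  split_ifs at h <;> omega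

/-- relabelling -/
def sg (n a : ℕ) : ℕ ⊕ ℕ → ℕ ⊕ ℕ := Sum.map (fL a) (fR n a)

theorem sg_inj {n a : ℕ} (ha : a ≤ n) : Function.Injective (sg n a) :=
  (fL_inj a).sumMap (fR_inj ha)

/-- values of the coordinates -/
abbrev E : Type := ℝ≥0 × Prop

/-- conditions on the six extra coordinates -/
def CC (z : ℕ ⊕ ℕ → E) : Prop :=
  ((z (Sum.inl 0)).1 ≤ 1 ∧ (z (Sum.inl 1)).1 ≤ 1 / 8 ∧ (z (Sum.inl 2)).2) ∧
    ((z (Sum.inr 0)).1 ≤ 1 ∧ (z (Sum.inr 1)).1 ≤ 1 / 8 ∧ (z (Sum.inr 2)).2)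

/-- step of the walk -/
def st (z : ℕ ⊕ ℕ → E) (j : ℕ) : ℝ := ((z (Sum.inl (j + 3))).1 : ℝ) - (z (Sum.inr (j + 3))).1

/-- the walk has a minimum at time `a` -/
def QQ (n a : ℕ) (z : ℕ ⊕ ℕ → E) : Prop :=
  (∀ m ≤ n - a, 0 ≤ ∑ k ∈ Finset.range m, st z (a + k)) ∧
    ∀ m ≤ a, 0 ≤ ∑ k ∈ Finset.range m, -st z (a - 1 - k)

theorem good_iff {n a : ℕ} (ha : a ≤ n) (z : ℕ ⊕ ℕ → E) :
    Good a (n - a) (fun k => (z (Sum.inl k)).1) (fun k => (z (Sum.inr k)).1)
      (fun k => (z (Sum.inl k)).2) (fun k => (z (Sum.inr k)).2) ↔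
      CC (fun s => z (sg n a s)) ∧ QQ n a (fun s => z (sg n a s)) := by
  have l0 : fL a 0 = a := by simp [fL]
  have l1 : fL a 1 = a + 1 := by simp [fL]
  have l2 : fL a 2 = a + 2 := by simp [fL]
  have r0 : fR n a 0 = n - a := by simp [fR]
  have r1 : fR n a 1 = n - a + 1 := by simp [fR]
  have r2 : fR n a 2 = n - a + 2 := by simp [fR]
  have e1 : ∀ m ≤ n - a, ∑ k ∈ Finset.range m, st (fun s => z (sg n a s)) (a + k) =
      ∑ k ∈ Finset.range m, (((z (Sum.inl (a + 3 + k))).1 : ℝ) -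
        (z (Sum.inr (n - a - 1 - k))).1) := by
    intro m hm
    refine Finset.sum_congr rfl fun k hk => ?_
    rw [Finset.mem_range] at hk
    have h1 : fL a (a + k + 3) = a + 3 + k := by
      unfold fL; split_ifs <;> omega
    have h2 : fR n a (a + k + 3) = n - a - 1 - k := by
      unfold fR; split_ifs <;> omega
    simp only [st, sg, Sum.map_inl, Sum.map_inr, h1, h2]
  have e2 : ∀ m ≤ a, ∑ k ∈ Finset.range m, -st (fun s => z (sg n a s)) (a - 1 - k) =
      ∑ k ∈ Finset.range m, (((z (Sum.inr (n - a + 3 + k))).1 : ℝ) -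
        (z (Sum.inl (a - 1 - k))).1) := by
    intro m hm
    refine Finset.sum_congr rfl fun k hk => ?_
    rw [Finset.mem_range] at hk
    have h1 : fL a (a - 1 - k + 3) = a - 1 - k := by
      unfold fL; split_ifs <;> omega
    have h2 : fR n a (a - 1 - k + 3) = n - a + 3 + k := by
      unfold fR; split_ifs <;> omega
    simp only [st, sg, Sum.map_inl, Sum.map_inr, h1, h2]
    ring
  unfold Good CC QQ
  simp only [sg, Sum.map_inl, Sum.map_inr, l0, l1, l2, r0, r1, r2]
  constructor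
  · rintro ⟨h1, h2, h3, h4⟩
    refine ⟨⟨h1, h2⟩, fun m hm => ?_, fun m hm => ?_⟩
    · have := e1 m hm
      simp only [sg] at this
      rw [this]
      exact h3 m hm
    · have := e2 m hm
      simp only [sg] at this
      rw [this]
      exact h4 m hm
  · rintro ⟨⟨h1, h2⟩, h3, h4⟩
    refine ⟨h1, h2, fun m hm => ?_, fun m hm => ?_⟩
    · have := e1 m hm
      simp only [sg] at this
      rw [← this]
      exact h3 m hm
    · have := e2 m hm
      simp only [sg] at this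
      rw [← this]
      exact h4 m hm

/-- there is a time at which the walk is minimal -/
theorem exists_min (n : ℕ) (z : ℕ ⊕ ℕ → E) : ∃ a ≤ n, QQ n a z := by
  obtain ⟨a, ha, hmin⟩ := Finset.exists_min_image (Finset.range (n + 1))
    (fun j => ∑ i ∈ Finset.range j, st z i) ⟨0, by simp⟩
  rw [Finset.mem_range] at ha
  refine ⟨a, by omega, fun m hm => ?_, fun m hm => ?_⟩
  · have h1 := hmin (a + m) (by rw [Finset.mem_range]; omega)
    rw [Finset.sum_range_add] at h1
    linarith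
  · have h1 := hmin (a - m) (by rw [Finset.mem_range]; omega)
    have h2 : ∑ i ∈ Finset.range a, st z i = ∑ i ∈ Finset.range (a - m), st z i +
        ∑ k ∈ Finset.range m, st z (a - m + k) := by
      rw [← Finset.sum_range_add]
      congr 2
      omega
    have h3 : ∑ k ∈ Finset.range m, st z (a - 1 - k) = ∑ k ∈ Finset.range m, st z (a - m + k) := by
      rw [← Finset.sum_range_reflect]
      refine Finset.sum_congr rfl fun k hk => ?_
      rw [Finset.mem_range] at hk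
      congr 1
      omega
    rw [Finset.sum_neg_distrib, h3]
    linarith

theorem meas_fst (s : ℕ ⊕ ℕ) (c : ℝ≥0) : MeasurableSet {z : ℕ ⊕ ℕ → E | (z s).1 ≤ c} :=
  measurableSet_le ((measurable_pi_apply s).fst) measurable_const

theorem meas_snd (s : ℕ ⊕ ℕ) : MeasurableSet {z : ℕ ⊕ ℕ → E | (z s).2} :=
  measurableSet_setOfPred.2 ((measurable_pi_apply s).snd)

theorem meas_st (j : ℕ) : Measurable fun z : ℕ ⊕ ℕ → E => st z j :=
  ((measurable_pi_apply _).fst.coe_nnreal_real).sub ((measurable_pi_apply _).fst.coe_nnreal_real)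

theorem meas_CC : MeasurableSet {z : ℕ ⊕ ℕ → E | CC z} :=
  ((meas_fst _ _).inter ((meas_fst _ _).inter (meas_snd _))).inter
    ((meas_fst _ _).inter ((meas_fst _ _).inter (meas_snd _)))

theorem meas_QQ (n a : ℕ) : MeasurableSet {z : ℕ ⊕ ℕ → E | QQ n a z} := by
  have h1 : MeasurableSet {z : ℕ ⊕ ℕ → E | ∀ m ≤ n - a,
      0 ≤ ∑ k ∈ Finset.range m, st z (a + k)} := by
    have : {z : ℕ ⊕ ℕ → E | ∀ m ≤ n - a, 0 ≤ ∑ k ∈ Finset.range m, st z (a + k)} =
        ⋂ m, ⋂ (_ : m ≤ n - a), {z | 0 ≤ ∑ k ∈ Finset.range m, st z (a + k)} := by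
      ext z; simp
    rw [this]
    exact MeasurableSet.iInter fun m => MeasurableSet.iInter fun _ =>
      measurableSet_le measurable_const (Finset.measurable_sum _ fun k _ => meas_st _)
  have h2 : MeasurableSet {z : ℕ ⊕ ℕ → E | ∀ m ≤ a,
      0 ≤ ∑ k ∈ Finset.range m, -st z (a - 1 - k)} := by
    have : {z : ℕ ⊕ ℕ → E | ∀ m ≤ a, 0 ≤ ∑ k ∈ Finset.range m, -st z (a - 1 - k)} =
        ⋂ m, ⋂ (_ : m ≤ a), {z | 0 ≤ ∑ k ∈ Finset.range m, -st z (a - 1 - k)} := by
      ext z; simp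
    rw [this]
    exact MeasurableSet.iInter fun m => MeasurableSet.iInter fun _ =>
      measurableSet_le measurable_const (Finset.measurable_sum _ fun k _ => (meas_st _).neg)
  exact h1.inter h2

section
variable {Ω : Type u} [MeasurableSpace Ω] {P : Measure Ω} [IsProbabilityMeasure P]
  {Z : ℕ ⊕ ℕ → Ω → E}

/-- relabelling does not change the law -/
theorem law (hZ : ∀ s, Measurable (Z s)) (hi : iIndepFun Z P)
    (hd : ∀ s, P.map (Z s) = P.map (Z (Sum.inl 0))) {σ : ℕ ⊕ ℕ → ℕ ⊕ ℕ}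
    (hσ : Function.Injective σ) {A : Set (ℕ ⊕ ℕ → E)} (hA : MeasurableSet A) :
    P {ω | (fun s => Z (σ s) ω) ∈ A} = P {ω | (fun s => Z s ω) ∈ A} := by
  have h1 := (iIndepFun_iff_map_fun_eq_infinitePi_map (fun s => hZ s)).1 hi
  have h2 := (iIndepFun_iff_map_fun_eq_infinitePi_map (fun s => hZ (σ s))).1 (hi.precomp hσ)
  have m1 : Measurable fun ω s => Z s ω := measurable_pi_lambda _ hZ
  have m2 : Measurable fun ω s => Z (σ s) ω := measurable_pi_lambda _ fun s => hZ (σ s)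
  have h3 : P.map (fun ω s => Z (σ s) ω) = P.map (fun ω s => Z s ω) := by
    rw [h1, h2]
    congr 1
    funext s
    rw [hd s, hd (σ s)]
  have h4 := congrArg (fun μ => μ A) h3
  beta_reduce at h4
  rw [Measure.map_apply m1 hA, Measure.map_apply m2 hA] at h4
  exact h4

/-- sets for the six extra coordinates -/
def sets : ℕ ⊕ ℕ → Set E
  | Sum.inl 0 => {e | e.1 ≤ 1}
  | Sum.inl 1 => {e | e.1 ≤ 1 / 8}
  | Sum.inl 2 => {e | e.2}
  | Sum.inl (_ + 3) => univ
  | Sum.inr 0 => {e | e.1 ≤ 1}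
  | Sum.inr 1 => {e | e.1 ≤ 1 / 8}
  | Sum.inr 2 => {e | e.2}
  | Sum.inr (_ + 3) => univ

theorem m1 : MeasurableSet {e : E | e.1 ≤ 1} := measurableSet_le measurable_fst measurable_const

theorem m2 : MeasurableSet {e : E | e.1 ≤ 1 / 8} :=
  measurableSet_le measurable_fst measurable_const

theorem m3 : MeasurableSet {e : E | e.2} := measurableSet_setOfPred.2 measurable_snd

theorem sets_meas : ∀ s, MeasurableSet (sets s)
  | Sum.inl 0 => m1
  | Sum.inl 1 => m2
  | Sum.inl 2 => m3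
  | Sum.inl (_ + 3) => MeasurableSet.univ
  | Sum.inr 0 => m1
  | Sum.inr 1 => m2
  | Sum.inr 2 => m3
  | Sum.inr (_ + 3) => MeasurableSet.univ

theorem prob_CC (hZ : ∀ s, Measurable (Z s)) (hi : iIndepFun Z P)
    (hd : ∀ s, P.map (Z s) = P.map (Z (Sum.inl 0))) :
    (P {ω | (Z (Sum.inl 0) ω).1 ≤ 1 / 8} * P {ω | (Z (Sum.inl 0) ω).2}) ^ 4 ≤
      P {ω | CC (fun s => Z s ω)} := by
  have h1 := hi.measure_inter_preimage_eq_mul
    ((Finset.range 3).disjSum (Finset.range 3)) (sets := sets) fun s _ => sets_meas s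
  rw [Finset.prod_disjSum] at h1
  simp only [Finset.prod_range_succ, Finset.prod_range_zero, one_mul] at h1
  have hP : ∀ s (A : Set E), MeasurableSet A → P (Z s ⁻¹' A) = P (Z (Sum.inl 0) ⁻¹' A) := by
    intro s A hA
    rw [← Measure.map_apply (hZ s) hA, hd s, Measure.map_apply (hZ _) hA]
  have h2 : {ω | CC (fun s => Z s ω)} =
      ⋂ s ∈ (Finset.range 3).disjSum (Finset.range 3), Z s ⁻¹' sets s := by
    ext ω
    simp only [CC, mem_ofPred_eq, mem_iInter, mem_preimage]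
    constructor
    · rintro ⟨⟨a0, a1, a2⟩, b0, b1, b2⟩ s hs
      rcases s with s | s
      · rw [Finset.inl_mem_disjSum, Finset.mem_range] at hs
        interval_cases s
        · exact a0
        · exact a1
        · exact a2
      · rw [Finset.inr_mem_disjSum, Finset.mem_range] at hs
        interval_cases s
        · exact b0
        · exact b1
        · exact b2
    · intro h
      exact ⟨⟨h (Sum.inl 0) (by simp), h (Sum.inl 1) (by simp), h (Sum.inl 2) (by simp)⟩,
        h (Sum.inr 0) (by simp), h (Sum.inr 1) (by simp), h (Sum.inr 2) (by simp)⟩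
  rw [h2, h1]
  have s0 : sets (Sum.inl 0) = {e | e.1 ≤ 1} := rfl
  have s1 : sets (Sum.inl 1) = {e | e.1 ≤ 1 / 8} := rfl
  have s2 : sets (Sum.inl 2) = {e | e.2} := rfl
  have t0 : sets (Sum.inr 0) = {e | e.1 ≤ 1} := rfl
  have t1 : sets (Sum.inr 1) = {e | e.1 ≤ 1 / 8} := rfl
  have t2 : sets (Sum.inr 2) = {e | e.2} := rfl
  rw [s0, s1, s2, t0, t1, t2, hP (Sum.inl 1) _ m2, hP (Sum.inl 2) _ m3, hP (Sum.inr 0) _ m1,
    hP (Sum.inr 1) _ m2, hP (Sum.inr 2) _ m3]
  obtain ⟨p, hp⟩ : ∃ p, p = P (Z (Sum.inl 0) ⁻¹' {e | e.1 ≤ 1}) := ⟨_, rfl⟩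
  obtain ⟨x, hx⟩ : ∃ x, x = P (Z (Sum.inl 0) ⁻¹' {e | e.1 ≤ 1 / 8}) := ⟨_, rfl⟩
  obtain ⟨y, hy⟩ : ∃ y, y = P (Z (Sum.inl 0) ⁻¹' {e | e.2}) := ⟨_, rfl⟩
  have hxp : x ≤ p := by
    rw [hx, hp]
    refine measure_mono fun ω hω => ?_
    have h3 : (Z (Sum.inl 0) ω).1 ≤ 1 / 8 := hω
    exact h3.trans (by rw [div_le_iff₀ (by norm_num)]; norm_num)
  have hy1 : y ≤ 1 := by rw [hy]; exact prob_le_one
  have e1 : P {ω | (Z (Sum.inl 0) ω).1 ≤ 1 / 8} = x := by rw [hx]; rfl
  have e2 : P {ω | (Z (Sum.inl 0) ω).2} = y := by rw [hy]; rfl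
  rw [e1, e2, ← hp, ← hx, ← hy]
  have hy2 : y * y * y * y ≤ y * y := by
    calc y * y * y * y ≤ y * y * 1 * 1 := by gcongr
      _ = y * y := by rw [mul_one, mul_one]
  calc (x * y) ^ 4 = (x * x * (x * x)) * (y * y * y * y) := by ring
    _ ≤ (p * p * (x * x)) * (y * y) := by gcongr
    _ = p * x * y * (p * x * y) := by ring

end

end Walk

open Walk in
/-- **SC-WALK.** -/
theorem pieceWALK : StmWALK.{u} := by
  intro Ω _ P _ Z hZ hi hd n
  refine (prob_CC hZ hi hd).trans ?_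
  have h1 : ∀ a ∈ Finset.range (n + 1), P {ω | Good a (n - a)
      (fun k => (Z (Sum.inl k) ω).1) (fun k => (Z (Sum.inr k) ω).1)
      (fun k => (Z (Sum.inl k) ω).2) (fun k => (Z (Sum.inr k) ω).2)} =
      P {ω | CC (fun s => Z s ω) ∧ QQ n a (fun s => Z s ω)} := by
    intro a ha
    rw [Finset.mem_range] at ha
    have h2 := law hZ hi hd (sg_inj (n := n) (a := a) (by omega)) (meas_CC.inter (meas_QQ n a))
    have h3 : {ω | Good a (n - a)
      (fun k => (Z (Sum.inl k) ω).1) (fun k => (Z (Sum.inr k) ω).1)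
      (fun k => (Z (Sum.inl k) ω).2) (fun k => (Z (Sum.inr k) ω).2)} =
      {ω | (fun s => Z (sg n a s) ω) ∈ {z | CC z} ∩ {z | QQ n a z}} := by
      ext ω
      exact good_iff (by omega) (fun s => Z s ω)
    rw [h3, h2]
    rfl
  rw [Finset.sum_congr rfl h1]
  calc P {ω | CC (fun s => Z s ω)} ≤ P (⋃ a ∈ Finset.range (n + 1),
        {ω | CC (fun s => Z s ω) ∧ QQ n a (fun s => Z s ω)}) := by
        refine measure_mono fun ω hω => ?_
        obtain ⟨a, ha, hq⟩ := exists_min n (fun s => Z s ω)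
        simp only [mem_iUnion]
        exact ⟨a, Finset.mem_range.2 (by omega), hω, hq⟩
    _ ≤ _ := measure_biUnion_finset_le _ _

end Pool.Agent.R977.SC
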